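import Mathlib

/-!
# Communication complexity: deterministic protocols and quantum protocols with entanglement

All definitions used in the statement of the result of this folder.
-/

namespace Pool.Agent.H.MP_dd1c2e_lc

open Finset

/-- A deterministic two-party protocol: a binary tree in which every inner vertex is owned by Alice, who sends one bit
depending on her input, or by Bob, and every leaf carries the common output. -/
inductive DProt (X Y : Type) : Type
  | leaf (b : Bool) : DProt X Y
  | alice (f : X → Bool) (P Q : DProt X Y) : DProt X Y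
  | bob (f : Y → Bool) (P Q : DProt X Y) : DProt X Y

/-- The output of the protocol on the input `(x, y)`. -/
def DProt.run {X Y : Type} : DProt X Y → X → Y → Bool
  | .leaf b, _, _ => b
  | .alice f P Q, x, y => if f x then P.run x y else Q.run x y
  | .bob f P Q, x, y => if f y then P.run x y else Q.run x y

/-- The number of bits exchanged in the worst case. -/
def DProt.depth {X Y : Type} : DProt X Y → ℕ
  | .leaf _ => 0
  | .alice _ P Q => max P.depth Q.depth + 1
  | .bob _ P Q => max P.depth Q.depth + 1

/-- `F` is computed on every input by a deterministic protocol that exchanges at most `k` bits; that is `D(F) ≤ k`. -/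
def DetComputes {X Y : Type} (F : X → Y → Bool) (k : ℕ) : Prop :=
  ∃ P : DProt X Y, P.depth ≤ k ∧ ∀ x y, P.run x y = F x y

/-- The matrix `V` is an isometry `ℂ^A → ℂ^I`. -/
def IsIsometry {I A : Type} [Fintype I] [Fintype A] (V : I → A → ℂ) : Prop :=
  ∀ v : A → ℂ, ∑ i, ‖∑ a, V i a * v a‖ ^ 2 = ∑ a, ‖v a‖ ^ 2

/-- In the joint state `ψ x y ∈ ℂ^A ⊗ ℂ^B` (depending on the inputs) Alice applies the map
`V x : ℂ^A → ℂ^A' ⊗ ℂ^2` to her register, keeps `A'` and sends the qubit to Bob. -/
def aliceSend {X Y A B A' : Type} [Fintype A] (V : X → A' × Bool → A → ℂ) (ψ : X → Y → A → B → ℂ) :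
    X → Y → A' → Bool × B → ℂ :=
  fun x y a' m => ∑ a, V x (a', m.1) a * ψ x y a m.2

/-- The same for Bob: he applies `W y : ℂ^B → ℂ^B' ⊗ ℂ^2`, keeps `B'` and sends the qubit to Alice. -/
def bobSend {X Y A B B' : Type} [Fintype B] (W : Y → B' × Bool → B → ℂ) (ψ : X → Y → A → B → ℂ) :
    X → Y → Bool × A → B' → ℂ :=
  fun x y m b' => ∑ b, W y (b', m.1) b * ψ x y m.2 b

/-- `Reach X Y q A B ψ`: Alice and Bob, who start with an arbitrary entangled state, can prepare the joint states
`ψ x y ∈ ℂ^A ⊗ ℂ^B` (for the inputs `x`, `y`) by exchanging `q` qubits. In each step one party applies an isometry that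
depends on its own input to its own register, and sends one qubit of it to the other party. The order of the senders does
not depend on the inputs. -/
inductive Reach (X Y : Type) : ℕ → (A : Type) → [Fintype A] → (B : Type) → [Fintype B] →
    (X → Y → A → B → ℂ) → Prop
  | start (A : Type) [Fintype A] (B : Type) [Fintype B] (ψ : A → B → ℂ) (h : ∑ a, ∑ b, ‖ψ a b‖ ^ 2 = 1) :
      Reach X Y 0 A B (fun _ _ => ψ)
  | alice {q : ℕ} {A : Type} [Fintype A] {B : Type} [Fintype B] {ψ : X → Y → A → B → ℂ} (A' : Type) [Fintype A']
      (V : X → A' × Bool → A → ℂ) (hV : ∀ x, IsIsometry (V x)) (h : Reach X Y q A B ψ) :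
      Reach X Y (q + 1) A' (Bool × B) (aliceSend V ψ)
  | bob {q : ℕ} {A : Type} [Fintype A] {B : Type} [Fintype B] {ψ : X → Y → A → B → ℂ} (B' : Type) [Fintype B']
      (W : Y → B' × Bool → B → ℂ) (hW : ∀ y, IsIsometry (W y)) (h : Reach X Y q A B ψ) :
      Reach X Y (q + 1) (Bool × A) B' (bobSend W ψ)

/-- `F` is computed with error at most `1/3` on every input by a quantum protocol with prior entanglement in which `q`
qubits are exchanged, `Q*(F) ≤ q`: after the exchange one of the two parties applies an isometry depending on its own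
input, measures one qubit of its register (instead of sending it) and outputs the result. -/
def QuantumComputes {X Y : Type} (F : X → Y → Bool) (q : ℕ) : Prop :=
  ∃ (A : Type) (_ : Fintype A) (B : Type) (_ : Fintype B) (ψ : X → Y → A → B → ℂ), Reach X Y q A B ψ ∧
    ((∃ (A' : Type) (_ : Fintype A') (V : X → A' × Bool → A → ℂ), (∀ x, IsIsometry (V x)) ∧
        ∀ x y, 2 / 3 ≤ ∑ a', ∑ b, ‖aliceSend V ψ x y a' (F x y, b)‖ ^ 2) ∨
      (∃ (B' : Type) (_ : Fintype B') (W : Y → B' × Bool → B → ℂ), (∀ y, IsIsometry (W y)) ∧
        ∀ x y, 2 / 3 ≤ ∑ b', ∑ a, ‖bobSend W ψ x y (F x y, a) b'‖ ^ 2))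

/-- Alice can send one message of `k` bits (depending on `x` only) from which Bob, who knows `y`, can determine `F x y`:
the one-way deterministic communication complexity of `F` is at most `k`. -/
def OneWay {X Y : Type} (F : X → Y → Bool) (k : ℕ) : Prop :=
  ∃ (msg : X → Fin k → Bool) (out : (Fin k → Bool) → Y → Bool), ∀ x y, out (msg x) y = F x y

/-- The Boolean function `f` of `n` bits has `𝔽_p`-degree at most `d`: a polynomial over `ZMod p` in `n` variables of total
degree at most `d` agrees with `f` on `{0, 1}^n`. -/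
def DegLE (p d : ℕ) {n : ℕ} (f : (Fin n → Bool) → Bool) : Prop :=
  ∃ P : MvPolynomial (Fin n) (ZMod p), P.totalDegree ≤ d ∧
    ∀ y : Fin n → Bool, MvPolynomial.eval (fun i => if y i then (1 : ZMod p) else 0) P = if f y then 1 else 0

end Pool.Agent.H.MP_dd1c2e_lc
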