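import Mathlib
import Pool.Agent.H.MP_dd1c2e_lc.Defs

/-!
# Factorisations of complex matrices through Hilbert space (the norm `γ₂`)
-/

namespace Pool.Agent.H.MP_dd1c2e_lc

open Finset

/-- `γ₂(A) ≤ g`: the matrix `A` has a factorisation `A x y = ∑ k, u x k * w y k` in which all vectors `u x`, `w y` have
squared length at most `g`. -/
def G2 {X Y : Type} (A : X → Y → ℂ) (g : ℝ) : Prop :=
  ∃ (ι : Type) (_ : Fintype ι) (u : X → ι → ℂ) (w : Y → ι → ℂ), (∀ x y, A x y = ∑ k, u x k * w y k) ∧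
    (∀ x, ∑ k, ‖u x k‖ ^ 2 ≤ g) ∧ (∀ y, ∑ k, ‖w y k‖ ^ 2 ≤ g)

theorem G2.mono {X Y : Type} {A : X → Y → ℂ} {g g' : ℝ} (h : G2 A g) (hg : g ≤ g') : G2 A g' := by
  obtain ⟨ι, hι, u, w, h1, h2, h3⟩ := h
  exact ⟨ι, hι, u, w, h1, fun x => (h2 x).trans hg, fun y => (h3 y).trans hg⟩

theorem G2.pull {X Y X' Y' : Type} {A : X → Y → ℂ} {g : ℝ} (h : G2 A g) (α : X' → X) (β : Y' → Y) :
    G2 (fun x y => A (α x) (β y)) g := by
  obtain ⟨ι, hι, u, w, h1, h2, h3⟩ := h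
  exact ⟨ι, hι, fun x => u (α x), fun y => w (β y), fun x y => h1 _ _, fun x => h2 _, fun y => h3 _⟩

/-- Take `ι = Unit`. -/
theorem G2.one {X Y : Type} : G2 (fun (_ : X) (_ : Y) => (1 : ℂ)) 1 := by
  refine ⟨Unit, inferInstance, fun _ _ => 1, fun _ _ => 1, ?_, ?_, ?_⟩
  · intro x y; simp
  · intro x; simp
  · intro y; simp

/-- `u`, `w` on `ι ⊕ ι'`. -/
theorem G2.add {X Y : Type} {A B : X → Y → ℂ} {g h : ℝ} (hA : G2 A g) (hB : G2 B h) :
    G2 (fun x y => A x y + B x y) (g + h) := by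
  obtain ⟨ι, hι, u, w, h1, h2, h3⟩ := hA
  obtain ⟨κ, hκ, u', w', h1', h2', h3'⟩ := hB
  refine ⟨ι ⊕ κ, inferInstance, fun x => Sum.elim (u x) (u' x), fun y => Sum.elim (w y) (w' y), ?_, ?_, ?_⟩
  · intro x y
    beta_reduce
    rw [Fintype.sum_sum_type]
    simp only [Sum.elim_inl, Sum.elim_inr]
    rw [h1, h1']
  · intro x
    rw [Fintype.sum_sum_type]
    simp only [Sum.elim_inl, Sum.elim_inr]
    exact add_le_add (h2 x) (h2' x)
  · intro y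
    rw [Fintype.sum_sum_type]
    simp only [Sum.elim_inl, Sum.elim_inr]
    exact add_le_add (h3 y) (h3' y)

/-- `u ⊗ u'`, `w ⊗ w'` on `ι × ι'`. (`∑ ‖u k u' k'‖² = (∑ ‖u k‖²)(∑ ‖u' k'‖²) ≤ g h`, both factors are `≥ 0`.) -/
theorem G2.mul {X Y : Type} {A B : X → Y → ℂ} {g h : ℝ} (hA : G2 A g) (hB : G2 B h) :
    G2 (fun x y => A x y * B x y) (g * h) := by
  obtain ⟨ι, hι, u, w, h1, h2, h3⟩ := hA
  obtain ⟨κ, hκ, u', w', h1', h2', h3'⟩ := hB
  refine ⟨ι × κ, inferInstance, fun x k => u x k.1 * u' x k.2, fun y k => w y k.1 * w' y k.2, ?_, ?_, ?_⟩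
  · intro x y
    beta_reduce
    rw [h1, h1', Fintype.sum_prod_type, Finset.sum_mul_sum]
    refine Finset.sum_congr rfl fun i _ => Finset.sum_congr rfl fun j _ => ?_
    ring
  · intro x
    have e : ∑ k : ι × κ, ‖u x k.1 * u' x k.2‖ ^ 2 = (∑ i, ‖u x i‖ ^ 2) * ∑ j, ‖u' x j‖ ^ 2 := by
      rw [Fintype.sum_prod_type, Finset.sum_mul_sum]
      refine Finset.sum_congr rfl fun i _ => Finset.sum_congr rfl fun j _ => ?_
      rw [norm_mul, mul_pow]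
    rw [e]
    exact mul_le_mul (h2 x) (h2' x) (Finset.sum_nonneg fun _ _ => sq_nonneg _)
      ((Finset.sum_nonneg fun _ _ => sq_nonneg _).trans (h2 x))
  · intro y
    have e : ∑ k : ι × κ, ‖w y k.1 * w' y k.2‖ ^ 2 = (∑ i, ‖w y i‖ ^ 2) * ∑ j, ‖w' y j‖ ^ 2 := by
      rw [Fintype.sum_prod_type, Finset.sum_mul_sum]
      refine Finset.sum_congr rfl fun i _ => Finset.sum_congr rfl fun j _ => ?_
      rw [norm_mul, mul_pow]
    rw [e]
    exact mul_le_mul (h3 y) (h3' y) (Finset.sum_nonneg fun _ _ => sq_nonneg _)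
      ((Finset.sum_nonneg fun _ _ => sq_nonneg _).trans (h3 y))

/-- Multiply `u` by `c`. -/
theorem G2.smul {X Y : Type} {A : X → Y → ℂ} {g : ℝ} (hA : G2 A g) (c : ℂ) (hc : ‖c‖ ≤ 1) :
    G2 (fun x y => c * A x y) g := by
  obtain ⟨ι, hι, u, w, h1, h2, h3⟩ := hA
  refine ⟨ι, hι, fun x k => c * u x k, w, ?_, ?_, h3⟩
  · intro x y
    beta_reduce
    rw [h1, Finset.mul_sum]
    refine Finset.sum_congr rfl fun i _ => ?_
    ring
  · intro x
    refine le_trans (Finset.sum_le_sum fun i _ => ?_) (h2 x)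
    rw [norm_mul]
    have h0 := norm_nonneg (u x i)
    have h4 : ‖c‖ * ‖u x i‖ ≤ ‖u x i‖ := by
      calc ‖c‖ * ‖u x i‖ ≤ 1 * ‖u x i‖ := mul_le_mul_of_nonneg_right hc h0
        _ = ‖u x i‖ := one_mul _
    exact pow_le_pow_left₀ (mul_nonneg (norm_nonneg c) h0) h4 2

/-- Conjugate `u` and `w`. -/
theorem G2.conj {X Y : Type} {A : X → Y → ℂ} {g : ℝ} (hA : G2 A g) : G2 (fun x y => starRingEnd ℂ (A x y)) g := by
  obtain ⟨ι, hι, u, w, h1, h2, h3⟩ := hA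
  refine ⟨ι, hι, fun x k => starRingEnd ℂ (u x k), fun y k => starRingEnd ℂ (w y k), ?_, ?_, ?_⟩
  · intro x y
    beta_reduce
    rw [h1, map_sum]
    refine Finset.sum_congr rfl fun i _ => ?_
    rw [map_mul]
  · intro x
    simp only [RCLike.norm_conj]
    exact h2 x
  · intro y
    simp only [RCLike.norm_conj]
    exact h3 y

/-- Exchange `u` and `w`. -/
theorem G2.swap {X Y : Type} {A : X → Y → ℂ} {g : ℝ} (hA : G2 A g) : G2 (fun y x => A x y) g := by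
  obtain ⟨ι, hι, u, w, h1, h2, h3⟩ := hA
  refine ⟨ι, hι, w, u, ?_, h3, h2⟩
  intro y x
  beta_reduce
  rw [h1]
  refine Finset.sum_congr rfl fun i _ => ?_
  ring

/-- `g ≥ 0` if there is an input. -/
theorem G2.nonneg {X Y : Type} [Nonempty X] {A : X → Y → ℂ} {g : ℝ} (hA : G2 A g) : 0 ≤ g := by
  obtain ⟨ι, hι, u, w, h1, h2, h3⟩ := hA
  obtain ⟨x⟩ := (inferInstance : Nonempty X)
  exact (Finset.sum_nonneg fun _ _ => sq_nonneg _).trans (h2 x)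

/-- `A` approximates `Φ` within `ε`, and `γ₂(A) ≤ g`. -/
def Apx {X Y : Type} (Φ : X → Y → ℂ) (ε g : ℝ) : Prop :=
  ∃ A : X → Y → ℂ, G2 A g ∧ ∀ x y, ‖A x y - Φ x y‖ ≤ ε

theorem Apx.pull {X Y X' Y' : Type} {Φ : X → Y → ℂ} {ε g : ℝ} (h : Apx Φ ε g) (α : X' → X) (β : Y' → Y) :
    Apx (fun x y => Φ (α x) (β y)) ε g := by
  obtain ⟨A, h1, h2⟩ := h
  exact ⟨fun x y => A (α x) (β y), h1.pull α β, fun x y => h2 _ _⟩

/-- `γ₂(conj A) ≤ g` and `|conj A - conj Φ| = |A - Φ|`. -/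
theorem Apx.conj {X Y : Type} {Φ : X → Y → ℂ} {ε g : ℝ} (h : Apx Φ ε g) :
    Apx (fun x y => starRingEnd ℂ (Φ x y)) ε g := by
  obtain ⟨A, h1, h2⟩ := h
  refine ⟨fun x y => starRingEnd ℂ (A x y), h1.conj, fun x y => ?_⟩
  beta_reduce
  rw [← map_sub, RCLike.norm_conj]
  exact h2 x y

/-- Product with an exactly factorised unimodular matrix: the error does not change. -/
theorem Apx.mul_exact {X Y : Type} {Φ Ψ : X → Y → ℂ} {ε g h : ℝ} (hΦ : Apx Φ ε g) (hΨ : G2 Ψ h)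
    (h1 : ∀ x y, ‖Ψ x y‖ = 1) : Apx (fun x y => Φ x y * Ψ x y) ε (g * h) := by
  obtain ⟨A, hA1, hA2⟩ := hΦ
  refine ⟨fun x y => A x y * Ψ x y, hA1.mul hΨ, fun x y => ?_⟩
  beta_reduce
  rw [← sub_mul, norm_mul, h1, mul_one]
  exact hA2 x y

/-- Product of unimodular approximable matrices:
`‖A B - Φ Ψ‖ = ‖(A - Φ)(B - Ψ) + (A - Φ) Ψ + Φ (B - Ψ)‖ ≤ ε δ + ε + δ = (1 + ε)(1 + δ) - 1`. -/
theorem Apx.mul {X Y : Type} {Φ Ψ : X → Y → ℂ} {ε δ g h : ℝ} (hΦ : Apx Φ ε g) (hΨ : Apx Ψ δ h) (hε : 0 ≤ ε)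
    (h1 : ∀ x y, ‖Φ x y‖ = 1) (h2 : ∀ x y, ‖Ψ x y‖ = 1) :
    Apx (fun x y => Φ x y * Ψ x y) ((1 + ε) * (1 + δ) - 1) (g * h) := by
  obtain ⟨A, hA1, hA2⟩ := hΦ
  obtain ⟨B, hB1, hB2⟩ := hΨ
  refine ⟨fun x y => A x y * B x y, hA1.mul hB1, fun x y => ?_⟩
  beta_reduce
  have e : A x y * B x y - Φ x y * Ψ x y =
      (A x y - Φ x y) * (B x y - Ψ x y) + (A x y - Φ x y) * Ψ x y + Φ x y * (B x y - Ψ x y) := by ring
  rw [e]
  have hδ : 0 ≤ δ := (norm_nonneg _).trans (hB2 x y)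
  calc ‖(A x y - Φ x y) * (B x y - Ψ x y) + (A x y - Φ x y) * Ψ x y + Φ x y * (B x y - Ψ x y)‖
      ≤ ‖(A x y - Φ x y) * (B x y - Ψ x y)‖ + ‖(A x y - Φ x y) * Ψ x y‖ + ‖Φ x y * (B x y - Ψ x y)‖ :=
        norm_add₃_le
    _ = ‖A x y - Φ x y‖ * ‖B x y - Ψ x y‖ + ‖A x y - Φ x y‖ + ‖B x y - Ψ x y‖ := by
        rw [norm_mul, norm_mul, norm_mul, h1, h2, mul_one, one_mul]
    _ ≤ ε * δ + ε + δ := by
        have h3 := mul_le_mul (hA2 x y) (hB2 x y) (norm_nonneg _) hε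
        have h4 := hA2 x y
        have h5 := hB2 x y
        linarith
    _ = (1 + ε) * (1 + δ) - 1 := by ring

/-- A product of `N` unimodular matrices each of which is approximable within `ε` by a matrix of norm `g`. Induction over
the finite set with `Apx.mul` (the empty product is `G2.one`). -/
theorem Apx.prod {X Y C : Type} (s : Finset C) (Φ : C → X → Y → ℂ) {ε g : ℝ} (hε : 0 ≤ ε)
    (h : ∀ c ∈ s, Apx (Φ c) ε g) (h1 : ∀ c ∈ s, ∀ x y, ‖Φ c x y‖ = 1) :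
    Apx (fun x y => ∏ c ∈ s, Φ c x y) ((1 + ε) ^ s.card - 1) (g ^ s.card) := by
  classical
  induction s using Finset.induction_on with
  | empty =>
    refine ⟨fun _ _ => 1, ?_, fun x y => ?_⟩
    · rw [Finset.card_empty, pow_zero]
      exact G2.one
    · beta_reduce
      rw [Finset.prod_empty, Finset.card_empty, pow_zero, sub_self, sub_self, norm_zero]
  | insert c s hc ih =>
    have ih' := ih (fun d hd => h d (Finset.mem_insert_of_mem hd)) (fun d hd => h1 d (Finset.mem_insert_of_mem hd))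
    have hu : ∀ x y, ‖∏ d ∈ s, Φ d x y‖ = 1 := by
      intro x y
      rw [norm_prod]
      exact Finset.prod_eq_one fun d hd => h1 d (Finset.mem_insert_of_mem hd) x y
    have h2 := Apx.mul (h c (Finset.mem_insert_self c s)) ih' hε (h1 c (Finset.mem_insert_self c s)) hu
    obtain ⟨A, hA1, hA2⟩ := h2
    refine ⟨A, ?_, fun x y => ?_⟩
    · rw [Finset.card_insert_of_notMem hc, pow_succ']
      exact hA1
    · beta_reduce
      rw [Finset.card_insert_of_notMem hc, pow_succ', Finset.prod_insert hc]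
      refine (hA2 x y).trans (le_of_eq ?_)
      ring

end Pool.Agent.H.MP_dd1c2e_lc
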