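import Mathlib
import Pool.Agent.H.MP_dd1c2e_lc.G2

/-!
# Amplification
-/

namespace Pool.Agent.H.MP_dd1c2e_lc

open Finset

/-- The amplifier `h(t) = 3t² - 2t³`. -/
noncomputable def hh (t : ℝ) : ℝ := 3 * t ^ 2 - 2 * t ^ 3

/-- `h` maps `[0, 1]` to `[0, 1]`. (`h(t) = t²(3 - 2t) ≥ 0`, `1 - h(t) = (1-t)²(1+2t) ≥ 0`.) -/
theorem hh_mem {t : ℝ} (h0 : 0 ≤ t) (h1 : t ≤ 1) : 0 ≤ hh t ∧ hh t ≤ 1 := by
  constructor
  · have e : hh t = t ^ 2 * (3 - 2 * t) := by unfold hh; ring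
    rw [e]
    exact mul_nonneg (sq_nonneg t) (by linarith)
  · have e : 1 - hh t = (1 - t) ^ 2 * (1 + 2 * t) := by unfold hh; ring
    have h2 : 0 ≤ (1 - t) ^ 2 * (1 + 2 * t) := mul_nonneg (sq_nonneg _) (by linarith)
    linarith

/-- `h(t) ≤ (7/9) t` for `0 ≤ t ≤ 1/3`. (`h(t) = t (3t - 2t²)` and `7/9 - 3t + 2t² = 2 (1/3 - t)(7/6 - t) ≥ 0`.) -/
theorem hh_small {t : ℝ} (h0 : 0 ≤ t) (h1 : t ≤ 1 / 3) : hh t ≤ 7 / 9 * t := by
  have e : 7 / 9 * t - hh t = t * (2 * ((1 / 3 - t) * (7 / 6 - t))) := by unfold hh; ring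
  have h2 : 0 ≤ t * (2 * ((1 / 3 - t) * (7 / 6 - t))) :=
    mul_nonneg h0 (mul_nonneg (by norm_num) (mul_nonneg (by linarith) (by linarith)))
  linarith

/-- `1 - h(t) = h(1 - t)`. -/
theorem hh_symm (t : ℝ) : 1 - hh t = hh (1 - t) := by
  unfold hh
  ring

/-- `γ₂(h(P)) ≤ 5 g³` for `g ≥ 1`: `h(P) = P·P + P·P + P·P + (-1)(P·P·P + P·P·P)`, norms `3 g² + 2 g³ ≤ 5 g³`. -/
theorem hh_G2 {X Y : Type} {P : X → Y → ℝ} {g : ℝ} (hg : 1 ≤ g) (h : G2 (fun x y => (P x y : ℂ)) g) :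
    G2 (fun x y => ((hh (P x y) : ℝ) : ℂ)) (5 * g ^ 3) := by
  have h2 := h.mul h
  have h3 := h2.mul h
  have h4 := ((h2.add h2).add h2).add ((h3.add h3).smul (-1) (by simp))
  have e : (fun x y => ((hh (P x y) : ℝ) : ℂ)) = fun x y =>
      (P x y : ℂ) * (P x y : ℂ) + (P x y : ℂ) * (P x y : ℂ) + (P x y : ℂ) * (P x y : ℂ) +
        (-1) * ((P x y : ℂ) * (P x y : ℂ) * (P x y : ℂ) +
          (P x y : ℂ) * (P x y : ℂ) * (P x y : ℂ)) := by
    funext x y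
    unfold hh
    push_cast
    ring
  rw [e]
  refine h4.mono ?_
  have h5 : g * g ≤ g * g * g := by nlinarith [mul_nonneg (zero_le_one.trans hg) (zero_le_one.trans hg)]
  have h6 : 5 * g ^ 3 = 3 * (g * g * g) + 2 * (g * g * g) := by ring
  rw [h6]
  linarith

/-- Iterating `k` times: a matrix `P` with entries in `[0,1]` and `γ₂(P) ≤ g`, `g ≥ 1`, that separates the values of `F`
by the thresholds `1/3`, `2/3` gives a matrix `Q` with `|Q - F| ≤ (7/9)^k / 3` and `γ₂(Q) ≤ 5^(3^k) g^(3^k)`.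
Induction on `k` with the statement: entries in `[0,1]`, `Q ≤ (7/9)^k/3` where `F` is false, `1 - Q ≤ (7/9)^k/3` where `F`
is true (`(7/9)^k/3 ≤ 1/3`, `hh_small`, `hh_symm`), `γ₂(Q) ≤ 5^((3^k-1)/2) g^(3^k)`; for simplicity prove
`γ₂ ≤ 5^(a k) g^(3^k)` with `a 0 = 0`, `a (k+1) = 3 a k + 1`, `a k ≤ 3^k`. -/
theorem amplify {X Y : Type} {F : X → Y → Bool} {P : X → Y → ℝ} {g : ℝ} (hg : 1 ≤ g)
    (h : G2 (fun x y => (P x y : ℂ)) g) (h01 : ∀ x y, 0 ≤ P x y ∧ P x y ≤ 1)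
    (h1 : ∀ x y, F x y = true → 2 / 3 ≤ P x y) (h0 : ∀ x y, F x y = false → P x y ≤ 1 / 3) (k : ℕ) :
    ∃ Q : X → Y → ℝ, G2 (fun x y => (Q x y : ℂ)) (5 ^ (3 ^ k) * g ^ (3 ^ k)) ∧
      ∀ x y, |Q x y - (if F x y then 1 else 0)| ≤ (7 / 9) ^ k / 3 := by
  have key : ∀ k : ℕ, ∃ (Q : X → Y → ℝ) (a : ℕ), 2 * a + 1 = 3 ^ k ∧
      G2 (fun x y => (Q x y : ℂ)) (5 ^ a * g ^ (3 ^ k)) ∧ (∀ x y, 0 ≤ Q x y ∧ Q x y ≤ 1) ∧
      (∀ x y, F x y = true → 1 - Q x y ≤ (7 / 9) ^ k / 3) ∧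
      (∀ x y, F x y = false → Q x y ≤ (7 / 9) ^ k / 3) := by
    intro k
    induction k with
    | zero =>
      refine ⟨P, 0, by norm_num, ?_, h01, ?_, ?_⟩
      · refine h.mono ?_
        simp
      · intro x y hF
        have := h1 x y hF
        norm_num
        linarith
      · intro x y hF
        have := h0 x y hF
        norm_num
        linarith
    | succ k ih =>
      obtain ⟨Q, a, ha, hQ, hQ01, hQ1, hQ0⟩ := ih
      have hpow : ((7 : ℝ) / 9) ^ k ≤ 1 := pow_le_one₀ (by norm_num) (by norm_num)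
      have hge : 1 ≤ (5 : ℝ) ^ a * g ^ (3 ^ k) :=
        one_le_mul_of_one_le_of_one_le (one_le_pow₀ (by norm_num)) (one_le_pow₀ hg)
      refine ⟨fun x y => hh (Q x y), 3 * a + 1, ?_, ?_, ?_, ?_, ?_⟩
      · rw [pow_succ]
        omega
      · refine (hh_G2 hge hQ).mono (le_of_eq ?_)
        rw [mul_pow, ← pow_mul, ← pow_mul, pow_succ 3 k, pow_succ 5 (3 * a), mul_comm a 3]
        ring
      · intro x y
        exact hh_mem (hQ01 x y).1 (hQ01 x y).2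
      · intro x y hF
        have h2 := hQ1 x y hF
        rw [hh_symm]
        have h3 := hh_small (t := 1 - Q x y) (by linarith [(hQ01 x y).2]) (by linarith)
        rw [pow_succ]
        linarith
      · intro x y hF
        have h2 := hQ0 x y hF
        have h3 := hh_small (t := Q x y) (hQ01 x y).1 (by linarith)
        rw [pow_succ]
        linarith
  obtain ⟨Q, a, ha, hQ, hQ01, hQ1, hQ0⟩ := key k
  refine ⟨Q, hQ.mono ?_, ?_⟩
  · refine mul_le_mul_of_nonneg_right ?_ (pow_nonneg (zero_le_one.trans hg) _)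
    exact pow_le_pow_right₀ (by norm_num) (by omega)
  · intro x y
    cases hF : F x y with
    | false =>
      have h2 := hQ0 x y hF
      have h3 := (hQ01 x y).1
      rw [if_neg (by simp), sub_zero, abs_of_nonneg h3]
      exact h2
    | true =>
      have h2 := hQ1 x y hF
      have h3 := (hQ01 x y).2
      rw [if_pos rfl, abs_sub_comm, abs_of_nonneg (by linarith)]
      exact h2

/-- From an approximation of the `0/1` matrix to an approximation of a two-valued unimodular matrix: if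
`Φ x y = if F x y then z else 1` with `‖z‖ = 1`, then `A = 1 + (z - 1) Q = 1 + z Q + (-1) Q` has `γ₂(A) ≤ 1 + 2 g ≤ 3 g` and
`‖A - Φ‖ = ‖z - 1‖ |Q - F| ≤ 2 δ`. -/
theorem apx_of_bool {X Y : Type} {F : X → Y → Bool} {Q : X → Y → ℝ} {g δ : ℝ} (hg : 1 ≤ g)
    (h : G2 (fun x y => (Q x y : ℂ)) g) (hQ : ∀ x y, |Q x y - (if F x y then 1 else 0)| ≤ δ) (z : ℂ) (hz : ‖z‖ = 1) :
    Apx (fun x y => if F x y then z else 1) (2 * δ) (3 * g) := by
  have hz2 : ‖z - 1‖ ≤ 2 := by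
    have := norm_sub_le z 1
    rw [hz, norm_one] at this
    linarith
  have hA := (G2.one (X := X) (Y := Y)).add ((h.smul z hz.le).add (h.smul (-1) (by simp)))
  refine ⟨_, hA.mono (by linarith), ?_⟩
  intro x y
  have h2 := hQ x y
  change ‖(1 : ℂ) + (z * (Q x y : ℂ) + (-1) * (Q x y : ℂ)) -
    (if F x y = true then z else 1)‖ ≤ 2 * δ
  cases hF : F x y with
  | false =>
    rw [hF, if_neg (by simp), sub_zero] at h2
    rw [if_neg (by simp)]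
    have e : (1 : ℂ) + (z * (Q x y : ℂ) + (-1) * (Q x y : ℂ)) - 1 = (z - 1) * (Q x y : ℂ) := by
      ring
    rw [e, norm_mul, Complex.norm_real, Real.norm_eq_abs]
    exact mul_le_mul hz2 h2 (abs_nonneg _) (by norm_num)
  | true =>
    rw [hF, if_pos rfl] at h2
    rw [if_pos rfl]
    have e : (1 : ℂ) + (z * (Q x y : ℂ) + (-1) * (Q x y : ℂ)) - z =
        (z - 1) * ((Q x y - 1 : ℝ) : ℂ) := by
      push_cast
      ring
    rw [e, norm_mul, Complex.norm_real, Real.norm_eq_abs]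
    exact mul_le_mul hz2 h2 (abs_nonneg _) (by norm_num)

/-- Summary: for every `ε > 0` there is a constant `m` such that for every `z` with `‖z‖ = 1` and every `F` and `P` as in
`amplify` with `g = 4^q`: the matrix `if F x y then z else 1` is approximable within `ε` by a matrix with
`γ₂ ≤ 2^(m (q+1))`. Proof: `k` with `2 (7/9)^k/3 ≤ ε`; `3 · 5^(3^k) · 4^(q 3^k) ≤ 2^(m (q+1))` with `m = 2 + 3 · 3^k`
(`3 ≤ 4 = 2^2`, `5 ≤ 2^3`, `4 = 2^2`). -/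
theorem exists_apx (ε : ℝ) (hε : 0 < ε) : ∃ m : ℕ, ∀ (X Y : Type) (F : X → Y → Bool) (q : ℕ) (P : X → Y → ℝ),
    G2 (fun x y => (P x y : ℂ)) ((4 : ℝ) ^ q) → (∀ x y, 0 ≤ P x y ∧ P x y ≤ 1) →
    (∀ x y, F x y = true → 2 / 3 ≤ P x y) → (∀ x y, F x y = false → P x y ≤ 1 / 3) →
    ∀ z : ℂ, ‖z‖ = 1 → Apx (fun x y => if F x y then z else 1) ε ((2 : ℝ) ^ (m * (q + 1))) := by
  obtain ⟨k, hk⟩ := exists_pow_lt_of_lt_one hε (show (7 / 9 : ℝ) < 1 by norm_num)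
  refine ⟨2 + 3 * 3 ^ k, ?_⟩
  intro X Y F q P hG h01 h1 h0 z hz
  have h4 : (1 : ℝ) ≤ 4 ^ q := one_le_pow₀ (by norm_num)
  obtain ⟨Q, hQ, hQF⟩ := amplify h4 hG h01 h1 h0 k
  have hge : (1 : ℝ) ≤ 5 ^ (3 ^ k) * (4 ^ q) ^ (3 ^ k) :=
    one_le_mul_of_one_le_of_one_le (one_le_pow₀ (by norm_num)) (one_le_pow₀ h4)
  obtain ⟨A, hA1, hA2⟩ := apx_of_bool hge hQ hQF z hz
  refine ⟨A, hA1.mono ?_, ?_⟩
  · have e1 : (5 : ℝ) ^ (3 ^ k) ≤ 2 ^ (3 * 3 ^ k) := by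
      rw [pow_mul]
      exact pow_le_pow_left₀ (by norm_num) (by norm_num) _
    have e2 : ((4 : ℝ) ^ q) ^ (3 ^ k) = 2 ^ (2 * q * 3 ^ k) := by
      rw [pow_mul, pow_mul]
      norm_num
    rw [e2]
    calc (3 : ℝ) * (5 ^ 3 ^ k * 2 ^ (2 * q * 3 ^ k))
        ≤ 2 ^ 2 * (2 ^ (3 * 3 ^ k) * 2 ^ (2 * q * 3 ^ k)) := by
          refine mul_le_mul (by norm_num) ?_ (by positivity) (by norm_num)
          exact mul_le_mul_of_nonneg_right e1 (by positivity)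
      _ = 2 ^ (2 + (3 * 3 ^ k + 2 * q * 3 ^ k)) := by rw [← pow_add, ← pow_add]
      _ ≤ 2 ^ ((2 + 3 * 3 ^ k) * (q + 1)) := by
          refine pow_le_pow_right₀ (by norm_num) ?_
          nlinarith [Nat.zero_le (q * 3 ^ k), Nat.zero_le q]
  · intro x y
    refine (hA2 x y).trans ?_
    have h5 : (0 : ℝ) ≤ (7 / 9) ^ k := by positivity
    linarith

end Pool.Agent.H.MP_dd1c2e_lc
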