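import Mathlib
import Pool.Agent.H.MP_dd1c2e_lc.G2

/-!
# Additive rows whose phase matrix is approximable are few
-/

namespace Pool.Agent.H.MP_dd1c2e_lc

open Finset

/-- The standard additive character `t ↦ exp(2πi t / p)` of `ZMod p`. -/
noncomputable def ep (p : ℕ) [Fact p.Prime] (t : ZMod p) : ℂ := ZMod.stdAddChar t

theorem ep_add (p : ℕ) [Fact p.Prime] (s t : ZMod p) : ep p (s + t) = ep p s * ep p t := by
  unfold ep
  exact AddChar.map_add_eq_mul _ s t

theorem ep_zero (p : ℕ) [Fact p.Prime] : ep p 0 = 1 := by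
  unfold ep
  exact AddChar.map_zero_eq_one _

theorem ep_norm (p : ℕ) [Fact p.Prime] (t : ZMod p) : ‖ep p t‖ = 1 := by
  unfold ep
  rw [ZMod.stdAddChar_apply]
  exact Circle.norm_coe _

theorem ep_neg (p : ℕ) [Fact p.Prime] (t : ZMod p) : ep p (-t) = starRingEnd ℂ (ep p t) := by
  have h1 : ep p (-t) * ep p t = 1 := by
    rw [← ep_add, neg_add_cancel, ep_zero]
  have h2 : starRingEnd ℂ (ep p t) * ep p t = 1 := by
    rw [← Complex.normSq_eq_conj_mul_self, Complex.normSq_eq_norm_sq, ep_norm]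
    norm_num
  have h3 : ep p t ≠ 0 := by
    intro h
    rw [h, mul_zero] at h1
    exact zero_ne_one h1
  exact mul_right_cancel₀ h3 (h1.trans h2.symm)

theorem ep_sum (p : ℕ) [Fact p.Prime] {C : Type} (s : Finset C) (f : C → ZMod p) :
    ep p (∑ c ∈ s, f c) = ∏ c ∈ s, ep p (f c) := by
  classical
  induction s using Finset.induction_on with
  | empty => simp [ep_zero]
  | insert a s ha ih =>
    rw [Finset.sum_insert ha, Finset.prod_insert ha, ep_add, ih]

/-- The character is injective (`ZMod.injective_stdAddChar` or similar). -/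
theorem ep_eq_one (p : ℕ) [Fact p.Prime] (t : ZMod p) (h : ep p t = 1) : t = 0 := by
  apply ZMod.injective_stdAddChar (N := p)
  have h0 := ep_zero p
  unfold ep at h h0
  rw [h, h0]

/-- Orthogonality: a nonzero additive `f : W → ZMod p` has `∑ w, ep (f w) = 0` (`w ↦ ep (f w)` is a nontrivial additive
character of `W`; or: choose `w0` with `f w0 ≠ 0`, translate by `w0`). -/
theorem sum_ep (p : ℕ) [Fact p.Prime] {W : Type} [AddCommGroup W] [Fintype W] (f : W → ZMod p)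
    (hf : ∀ x x', f (x + x') = f x + f x') (h0 : ∃ w, f w ≠ 0) : ∑ w, ep p (f w) = 0 := by
  obtain ⟨w0, hw0⟩ := h0
  have h1 : ∑ w, ep p (f (w + w0)) = ∑ w, ep p (f w) :=
    Fintype.sum_equiv (Equiv.addRight w0) _ _ (fun w => by simp)
  have h2 : ∑ w, ep p (f (w + w0)) = (∑ w, ep p (f w)) * ep p (f w0) := by
    rw [Finset.sum_mul]
    refine Finset.sum_congr rfl fun w _ => ?_
    rw [hf, ep_add]
  have h3 : (∑ w, ep p (f w)) * (ep p (f w0) - 1) = 0 := by
    rw [mul_sub, mul_one, ← h2, h1, sub_self]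
  rcases mul_eq_zero.mp h3 with h | h
  · exact h
  · exact absurd (ep_eq_one p _ (sub_eq_zero.mp h)) hw0

/-- The phases of distinct additive rows are orthogonal: `∑ w ‖∑ i, b i * ep (M i w)‖² = |W| ∑ i ‖b i‖²`. -/
theorem parseval (p : ℕ) [Fact p.Prime] {I W : Type} [Fintype I] [AddCommGroup W] [Fintype W] (M : I → W → ZMod p)
    (hM : ∀ i w w', M i (w + w') = M i w + M i w') (hinj : Function.Injective M) (b : I → ℂ) :
    ∑ w, ‖∑ i, b i * ep p (M i w)‖ ^ 2 = (Fintype.card W : ℝ) * ∑ i, ‖b i‖ ^ 2 := by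
  classical
  have key : ∀ i j : I, ∑ w, ep p (M i w) * starRingEnd ℂ (ep p (M j w)) =
      if i = j then (Fintype.card W : ℂ) else 0 := by
    intro i j
    have e : ∀ w, ep p (M i w) * starRingEnd ℂ (ep p (M j w)) = ep p (M i w - M j w) := by
      intro w
      rw [← ep_neg, ← ep_add, sub_eq_add_neg]
    rw [Finset.sum_congr rfl fun w _ => e w]
    split_ifs with hij
    · subst hij
      simp [ep_zero]
    · refine sum_ep p (fun w => M i w - M j w) ?_ ?_
      · intro x x'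
        rw [hM, hM]
        ring
      · by_contra hc
        push Not at hc
        exact hij (hinj (funext fun w => sub_eq_zero.mp (hc w)))
  have hC : ((∑ w, ‖∑ i, b i * ep p (M i w)‖ ^ 2 : ℝ) : ℂ) = (((Fintype.card W : ℝ) * ∑ i, ‖b i‖ ^ 2 : ℝ) : ℂ) := by
    push_cast
    have hn : ∀ z : ℂ, ((‖z‖ : ℂ)) ^ 2 = z * starRingEnd ℂ z := fun z => (Complex.mul_conj' z).symm
    simp only [hn]
    have h1 : ∀ w, (∑ i, b i * ep p (M i w)) * starRingEnd ℂ (∑ i, b i * ep p (M i w)) =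
        ∑ i, ∑ j, (b i * starRingEnd ℂ (b j)) * (ep p (M i w) * starRingEnd ℂ (ep p (M j w))) := by
      intro w
      rw [map_sum, Finset.sum_mul_sum]
      refine Finset.sum_congr rfl fun i _ => Finset.sum_congr rfl fun j _ => ?_
      rw [map_mul]
      ring
    rw [Finset.sum_congr rfl fun w _ => h1 w, Finset.sum_comm, Finset.mul_sum]
    refine Finset.sum_congr rfl fun i _ => ?_
    rw [Finset.sum_comm]
    have h2 : ∀ j, ∑ w, (b i * starRingEnd ℂ (b j)) * (ep p (M i w) * starRingEnd ℂ (ep p (M j w))) =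
        if i = j then (b i * starRingEnd ℂ (b j)) * (Fintype.card W : ℂ) else 0 := by
      intro j
      rw [← Finset.mul_sum, key]
      split_ifs <;> simp
    rw [Finset.sum_congr rfl fun j _ => h2 j, Finset.sum_ite_eq]
    simp only [Finset.mem_univ, if_true]
    ring
  exact_mod_cast hC

/-- Bessel's inequality: `∑ i ‖∑ w, g w * conj (ep (M i w))‖² ≤ |W| ∑ w ‖g w‖²`.
Proof: let `b i = ∑ w, g w * conj (ep (M i w))`. Then `∑ i ‖b i‖² = ∑ w, g w * conj (∑ i, b i * ep (M i w))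
≤ ‖g‖ (|W| ∑ ‖b i‖²)^(1/2)` by Cauchy-Schwarz and `parseval`. -/
theorem bessel (p : ℕ) [Fact p.Prime] {I W : Type} [Fintype I] [AddCommGroup W] [Fintype W] (M : I → W → ZMod p)
    (hM : ∀ i w w', M i (w + w') = M i w + M i w') (hinj : Function.Injective M) (g : W → ℂ) :
    ∑ i, ‖∑ w, g w * starRingEnd ℂ (ep p (M i w))‖ ^ 2 ≤ (Fintype.card W : ℝ) * ∑ w, ‖g w‖ ^ 2 := by
  classical
  set b : I → ℂ := fun i => ∑ w, g w * starRingEnd ℂ (ep p (M i w)) with hb
  set S : ℝ := ∑ i, ‖b i‖ ^ 2 with hS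
  set G : ℝ := ∑ w, ‖g w‖ ^ 2 with hG
  set T : W → ℂ := fun w => ∑ i, b i * ep p (M i w) with hT
  have hS0 : 0 ≤ S := Finset.sum_nonneg fun _ _ => sq_nonneg _
  have hG0 : 0 ≤ G := Finset.sum_nonneg fun _ _ => sq_nonneg _
  have hm0 : (0 : ℝ) ≤ (Fintype.card W : ℝ) := Nat.cast_nonneg _
  have hP : ∑ w, ‖T w‖ ^ 2 = (Fintype.card W : ℝ) * S := parseval p M hM hinj b
  have h1 : (S : ℂ) = ∑ w, g w * starRingEnd ℂ (T w) := by
    have hn : ∀ z : ℂ, ((‖z‖ : ℂ)) ^ 2 = z * starRingEnd ℂ z := fun z => (Complex.mul_conj' z).symm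
    rw [hS]
    push_cast
    simp only [hn]
    have e1 : ∀ w, g w * starRingEnd ℂ (T w) = ∑ i, g w * starRingEnd ℂ (ep p (M i w)) * starRingEnd ℂ (b i) := by
      intro w
      simp only [hT]
      rw [map_sum, Finset.mul_sum]
      refine Finset.sum_congr rfl fun i _ => ?_
      rw [map_mul]
      ring
    rw [Finset.sum_congr rfl fun w _ => e1 w, Finset.sum_comm]
    refine Finset.sum_congr rfl fun i _ => ?_
    rw [← Finset.sum_mul]
  have h2 : S ≤ ∑ w, ‖g w‖ * ‖T w‖ := by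
    have e : S = ‖(S : ℂ)‖ := by
      rw [Complex.norm_real, Real.norm_of_nonneg hS0]
    rw [e, h1]
    refine (norm_sum_le _ _).trans (le_of_eq ?_)
    refine Finset.sum_congr rfl fun w _ => ?_
    rw [norm_mul, RCLike.norm_conj]
  have h3 : (∑ w, ‖g w‖ * ‖T w‖) ^ 2 ≤ G * ((Fintype.card W : ℝ) * S) := by
    rw [← hP]
    exact Finset.sum_mul_sq_le_sq_mul_sq _ _ _
  have h4 : S ^ 2 ≤ G * ((Fintype.card W : ℝ) * S) := (pow_le_pow_left₀ hS0 h2 2).trans h3
  rcases hS0.eq_or_lt with h | h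
  · rw [← h]
    exact mul_nonneg hm0 hG0
  · have h5 : S * S ≤ ((Fintype.card W : ℝ) * G) * S := by
      calc S * S = S ^ 2 := by ring
        _ ≤ G * ((Fintype.card W : ℝ) * S) := h4
        _ = ((Fintype.card W : ℝ) * G) * S := by ring
    exact le_of_mul_le_mul_right h5 h

/-- If the phase matrix of `N` distinct additive rows is approximable within `1/2` by a matrix with `γ₂ ≤ s`, then
`N ≤ 4 s²`.

Proof. Let `A i w = ∑ k, u i k * v w k`, `‖A - ep M‖ ≤ 1/2`. Then `Re (A conj(ep M)) ≥ 1/2` everywhere, so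
`N |W| / 2 ≤ ‖∑ i w, A i w conj (ep (M i w))‖ = ‖∑ k ∑ i, u i k * ∑ w, v w k * conj (ep (M i w))‖`
`≤ ∑ k (∑ i ‖u i k‖²)^(1/2) (|W| ∑ w ‖v w k‖²)^(1/2) ≤ (∑ k i ‖u i k‖²)^(1/2) (|W| ∑ k w ‖v w k‖²)^(1/2)`
`≤ (N s)^(1/2) (|W|² s)^(1/2) = s N^(1/2) |W|` (Cauchy-Schwarz twice, `bessel`). So `N ≤ 4 s²`. -/
theorem count_inj (p : ℕ) [Fact p.Prime] {I W : Type} [Fintype I] [AddCommGroup W] [Fintype W] (M : I → W → ZMod p)
    (hM : ∀ i w w', M i (w + w') = M i w + M i w') (hinj : Function.Injective M) (s : ℝ)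
    (hs : Apx (fun i w => ep p (M i w)) (1 / 2) s) : (Fintype.card I : ℝ) ≤ 4 * s ^ 2 := by
  classical
  obtain ⟨A, ⟨ι, hι, u, v, h1, h2, h3⟩, h4⟩ := hs
  have hW : 0 < Fintype.card W := Fintype.card_pos
  have hm : (0 : ℝ) < (Fintype.card W : ℝ) := by exact_mod_cast hW
  have hs0 : 0 ≤ s := (Finset.sum_nonneg fun _ _ => sq_nonneg _).trans (h3 0)
  have hN0 : (0 : ℝ) ≤ (Fintype.card I : ℝ) := Nat.cast_nonneg _
  set B : I → ι → ℂ := fun i k => ∑ w, v w k * starRingEnd ℂ (ep p (M i w)) with hB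
  -- the correlation
  have a1 : ∀ i w, (1 / 2 : ℝ) ≤ (A i w * starRingEnd ℂ (ep p (M i w))).re := by
    intro i w
    have e1 : A i w * starRingEnd ℂ (ep p (M i w)) =
        1 + (A i w - ep p (M i w)) * starRingEnd ℂ (ep p (M i w)) := by
      have : ep p (M i w) * starRingEnd ℂ (ep p (M i w)) = 1 := by
        rw [Complex.mul_conj, Complex.normSq_eq_norm_sq, ep_norm]
        norm_num
      rw [sub_mul, this]
      ring
    rw [e1, Complex.add_re, Complex.one_re]
    have e2 : ‖(A i w - ep p (M i w)) * starRingEnd ℂ (ep p (M i w))‖ ≤ 1 / 2 := by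
      rw [norm_mul, RCLike.norm_conj, ep_norm, mul_one]
      exact h4 i w
    have e3 := (abs_le.mp ((Complex.abs_re_le_norm _).trans e2)).1
    linarith
  have a2 : (Fintype.card I : ℝ) * (Fintype.card W : ℝ) / 2 ≤
      ‖∑ i, ∑ w, A i w * starRingEnd ℂ (ep p (M i w))‖ := by
    refine le_trans ?_ ((le_abs_self _).trans (Complex.abs_re_le_norm _))
    rw [Complex.re_sum]
    simp only [Complex.re_sum]
    have : (Fintype.card I : ℝ) * (Fintype.card W : ℝ) / 2 = ∑ _i : I, ∑ _w : W, (1 / 2 : ℝ) := by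
      simp only [Finset.sum_const, Finset.card_univ, nsmul_eq_mul]
      ring
    rw [this]
    exact Finset.sum_le_sum fun i _ => Finset.sum_le_sum fun w _ => a1 i w
  have a3 : ∑ i, ∑ w, A i w * starRingEnd ℂ (ep p (M i w)) = ∑ i, ∑ k, u i k * B i k := by
    refine Finset.sum_congr rfl fun i _ => ?_
    simp only [hB, Finset.mul_sum]
    rw [Finset.sum_comm]
    refine Finset.sum_congr rfl fun w _ => ?_
    rw [h1, Finset.sum_mul]
    refine Finset.sum_congr rfl fun k _ => ?_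
    ring
  have a4 : ‖∑ i, ∑ w, A i w * starRingEnd ℂ (ep p (M i w))‖ ≤ ∑ q : I × ι, ‖u q.1 q.2‖ * ‖B q.1 q.2‖ := by
    rw [a3, Fintype.sum_prod_type]
    refine (norm_sum_le _ _).trans (Finset.sum_le_sum fun i _ => ?_)
    refine (norm_sum_le _ _).trans (Finset.sum_le_sum fun k _ => ?_)
    rw [norm_mul]
  have a5 : (∑ q : I × ι, ‖u q.1 q.2‖ * ‖B q.1 q.2‖) ^ 2 ≤
      (∑ q : I × ι, ‖u q.1 q.2‖ ^ 2) * ∑ q : I × ι, ‖B q.1 q.2‖ ^ 2 :=
    Finset.sum_mul_sq_le_sq_mul_sq _ _ _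
  have a6 : ∑ q : I × ι, ‖u q.1 q.2‖ ^ 2 ≤ (Fintype.card I : ℝ) * s := by
    rw [Fintype.sum_prod_type]
    calc ∑ i, ∑ k, ‖u i k‖ ^ 2 ≤ ∑ _i : I, s := Finset.sum_le_sum fun i _ => h2 i
      _ = (Fintype.card I : ℝ) * s := by
        simp only [Finset.sum_const, Finset.card_univ, nsmul_eq_mul]
  have a7 : ∑ q : I × ι, ‖B q.1 q.2‖ ^ 2 ≤ (Fintype.card W : ℝ) * ((Fintype.card W : ℝ) * s) := by
    rw [Fintype.sum_prod_type, Finset.sum_comm]
    calc ∑ k, ∑ i, ‖B i k‖ ^ 2 ≤ ∑ k, (Fintype.card W : ℝ) * ∑ w, ‖v w k‖ ^ 2 :=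
          Finset.sum_le_sum fun k _ => bessel p M hM hinj (fun w => v w k)
      _ = (Fintype.card W : ℝ) * ∑ w, ∑ k, ‖v w k‖ ^ 2 := by
        rw [← Finset.mul_sum, Finset.sum_comm]
      _ ≤ (Fintype.card W : ℝ) * ((Fintype.card W : ℝ) * s) := by
        refine mul_le_mul_of_nonneg_left ?_ hm.le
        calc ∑ w, ∑ k, ‖v w k‖ ^ 2 ≤ ∑ _w : W, s := Finset.sum_le_sum fun w _ => h3 w
          _ = (Fintype.card W : ℝ) * s := by
            simp only [Finset.sum_const, Finset.card_univ, nsmul_eq_mul]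
  have a8 : ((Fintype.card I : ℝ) * (Fintype.card W : ℝ) / 2) ^ 2 ≤
      ((Fintype.card I : ℝ) * s) * ((Fintype.card W : ℝ) * ((Fintype.card W : ℝ) * s)) := by
    have b1 : (0 : ℝ) ≤ (Fintype.card I : ℝ) * (Fintype.card W : ℝ) / 2 := by positivity
    refine (pow_le_pow_left₀ b1 (a2.trans a4) 2).trans (a5.trans ?_)
    exact mul_le_mul a6 a7 (Finset.sum_nonneg fun _ _ => sq_nonneg _) (mul_nonneg hN0 hs0)
  rcases hN0.eq_or_lt with h | h
  · rw [← h]
    positivity
  · have hc : 0 < (Fintype.card I : ℝ) * (Fintype.card W : ℝ) ^ 2 := by positivity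
    refine le_of_mul_le_mul_right ?_ hc
    nlinarith [a8]

/-- The same for a family that may have equal rows, with `s = 2^L`: at most `2^(2 L + 2)` distinct rows. Apply `count_inj`
to the finite type `Set.range M` with a section (`Apx.pull`). -/
theorem count_of_apx (p : ℕ) [Fact p.Prime] {X W : Type} [Finite X] [AddCommGroup W] [Fintype W] (M : X → W → ZMod p)
    (hM : ∀ x w w', M x (w + w') = M x w + M x w') (L : ℕ)
    (hs : Apx (fun x w => ep p (M x w)) (1 / 2) ((2 : ℝ) ^ L)) : (Set.range M).ncard ≤ 2 ^ (2 * L + 2) := by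
  classical
  haveI : Finite (Set.range M) := Set.finite_range M |>.to_subtype
  haveI : Fintype (Set.range M) := Fintype.ofFinite _
  let σ : Set.range M → X := fun y => y.2.choose
  have hσ : ∀ y : Set.range M, M (σ y) = y.1 := fun y => y.2.choose_spec
  have h := count_inj p (I := Set.range M) (fun i => M (σ i)) (fun i w w' => hM _ w w')
    (by
      intro i j hij
      have hij' : M (σ i) = M (σ j) := hij
      rw [hσ, hσ] at hij'
      exact Subtype.ext hij') ((2 : ℝ) ^ L) (hs.pull σ id)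
  have e : (Set.range M).ncard = Fintype.card (Set.range M) := by
    rw [← Nat.card_coe_set_eq, Nat.card_eq_fintype_card]
  rw [e]
  have h' : (Fintype.card (Set.range M) : ℝ) ≤ ((2 ^ (2 * L + 2) : ℕ) : ℝ) := by
    refine h.trans (le_of_eq ?_)
    push_cast
    ring
  exact_mod_cast h'

end Pool.Agent.H.MP_dd1c2e_lc
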