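import Mathlib
import Pool.Agent.H.MP_dd1c2e_lc.Defs

/-!
# Block derivatives of a polynomial on the cube
-/

namespace Pool.Agent.H.MP_dd1c2e_lc

open Finset

/-- The monomial `∏ i ∈ I, y i` of a Boolean vector. -/
def mon (K : Type) [Field K] {n : ℕ} (I : Finset (Fin n)) (y : Fin n → Bool) : K := if ∀ i ∈ I, y i = true then 1 else 0

/-- The polynomial with coefficients `c J`. -/
def P1 {K : Type} [Field K] {n : ℕ} (c : Finset (Fin n) → K) (y : Fin n → Bool) : K := ∑ J, c J * mon K J y

/-- `I` has exactly one element of each of the `a` colours of `χ`. -/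
def Rainbow {n a : ℕ} (χ : Fin n → Fin a) (I : Finset (Fin n)) : Prop := I.card = a ∧ I.image χ = univ

instance {n a : ℕ} (χ : Fin n → Fin a) (I : Finset (Fin n)) : Decidable (Rainbow χ I) := by
  unfold Rainbow; infer_instance

/-- The Boolean vector obtained from `y : Fin a → (Fin n → ZMod p)`: the coordinate `i` with colour `k = χ i` is `true` if
`k ∈ S` and the coordinate `y k i ∈ {0, …, p-1}` is larger than the threshold `t k`. -/
def cutv {p n a : ℕ} (χ : Fin n → Fin a) (t : Fin a → Fin (p - 1)) (S : Finset (Fin a))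
    (y : Fin a → Fin n → ZMod p) : Fin n → Bool :=
  fun i => decide (χ i ∈ S ∧ (t (χ i) : ℕ) < (y (χ i) i).val)

/-- The alternating sum of the monomial over all thresholds and all sets of colours. -/
def wt {p n a : ℕ} [Fact p.Prime] (χ : Fin n → Fin a) (I : Finset (Fin n)) (y : Fin a → Fin n → ZMod p) : ZMod p :=
  ∑ t : Fin a → Fin (p - 1), ∑ S : Finset (Fin a), (-1) ^ (Sᶜ).card * mon (ZMod p) I (cutv χ t S y)

theorem cut_mon_congr {K : Type} [Field K] {p n a : ℕ} {χ : Fin n → Fin a} {t : Fin a → Fin (p - 1)}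
    {S S' : Finset (Fin a)} {y : Fin a → Fin n → ZMod p} {I : Finset (Fin n)}
    (h : ∀ i ∈ I, (χ i ∈ S ↔ χ i ∈ S')) :
    mon K I (cutv χ t S y) = mon K I (cutv χ t S' y) := by
  unfold mon
  refine if_congr ?_ rfl rfl
  refine forall₂_congr fun i hi => ?_
  simp only [cutv, decide_eq_true_eq, h i hi]

/-- The monomial of `cutv`: `mon I (cutv χ t S y) = 1` iff `I.image χ ⊆ S` and `t (χ i) < y (χ i) i` for all `i ∈ I`. Hence
for fixed `t` the alternating sum over `S ⊇ I.image χ` vanishes unless `I.image χ = univ`. (Pair the sets `S` with and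
without a fixed colour outside `I.image χ`, for instance with `Finset.sum_involution`.) -/
theorem wt_zero {p n a : ℕ} [Fact p.Prime] (χ : Fin n → Fin a) (I : Finset (Fin n)) (y : Fin a → Fin n → ZMod p)
    (h : I.image χ ≠ univ) : wt χ I y = 0 := by
  obtain ⟨k0, hk0⟩ : ∃ k0, k0 ∉ I.image χ := by
    by_contra hcon
    push Not at hcon
    exact h (eq_univ_iff_forall.2 hcon)
  have hk : ∀ i ∈ I, χ i ≠ k0 := fun i hi he => hk0 (mem_image.2 ⟨i, hi, he⟩)
  refine sum_eq_zero fun t _ => ?_
  refine sum_involution (fun S _ => if k0 ∈ S then S.erase k0 else insert k0 S) ?_ ?_ ?_ ?_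
  · intro S _
    by_cases hS : k0 ∈ S
    · simp only [if_pos hS]
      have h1 : (S.erase k0)ᶜ.card = Sᶜ.card + 1 := by
        rw [compl_erase, card_insert_of_notMem (by simpa using hS)]
      have h2 : mon (ZMod p) I (cutv χ t (S.erase k0) y) = mon (ZMod p) I (cutv χ t S y) :=
        cut_mon_congr fun i hi => by simp [hk i hi]
      rw [h1, h2, pow_succ]
      ring
    · simp only [if_neg hS]
      have h1 : Sᶜ.card = (insert k0 S)ᶜ.card + 1 := by
        rw [compl_insert, card_erase_add_one (by simpa using hS)]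
      have h2 : mon (ZMod p) I (cutv χ t (insert k0 S) y) = mon (ZMod p) I (cutv χ t S y) :=
        cut_mon_congr fun i hi => by simp [hk i hi]
      rw [h1, h2, pow_succ]
      ring
  · intro S _ _
    by_cases hS : k0 ∈ S
    · simp only [if_pos hS]
      intro he
      rw [← he] at hS
      exact notMem_erase k0 S hS
    · simp only [if_neg hS]
      intro he
      exact hS (by rw [← he]; exact mem_insert_self k0 S)
  · intro S _
    exact mem_univ _
  · intro S _
    by_cases hS : k0 ∈ S
    · simp only [if_pos hS, notMem_erase, if_false]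
      exact insert_erase hS
    · simp only [if_neg hS, mem_insert_self, if_true]
      exact erase_insert hS

/-- If `I.image χ = univ`, only `S = univ` contributes. -/
theorem wt_full {p n a : ℕ} [Fact p.Prime] (χ : Fin n → Fin a) (I : Finset (Fin n)) (y : Fin a → Fin n → ZMod p)
    (h : I.image χ = univ) :
    wt χ I y = ∑ t : Fin a → Fin (p - 1), ∏ i ∈ I, if (t (χ i) : ℕ) < (y (χ i) i).val then (1 : ZMod p) else 0 := by
  refine sum_congr rfl fun t _ => ?_
  rw [sum_eq_single univ]
  · rw [compl_univ, card_empty, pow_zero, one_mul]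
    unfold mon
    by_cases hall : ∀ i ∈ I, cutv χ t univ y i = true
    · rw [if_pos hall]
      refine (prod_eq_one fun i hi => ?_).symm
      have h2 := hall i hi
      simp only [cutv, decide_eq_true_eq] at h2
      exact if_pos h2.2
    · rw [if_neg hall]
      push Not at hall
      obtain ⟨i, hi, h2⟩ := hall
      refine (prod_eq_zero hi (if_neg fun h3 => h2 ?_)).symm
      simp only [cutv, decide_eq_true_eq]
      exact ⟨mem_univ _, h3⟩
  · intro S _ hS
    obtain ⟨k, hk⟩ : ∃ k, k ∉ S := by
      by_contra hcon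
      push Not at hcon
      exact hS (eq_univ_iff_forall.2 hcon)
    have hk2 : k ∈ I.image χ := by rw [h]; exact mem_univ k
    obtain ⟨i, hi, hik⟩ := mem_image.1 hk2
    have h1 : mon (ZMod p) I (cutv χ t S y) = 0 := by
      unfold mon
      refine if_neg fun hall => ?_
      have h2 := hall i hi
      simp only [cutv, decide_eq_true_eq] at h2
      exact hk (hik ▸ h2.1)
    rw [h1, mul_zero]
  · intro hn
    exact absurd (mem_univ _) hn

theorem cut_inj {n a : ℕ} {χ : Fin n → Fin a} {I : Finset (Fin n)} (h : Rainbow χ I) :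
    Set.InjOn χ I := by
  rw [← card_image_iff, h.2, h.1, card_univ, Fintype.card_fin]

theorem cut_inv {n a : ℕ} {χ : Fin n → Fin a} {I : Finset (Fin n)} (h : Rainbow χ I) :
    ∃ r : Fin a → Fin n, (∀ k, r k ∈ I) ∧ (∀ k, χ (r k) = k) ∧ I = univ.image r := by
  have h1 : ∀ k, ∃ i ∈ I, χ i = k := by
    intro k
    have hk : k ∈ I.image χ := by rw [h.2]; exact mem_univ k
    exact mem_image.1 hk
  choose r hr1 hr2 using h1
  refine ⟨r, hr1, hr2, ?_⟩
  ext i
  constructor
  · intro hi
    exact mem_image.2 ⟨χ i, mem_univ _, cut_inj h (hr1 _) hi (hr2 _)⟩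
  · intro hi
    obtain ⟨k, _, rfl⟩ := mem_image.1 hi
    exact hr1 k

/-- For rainbow `I` this is the monomial: `χ` maps `I` bijectively to `Fin a`, so with `i k` the element of `I` of colour `k`
the sum over `t` is `∑ t ∏ k [t k < y k (i k)] = ∏ k ∑_{t < p - 1} [t < y k (i k)] = ∏ k y k (i k)` (the number of
`t ∈ {0, …, p-2}` with `t < v` is `v` for `v ≤ p - 1`). -/
theorem wt_rainbow {p n a : ℕ} [Fact p.Prime] (χ : Fin n → Fin a) (I : Finset (Fin n)) (y : Fin a → Fin n → ZMod p)
    (h : Rainbow χ I) : wt χ I y = ∏ i ∈ I, y (χ i) i := by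
  obtain ⟨r, hr1, hr2, hr3⟩ := cut_inv h
  have hp : 1 ≤ p := (Fact.out : p.Prime).one_lt.le
  rw [wt_full χ I y h.2]
  have h1 : ∀ F : Fin n → ZMod p, ∏ i ∈ I, F i = ∏ k, F (r k) := by
    intro F
    rw [hr3, prod_image fun k _ k' _ hkk => by
      have := congrArg χ hkk
      rwa [hr2, hr2] at this]
  simp only [h1, hr2]
  have h2 := Finset.prod_univ_sum (fun _ : Fin a => (univ : Finset (Fin (p - 1))))
    (fun k s => if (s : ℕ) < (y k (r k)).val then (1 : ZMod p) else 0)
  rw [Fintype.piFinset_univ] at h2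
  rw [← h2]
  refine prod_congr rfl fun k _ => ?_
  have hv : (y k (r k)).val ≤ p - 1 := by
    have := ZMod.val_lt (y k (r k))
    omega
  rw [Fin.sum_univ_eq_sum_range (fun s => if s < (y k (r k)).val then (1 : ZMod p) else 0) (p - 1),
    sum_boole]
  have h3 : (range (p - 1)).filter (fun s => s < (y k (r k)).val) = range (y k (r k)).val := by
    ext s
    simp only [mem_filter, mem_range]
    omega
  rw [h3, card_range, ZMod.natCast_zmod_val]

/-- The multilinear form of the rainbow part of the polynomial. -/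
def TX {K : Type} [Field K] {n a : ℕ} (c : Finset (Fin n) → K) (χ : Fin n → Fin a) (y : Fin a → Fin n → K) : K :=
  ∑ J, if Rainbow χ J then c J * ∏ j ∈ J, y (χ j) j else 0

/-- The block derivative formula. If the degree is at most `a`, then `TX` is an alternating sum of values of the polynomial
at Boolean vectors.

Proof. Insert the definition of `P1` and exchange the sums: the right side is `∑ J, c J * wt χ J y`. By `wt_zero` only `J`
with `J.image χ = univ` contribute; then `a ≤ J.card`; if `a < J.card` then `c J = 0`; otherwise `J` is rainbow, and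
`wt_rainbow`. -/
theorem TX_eq {p n a : ℕ} [Fact p.Prime] (c : Finset (Fin n) → ZMod p) (h : ∀ J, a < J.card → c J = 0)
    (χ : Fin n → Fin a) (y : Fin a → Fin n → ZMod p) :
    TX c χ y = ∑ t : Fin a → Fin (p - 1), ∑ S : Finset (Fin a), (-1) ^ (Sᶜ).card * P1 c (cutv χ t S y) := by
  have h1 : ∑ t : Fin a → Fin (p - 1), ∑ S : Finset (Fin a), (-1) ^ (Sᶜ).card * P1 c (cutv χ t S y) =
      ∑ J, c J * wt χ J y := by
    have e1 : ∀ J, c J * wt χ J y = ∑ t : Fin a → Fin (p - 1), ∑ S : Finset (Fin a),
        (-1) ^ (Sᶜ).card * (c J * mon (ZMod p) J (cutv χ t S y)) := by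
      intro J
      unfold wt
      rw [mul_sum]
      refine sum_congr rfl fun t _ => ?_
      rw [mul_sum]
      refine sum_congr rfl fun S _ => ?_
      ring
    simp only [e1]
    symm
    rw [sum_comm]
    refine sum_congr rfl fun t _ => ?_
    rw [sum_comm]
    refine sum_congr rfl fun S _ => ?_
    unfold P1
    rw [mul_sum]
  rw [h1]
  unfold TX
  refine sum_congr rfl fun J _ => ?_
  by_cases hJ : Rainbow χ J
  · rw [if_pos hJ, wt_rainbow χ J y hJ]
  · rw [if_neg hJ]
    by_cases hi : J.image χ = univ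
    · have h2 : a ≤ J.card := by
        have h3 := card_image_le (s := J) (f := χ)
        rwa [hi, card_univ, Fintype.card_fin] at h3
      have h4 : a < J.card := lt_of_le_of_ne h2 fun he => hJ ⟨he.symm, hi⟩
      rw [h J h4, zero_mul]
    · rw [wt_zero χ J y hi, mul_zero]

theorem cut_prod {K : Type} [Field K] {n a : ℕ} {χ : Fin n → Fin a} {J : Finset (Fin n)}
    (h : Rainbow χ J) (k : Fin a) (y : Fin a → Fin n → K) :
    ∃ j0, ∀ w : Fin n → K, ∏ j ∈ J, (Function.update y k w) (χ j) j =
      w j0 * ∏ j ∈ J.erase j0, y (χ j) j := by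
  obtain ⟨r, hr1, hr2, -⟩ := cut_inv h
  refine ⟨r k, fun w => ?_⟩
  rw [← mul_prod_erase J _ (hr1 k), hr2, Function.update_self]
  congr 1
  refine prod_congr rfl fun j hj => ?_
  obtain ⟨h1, h2⟩ := mem_erase.1 hj
  have h3 : χ j ≠ k := fun he => h1 (cut_inj h h2 (hr1 k) (by rw [hr2, he]))
  rw [Function.update_of_ne h3]

/-- `TX` is additive in each argument: in `∏ j ∈ J, (update y k (v + v')) (χ j) j` with `J` rainbow exactly one factor has
colour `k`. -/
theorem TX_add {K : Type} [Field K] {n a : ℕ} (c : Finset (Fin n) → K) (χ : Fin n → Fin a) (k : Fin a)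
    (y : Fin a → Fin n → K) (v v' : Fin n → K) :
    TX c χ (Function.update y k (v + v')) = TX c χ (Function.update y k v) + TX c χ (Function.update y k v') := by
  unfold TX
  rw [← sum_add_distrib]
  refine sum_congr rfl fun J _ => ?_
  by_cases hJ : Rainbow χ J
  · rw [if_pos hJ, if_pos hJ, if_pos hJ]
    obtain ⟨j0, hj0⟩ := cut_prod hJ k y
    rw [hj0, hj0, hj0, Pi.add_apply]
    ring
  · rw [if_neg hJ, if_neg hJ, if_neg hJ, add_zero]

/-- The form determines the rainbow coefficients: for rainbow `J` let `vec k j = if j ∈ J then 1 else 0`. Then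
`∏ j ∈ J', vec (χ j) j = 1` iff `J' ⊆ J`, and for rainbow `J'` (same cardinality) this means `J' = J`. -/
theorem TX_vec {K : Type} [Field K] {n a : ℕ} (c : Finset (Fin n) → K) (χ : Fin n → Fin a) (J : Finset (Fin n))
    (hJ : Rainbow χ J) : TX c χ (fun _ j => if j ∈ J then 1 else 0) = c J := by
  unfold TX
  rw [sum_eq_single J]
  · rw [if_pos hJ, prod_eq_one fun j hj => if_pos hj, mul_one]
  · intro J' _ hne
    by_cases h : Rainbow χ J'
    · rw [if_pos h]
      have h1 : ∃ j ∈ J', j ∉ J := by
        by_contra hcon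
        push Not at hcon
        exact hne (eq_of_subset_of_card_le hcon (by rw [hJ.1, h.1]))
      obtain ⟨j, hj, hj2⟩ := h1
      rw [prod_eq_zero hj (if_neg hj2), mul_zero]
    · rw [if_neg h]
  · intro hn
    exact absurd (mem_univ _) hn

end Pool.Agent.H.MP_dd1c2e_lc
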