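import Mathlib
import Pool.Agent.H.MP_dd1c2e_lc.Cut

/-!
# Coefficients of a Boolean function of bounded degree
-/

namespace Pool.Agent.H.MP_dd1c2e_lc

open Finset

/-- A function of `𝔽_p`-degree at most `d` is given by coefficients that vanish above degree `d`.

Proof. Let `P` be the polynomial. Put `c J = ∑ coeff m P` over the monomials `m` of `P` with `m.support = J`. At a Boolean
point the monomial `m` has the value `1` if all variables of its support are `1`, and `0` otherwise; hence
`eval P = ∑ J, c J * mon J y`. If `c J ≠ 0`, there is a monomial `m` of `P` with support `J`, so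
`J.card = m.support.card ≤ ∑ m ≤ P.totalDegree ≤ d`. -/
theorem exists_coeff {p d n : ℕ} [Fact p.Prime] {f : (Fin n → Bool) → Bool} (h : DegLE p d f) :
    ∃ c : Finset (Fin n) → ZMod p, (∀ J, d < J.card → c J = 0) ∧ ∀ y, P1 c y = if f y then 1 else 0 := by
  classical
  obtain ⟨P, hP, hy⟩ := h
  refine ⟨fun J => ∑ m ∈ P.support with m.support = J, P.coeff m, fun J hJ => ?_, fun y => ?_⟩
  · refine Finset.sum_eq_zero fun m hm => ?_
    obtain ⟨hmP, hmJ⟩ := Finset.mem_filter.1 hm
    exfalso
    have h1 : (m.sum fun _ e => e) ≤ P.totalDegree := MvPolynomial.le_totalDegree hmP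
    have h2 : m.support.card ≤ m.sum fun _ e => e := by
      rw [Finsupp.sum, Finset.card_eq_sum_ones]
      refine Finset.sum_le_sum fun i hi => ?_
      exact Nat.one_le_iff_ne_zero.2 (Finsupp.mem_support_iff.1 hi)
    rw [hmJ] at h2
    omega
  · rw [← hy y, MvPolynomial.eval_eq]
    have hmon : ∀ m ∈ P.support, (∏ i ∈ m.support, (if y i then (1 : ZMod p) else 0) ^ m i) =
        mon (ZMod p) m.support y := by
      intro m _
      unfold mon
      split_ifs with h1
      · refine Finset.prod_eq_one fun i hi => ?_
        rw [h1 i hi]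
        simp
      · push Not at h1
        obtain ⟨i, hi, hne⟩ := h1
        refine Finset.prod_eq_zero hi ?_
        rw [if_neg hne]
        exact zero_pow (Finsupp.mem_support_iff.1 hi)
    rw [Finset.sum_congr rfl fun m hm => by rw [hmon m hm]]
    unfold P1
    rw [← Finset.sum_fiberwise P.support (fun m => m.support)
      (fun m => P.coeff m * mon (ZMod p) m.support y)]
    refine Finset.sum_congr rfl fun J _ => ?_
    rw [Finset.sum_mul]
    refine Finset.sum_congr rfl fun m hm => ?_
    rw [(Finset.mem_filter.1 hm).2]

end Pool.Agent.H.MP_dd1c2e_lc
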