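import Mathlib
import Pool.Agent.H.MP_dd1c2e_lc.Defs

/-!
# Contractions between coordinate spaces
-/

namespace Pool.Agent.H.MP_dd1c2e_lc

open Finset

/-- The matrix `M` is a contraction `ℂ^J → ℂ^I`. -/
def Contr {I J : Type} [Fintype I] [Fintype J] (M : I → J → ℂ) : Prop :=
  ∀ v : J → ℂ, ∑ i, ‖∑ j, M i j * v j‖ ^ 2 ≤ ∑ j, ‖v j‖ ^ 2

/-- Products of contractions are contractions. (`∑ k, ∑ j, M i j N j k v k = ∑ j, M i j (∑ k, N j k v k)`.) -/
theorem Contr.comp {I J K : Type} [Fintype I] [Fintype J] [Fintype K] {M : I → J → ℂ} {N : J → K → ℂ}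
    (hM : Contr M) (hN : Contr N) : Contr (fun i k => ∑ j, M i j * N j k) := by
  intro v
  have h1 : ∀ i, ∑ k, (∑ j, M i j * N j k) * v k = ∑ j, M i j * ∑ k, N j k * v k := by
    intro i
    simp only [Finset.sum_mul, Finset.mul_sum]
    rw [Finset.sum_comm]
    exact Finset.sum_congr rfl fun j _ => Finset.sum_congr rfl fun k _ => mul_assoc _ _ _
  calc ∑ i, ‖∑ k, (∑ j, M i j * N j k) * v k‖ ^ 2
      = ∑ i, ‖∑ j, M i j * ∑ k, N j k * v k‖ ^ 2 :=
        Finset.sum_congr rfl fun i _ => by rw [h1 i]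
    _ ≤ ∑ j, ‖∑ k, N j k * v k‖ ^ 2 := hM _
    _ ≤ ∑ k, ‖v k‖ ^ 2 := hN v

/-- The entrywise conjugate of a contraction is a contraction. (Apply the hypothesis to `conj v`; norms do not change.) -/
theorem Contr.conj {I J : Type} [Fintype I] [Fintype J] {M : I → J → ℂ} (hM : Contr M) :
    Contr (fun i j => starRingEnd ℂ (M i j)) := by
  intro v
  have h1 : ∀ i, ‖∑ j, starRingEnd ℂ (M i j) * v j‖ = ‖∑ j, M i j * starRingEnd ℂ (v j)‖ := by
    intro i
    rw [← RCLike.norm_conj (∑ j, M i j * starRingEnd ℂ (v j)), map_sum]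
    congr 1
    exact Finset.sum_congr rfl fun j _ => by rw [map_mul, Complex.conj_conj]
  calc ∑ i, ‖∑ j, starRingEnd ℂ (M i j) * v j‖ ^ 2
      = ∑ i, ‖∑ j, M i j * starRingEnd ℂ (v j)‖ ^ 2 :=
        Finset.sum_congr rfl fun i _ => by rw [h1 i]
    _ ≤ ∑ j, ‖starRingEnd ℂ (v j)‖ ^ 2 := hM _
    _ = ∑ j, ‖v j‖ ^ 2 := Finset.sum_congr rfl fun j _ => by rw [RCLike.norm_conj]

/-- The transpose of a contraction is a contraction. Proof: given `w : I → ℂ` put `v j := conj (∑ i, M i j w i)`. Then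
`∑ j ‖∑ i M i j w i‖² = ∑ j, v j * (∑ i M i j w i) = ∑ i, w i * (∑ j M i j v j) ≤ ‖w‖ ‖M v‖ ≤ ‖w‖ ‖v‖` (Cauchy-Schwarz)
and `‖v‖² = ∑ j ‖∑ i M i j w i‖²`; so `‖v‖² ≤ ‖w‖ ‖v‖`, hence `‖v‖² ≤ ‖w‖²`. -/
theorem Contr.transpose {I J : Type} [Fintype I] [Fintype J] {M : I → J → ℂ} (hM : Contr M) :
    Contr (fun j i => M i j) := by
  intro w
  show ∑ j, ‖∑ i, M i j * w i‖ ^ 2 ≤ ∑ i, ‖w i‖ ^ 2
  obtain ⟨v, hv⟩ : ∃ v : J → ℂ, v = fun j => starRingEnd ℂ (∑ i, M i j * w i) := ⟨_, rfl⟩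
  obtain ⟨S, hS⟩ : ∃ S : ℝ, S = ∑ j, ‖∑ i, M i j * w i‖ ^ 2 := ⟨_, rfl⟩
  have hS0 : 0 ≤ S := by
    rw [hS]
    exact Finset.sum_nonneg fun j _ => sq_nonneg _
  have hvS : ∑ j, ‖v j‖ ^ 2 = S := by
    rw [hS, hv]
    exact Finset.sum_congr rfl fun j _ => by rw [RCLike.norm_conj]
  have h1 : ((S : ℝ) : ℂ) = ∑ i, w i * ∑ j, M i j * v j := by
    have h2 : ∀ j, ((‖∑ i, M i j * w i‖ ^ 2 : ℝ) : ℂ) = v j * ∑ i, M i j * w i := by
      intro j
      rw [hv]
      show _ = starRingEnd ℂ (∑ i, M i j * w i) * ∑ i, M i j * w i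
      rw [← Complex.normSq_eq_conj_mul_self, Complex.normSq_eq_norm_sq]
    rw [hS, Complex.ofReal_sum, Finset.sum_congr rfl fun j _ => h2 j]
    simp only [Finset.mul_sum]
    rw [Finset.sum_comm]
    exact Finset.sum_congr rfl fun i _ => Finset.sum_congr rfl fun j _ => by ring
  have h2 : S ≤ ∑ i, ‖w i‖ * ‖∑ j, M i j * v j‖ := by
    have h3 : ‖((S : ℝ) : ℂ)‖ = S := by
      rw [Complex.norm_real, Real.norm_eq_abs, abs_of_nonneg hS0]
    rw [← h3, h1]
    refine (norm_sum_le _ _).trans (le_of_eq ?_)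
    exact Finset.sum_congr rfl fun i _ => norm_mul _ _
  have h3 : S ^ 2 ≤ (∑ i, ‖w i‖ ^ 2) * S := by
    calc S ^ 2 ≤ (∑ i, ‖w i‖ * ‖∑ j, M i j * v j‖) ^ 2 := pow_le_pow_left₀ hS0 h2 2
      _ ≤ (∑ i, ‖w i‖ ^ 2) * ∑ i, ‖∑ j, M i j * v j‖ ^ 2 :=
          Finset.sum_mul_sq_le_sq_mul_sq _ _ _
      _ ≤ (∑ i, ‖w i‖ ^ 2) * S := by
          refine mul_le_mul_of_nonneg_left ?_ (Finset.sum_nonneg fun i _ => sq_nonneg _)
          rw [← hvS]
          exact hM v
  rw [← hS]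
  rcases hS0.eq_or_lt with h4 | h4
  · rw [← h4]
    exact Finset.sum_nonneg fun i _ => sq_nonneg _
  · rw [sq] at h3
    exact le_of_mul_le_mul_right h3 h4

/-- The identity matrix is a contraction. -/
theorem Contr.one {I : Type} [Fintype I] [DecidableEq I] : Contr (fun i j : I => if i = j then (1 : ℂ) else 0) := by
  intro v
  refine le_of_eq (Finset.sum_congr rfl fun i _ => ?_)
  have h1 : ∑ j, (if i = j then (1 : ℂ) else 0) * v j = v i := by
    rw [Finset.sum_eq_single i]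
    · rw [if_pos rfl, one_mul]
    · intro j _ hj
      rw [if_neg (Ne.symm hj), zero_mul]
    · intro h
      exact absurd (Finset.mem_univ i) h
  rw [h1]

/-- A block of an isometry `ℂ^A → ℂ^A' ⊗ ℂ^2` is a contraction. (The sum over `A' × Bool` is the sum over `A'` and over the
two values of the bit; drop the other value.) -/
theorem IsIsometry.block {A A' : Type} [Fintype A] [Fintype A'] {V : A' × Bool → A → ℂ} (hV : IsIsometry V) (c : Bool) :
    Contr (fun a' a => V (a', c) a) := by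
  intro v
  have h1 := hV v
  rw [Fintype.sum_prod_type] at h1
  rw [← h1]
  refine Finset.sum_le_sum fun a' _ => ?_
  exact Finset.single_le_sum (f := fun c => ‖∑ a, V (a', c) a * v a‖ ^ 2)
    (fun c _ => sq_nonneg _) (Finset.mem_univ c)

/-- Contractions act on each column: `∑ i, ∑ k ‖∑ j M i j f j k‖² ≤ ∑ j, ∑ k ‖f j k‖²`. (Exchange the sums and apply the
hypothesis for each `k`.) -/
theorem Contr.left {I J K : Type} [Fintype I] [Fintype J] [Fintype K] {M : I → J → ℂ} (hM : Contr M) (f : J → K → ℂ) :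
    ∑ i, ∑ k, ‖∑ j, M i j * f j k‖ ^ 2 ≤ ∑ j, ∑ k, ‖f j k‖ ^ 2 := by
  rw [Finset.sum_comm, Finset.sum_comm (f := fun j k => ‖f j k‖ ^ 2)]
  exact Finset.sum_le_sum fun k _ => hM fun j => f j k

/-- The same on the second variable. -/
theorem Contr.right {I J K : Type} [Fintype I] [Fintype J] [Fintype K] {M : I → J → ℂ} (hM : Contr M) (f : K → J → ℂ) :
    ∑ k, ∑ i, ‖∑ j, M i j * f k j‖ ^ 2 ≤ ∑ k, ∑ j, ‖f k j‖ ^ 2 := by
  exact Finset.sum_le_sum fun k _ => hM (f k)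

/-- `M` repeated in one block: Bob's register after he receives the qubit `c`. The matrix with rows `(c', b)` and columns
`b0` whose entry is `M b b0` if `c' = c` and `0` otherwise is a contraction. -/
theorem Contr.pad {B B0 : Type} [Fintype B] [Fintype B0] {M : B → B0 → ℂ} (hM : Contr M) (c : Bool) :
    Contr (fun (m : Bool × B) b0 => if m.1 = c then M m.2 b0 else 0) := by
  intro v
  rw [Fintype.sum_prod_type, Finset.sum_eq_single c]
  · simp only [if_true]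
    exact hM v
  · intro c' _ hc'
    refine Finset.sum_eq_zero fun b _ => ?_
    simp only [if_neg hc', zero_mul, Finset.sum_const_zero, norm_zero]
    norm_num
  · intro h
    exact absurd (Finset.mem_univ c) h

end Pool.Agent.H.MP_dd1c2e_lc
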