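import Mathlib
import Pool.Agent.H.MP_dd1c2e_lc.Defs

/-!
# Protocols from the number of rows
-/

namespace Pool.Agent.H.MP_dd1c2e_lc

open Finset

theorem det_aux {X Y : Type} : ∀ (m : ℕ) (msg : X → Fin m → Bool) (out : (Fin m → Bool) → Y → Bool),
    ∃ P : DProt X Y, P.depth ≤ m + 1 ∧ ∀ x y, P.run x y = out (msg x) y := by
  intro m
  induction m with
  | zero =>
    intro msg out
    refine ⟨.bob (out (fun _ => false)) (.leaf true) (.leaf false), ?_, ?_⟩
    · simp [DProt.depth]
    · intro x y
      have h1 : msg x = fun _ => false := Subsingleton.elim _ _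
      rw [h1]
      simp only [DProt.run]
      cases out (fun _ => false) y <;> simp
  | succ m ih =>
    intro msg out
    obtain ⟨P, hP, hP'⟩ := ih (fun x => Fin.tail (msg x)) (fun w => out (Fin.cons true w))
    obtain ⟨Q, hQ, hQ'⟩ := ih (fun x => Fin.tail (msg x)) (fun w => out (Fin.cons false w))
    refine ⟨.alice (fun x => msg x 0) P Q, ?_, ?_⟩
    · simp only [DProt.depth]
      omega
    · intro x y
      simp only [DProt.run]
      have h1 : Fin.cons (msg x 0) (Fin.tail (msg x)) = msg x := Fin.cons_self_tail (msg x)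
      by_cases h0 : msg x 0 = true
      · rw [if_pos h0, hP']
        rw [h0] at h1
        show out (Fin.cons true (Fin.tail (msg x))) y = _
        rw [h1]
      · rw [if_neg h0, hQ']
        rw [Bool.not_eq_true] at h0
        rw [h0] at h1
        show out (Fin.cons false (Fin.tail (msg x))) y = _
        rw [h1]

/-- A one-way protocol with `m` bits gives a protocol with `m + 1` bits after which both parties know the answer. Induction
on `m`: split off the first bit with `Fin.cons` / `Fin.tail`. -/
theorem det_of_oneWay {X Y : Type} {F : X → Y → Bool} {m : ℕ} (h : OneWay F m) : DetComputes F (m + 1) := by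
  obtain ⟨msg, out, ho⟩ := h
  obtain ⟨P, hP, hP'⟩ := det_aux m msg out
  exact ⟨P, hP, fun x y => (hP' x y).trans (ho x y)⟩

/-- If `F` has at most `2^m` distinct rows, Alice sends the number of her row. -/
theorem oneWay_of_rows {X Y : Type} {F : X → Y → Bool} {m : ℕ} (hfin : (Set.range F).Finite)
    (h : (Set.range F).ncard ≤ 2 ^ m) : OneWay F m := by
  classical
  have := hfin.fintype
  have hc : Fintype.card (Set.range F) ≤ Fintype.card (Fin m → Bool) := by
    rw [← Nat.card_eq_fintype_card, Nat.card_coe_set_eq]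
    simpa using h
  obtain ⟨g⟩ := Function.Embedding.nonempty_of_card_le hc
  refine ⟨fun x => g ⟨F x, Set.mem_range_self x⟩,
    fun w y => if hw : ∃ r, g r = w then (Classical.choose hw).1 y else false, fun x y => ?_⟩
  have hw : ∃ r, g r = g ⟨F x, Set.mem_range_self x⟩ := ⟨_, rfl⟩
  show (if hw : ∃ r, g r = g ⟨F x, Set.mem_range_self x⟩ then (Classical.choose hw).1 y else false)
    = F x y
  rw [dif_pos hw]
  have h1 := g.injective (Classical.choose_spec hw)
  rw [h1]

theorem OneWay.mono {X Y : Type} {F : X → Y → Bool} {m m' : ℕ} (h : OneWay F m) (hm : m ≤ m') : OneWay F m' := by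
  obtain ⟨msg, out, ho⟩ := h
  refine ⟨fun x i => if hi : (i : ℕ) < m then msg x ⟨i, hi⟩ else false,
    fun w => out (fun i => w (Fin.castLE hm i)), fun x y => ?_⟩
  rw [← ho x y]
  show out (fun i => if hi : ((Fin.castLE hm i : Fin m') : ℕ) < m then msg x ⟨_, hi⟩ else false) y = _
  have h1 : (fun i : Fin m => if hi : ((Fin.castLE hm i : Fin m') : ℕ) < m then
      msg x ⟨_, hi⟩ else false) = msg x := by
    funext i
    simp
  rw [h1]

theorem DetComputes.mono {X Y : Type} {F : X → Y → Bool} {m m' : ℕ} (h : DetComputes F m) (hm : m ≤ m') :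
    DetComputes F m' := by
  obtain ⟨P, hP, hP'⟩ := h
  exact ⟨P, hP.trans hm, hP'⟩

end Pool.Agent.H.MP_dd1c2e_lc
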