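import Mathlib
import Pool.Agent.H.MP_dd1c2e_lc.Defs

/-!
# Families of linear maps with few values at every point: clustering
-/

namespace Pool.Agent.H.MP_dd1c2e_lc

open Finset Module

/-- The kernel of a linear map of rank `> m` contains at most `|V| / 2^(m+1)` vectors (`|ker| p^rank = |V|`, `p ≥ 2`). -/
theorem card_ker_le {p : ℕ} [Fact p.Prime] {V U : Type} [AddCommGroup V] [Module (ZMod p) V] [Fintype V] [AddCommGroup U]
    [Module (ZMod p) U] (T : V →ₗ[ZMod p] U) (m : ℕ) (h : m < finrank (ZMod p) (LinearMap.range T)) [DecidableEq U] :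
    2 ^ (m + 1) * (univ.filter (fun v => T v = 0)).card ≤ Fintype.card V := by
  have hfin : Module.Finite (ZMod p) V := Module.Finite.of_finite
  have hp : 2 ≤ p := (Fact.out : p.Prime).two_le
  have h1 : Nat.card V = p ^ finrank (ZMod p) V := by
    have := Module.natCard_eq_pow_finrank (K := ZMod p) (V := V)
    rwa [Nat.card_zmod] at this
  have h2 : Nat.card (LinearMap.ker T) = p ^ finrank (ZMod p) (LinearMap.ker T) := by
    have := Module.natCard_eq_pow_finrank (K := ZMod p) (V := LinearMap.ker T)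
    rwa [Nat.card_zmod] at this
  have h3 := LinearMap.finrank_range_add_finrank_ker T
  have h4 : (univ.filter (fun v => T v = 0)).card = Nat.card (LinearMap.ker T) := by
    have e1 : (LinearMap.ker T : Set V) = ((univ.filter (fun v => T v = 0) : Finset V) : Set V) := by
      ext v
      simp
    have e2 : Nat.card (LinearMap.ker T) = (LinearMap.ker T : Set V).ncard := rfl
    rw [e2, e1, Set.ncard_coe_finset]
  have h5 : Fintype.card V = Nat.card V := (Nat.card_eq_fintype_card).symm
  rw [h4, h5, h1, h2, ← h3, pow_add p]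
  refine Nat.mul_le_mul_right _ ?_
  calc 2 ^ (m + 1) ≤ p ^ (m + 1) := Nat.pow_le_pow_left hp _
    _ ≤ p ^ finrank (ZMod p) (LinearMap.range T) := Nat.pow_le_pow_right (by omega) h

/-- the number of pairs with the same value -/
theorem FamA_pairs {X U : Type} [DecidableEq U] (Y : Finset X) (g : X → U) (N : ℕ)
    (hN : (Y.image g).card ≤ N) :
    Y.card ^ 2 ≤ N * ((Y ×ˢ Y).filter (fun q => g q.1 = g q.2)).card := by
  classical
  have h1 : Y.card = ∑ u ∈ Y.image g, (Y.filter (fun y => g y = u)).card :=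
    card_eq_sum_card_fiberwise fun y hy => mem_coe.2 (mem_image_of_mem g hy)
  have h2 : ((Y ×ˢ Y).filter (fun q => g q.1 = g q.2)).card =
      ∑ u ∈ Y.image g, (Y.filter (fun y => g y = u)).card ^ 2 := by
    rw [card_eq_sum_card_fiberwise (f := fun q : X × X => g q.1) (t := Y.image g)
      (fun q hq => by
        have hq' := (mem_filter.1 (mem_coe.1 hq)).1
        exact mem_coe.2 (mem_image_of_mem g (mem_product.1 hq').1))]
    refine sum_congr rfl fun u _ => ?_
    rw [sq, ← card_product]
    congr 1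
    ext q
    simp only [mem_filter, mem_product]
    constructor
    · rintro ⟨⟨⟨h1, h2⟩, h3⟩, h4⟩
      exact ⟨⟨h1, h4⟩, h2, h3 ▸ h4⟩
    · rintro ⟨⟨h1, h2⟩, h3, h4⟩
      exact ⟨⟨⟨h1, h3⟩, h2.trans h4.symm⟩, h2⟩
  calc Y.card ^ 2 = (∑ u ∈ Y.image g, (Y.filter (fun y => g y = u)).card) ^ 2 := by rw [← h1]
    _ ≤ (Y.image g).card * ∑ u ∈ Y.image g, (Y.filter (fun y => g y = u)).card ^ 2 :=
        sq_sum_le_card_mul_sum_sq
    _ ≤ N * ∑ u ∈ Y.image g, (Y.filter (fun y => g y = u)).card ^ 2 :=
        Nat.mul_le_mul_right _ hN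
    _ = _ := by rw [h2]

/-- Clustering. Let `T x : V → U`, `x ∈ X`, be linear maps over `ZMod p` such that at every `v` the family takes at most
`2^m` values. Then some `x0` has at least `|X| / 2^(m+1)` indices `x` with `rank (T x - T x0) ≤ m`.

Proof. Let `Y ⊆ X` be a maximal set with `rank (T y - T y') > m` for all distinct `y, y' ∈ Y`. Count the triples
`(v, y, y')`, `y, y' ∈ Y`, with `T y v = T y' v`: by `card_ker_le` there are at most `|V| (|Y| + |Y|² / 2^(m+1))`, and for
every `v` there are at least `|Y|² / 2^m` pairs (Cauchy-Schwarz: `|Y|` elements, at most `2^m` classes). So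
`|Y|² / 2^m ≤ |Y| + |Y|² / 2^(m+1)`, that is `|Y| ≤ 2^(m+1)`. By maximality every `x` has `rank (T x - T y) ≤ m` for some
`y ∈ Y` (rank `0` if `x = y`); pigeonhole. -/
theorem cluster {p : ℕ} [Fact p.Prime] {X V U : Type} [Fintype X] [Nonempty X] [AddCommGroup V] [Module (ZMod p) V]
    [Fintype V] [AddCommGroup U] [Module (ZMod p) U] [DecidableEq U] (T : X → V →ₗ[ZMod p] U) (m : ℕ)
    (hM : ∀ v, (univ.image (fun x => T x v)).card ≤ 2 ^ m) :
    ∃ (x0 : X) (X1 : Finset X), Fintype.card X ≤ 2 ^ (m + 1) * X1.card ∧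
      ∀ x ∈ X1, finrank (ZMod p) (LinearMap.range (T x - T x0)) ≤ m := by
  classical
  obtain ⟨rk, hrk⟩ : ∃ rk : X → X → ℕ, rk = fun x y =>
    finrank (ZMod p) (LinearMap.range (T x - T y)) := ⟨_, rfl⟩
  have rk_self : ∀ x, rk x x = 0 := by
    intro x
    rw [hrk]
    simp
  have rk_symm : ∀ x y, rk x y = rk y x := by
    intro x y
    rw [hrk]
    change finrank (ZMod p) (LinearMap.range (T x - T y)) =
      finrank (ZMod p) (LinearMap.range (T y - T x))
    rw [← neg_sub (T y) (T x), LinearMap.range_neg]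
  -- a maximal separated set
  obtain ⟨Y, hY, hmax⟩ := exists_max_image
    ((univ : Finset (Finset X)).filter (fun Y => ∀ y ∈ Y, ∀ y' ∈ Y, y ≠ y' → m < rk y y'))
    (fun Y => Y.card) ⟨∅, by simp⟩
  have hYs : ∀ y ∈ Y, ∀ y' ∈ Y, y ≠ y' → m < rk y y' := (mem_filter.1 hY).2
  have hcov : ∀ x, ∃ y ∈ Y, rk x y ≤ m := by
    intro x
    by_contra hcon
    push Not at hcon
    have hxY : x ∉ Y := by
      intro hx
      have := hcon x hx
      rw [rk_self] at this
      omega
    have h1 : insert x Y ∈ (univ : Finset (Finset X)).filter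
        (fun Y => ∀ y ∈ Y, ∀ y' ∈ Y, y ≠ y' → m < rk y y') := by
      refine mem_filter.2 ⟨mem_univ _, ?_⟩
      intro y hy y' hy' hne
      rcases mem_insert.1 hy with e1 | e1
      · rcases mem_insert.1 hy' with e2 | e2
        · exact absurd (e1.trans e2.symm) hne
        · rw [e1]
          exact hcon y' e2
      · rcases mem_insert.1 hy' with e2 | e2
        · rw [e2, rk_symm]
          exact hcon y e1
        · exact hYs y e1 y' e2 hne
    have h2 := hmax _ h1
    rw [card_insert_of_notMem hxY] at h2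
    omega
  -- the size of `Y`
  have hYcard : Y.card ≤ 2 ^ (m + 1) := by
    have low : ∀ v, Y.card ^ 2 ≤
        2 ^ m * ((Y ×ˢ Y).filter (fun q => T q.1 v = T q.2 v)).card := by
      intro v
      refine FamA_pairs Y (fun x => T x v) _ ((card_le_card ?_).trans (hM v))
      exact image_subset_image (subset_univ Y)
    have swap : ∑ v, ((Y ×ˢ Y).filter (fun q => T q.1 v = T q.2 v)).card =
        ∑ q ∈ Y ×ˢ Y, (univ.filter (fun v => T q.1 v = T q.2 v)).card := by
      simp only [card_filter]
      exact sum_comm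
    have up : ∀ q ∈ Y ×ˢ Y, 2 ^ (m + 1) * (univ.filter (fun v => T q.1 v = T q.2 v)).card ≤
        Fintype.card V + (if q.1 = q.2 then 2 ^ (m + 1) * Fintype.card V else 0) := by
      intro q hq
      rw [mem_product] at hq
      split_ifs with h
      · have h1 : (univ.filter (fun v => T q.1 v = T q.2 v)).card ≤ Fintype.card V :=
          card_le_univ _
        have := Nat.mul_le_mul_left (2 ^ (m + 1)) h1
        omega
      · have h1 := hYs _ hq.1 _ hq.2 h
        rw [hrk] at h1
        have h2 := card_ker_le (T q.1 - T q.2) m h1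
        have h3 : (univ.filter (fun v => T q.1 v = T q.2 v)) =
            univ.filter (fun v => (T q.1 - T q.2) v = 0) := by
          ext v
          simp only [mem_filter, mem_univ, true_and, LinearMap.sub_apply, sub_eq_zero]
        rw [h3]
        omega
    have hdiag : ∑ q ∈ Y ×ˢ Y, (if q.1 = q.2 then 2 ^ (m + 1) * Fintype.card V else 0) =
        Y.card * (2 ^ (m + 1) * Fintype.card V) := by
      rw [sum_product]
      rw [sum_congr rfl (g := fun _ => 2 ^ (m + 1) * Fintype.card V) ?_, sum_const, smul_eq_mul]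
      intro y hy
      rw [sum_ite_eq, if_pos hy]
    have hV : 0 < Fintype.card V := Fintype.card_pos
    have t1 : Fintype.card V * Y.card ^ 2 ≤
        2 ^ m * ∑ q ∈ Y ×ˢ Y, (univ.filter (fun v => T q.1 v = T q.2 v)).card := by
      rw [← swap, mul_sum]
      have := sum_le_sum (s := (univ : Finset V)) fun v _ => low v
      simpa using this
    have t2 : 2 ^ (m + 1) * ∑ q ∈ Y ×ˢ Y, (univ.filter (fun v => T q.1 v = T q.2 v)).card ≤
        Y.card ^ 2 * Fintype.card V + Y.card * (2 ^ (m + 1) * Fintype.card V) := by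
      rw [mul_sum]
      refine (sum_le_sum up).trans ?_
      rw [sum_add_distrib, hdiag, sum_const, card_product, smul_eq_mul, sq]
    have t3 : 2 * (Fintype.card V * Y.card ^ 2) ≤
        Y.card ^ 2 * Fintype.card V + Y.card * (2 ^ (m + 1) * Fintype.card V) := by
      refine le_trans ?_ t2
      rw [pow_succ]
      have := Nat.mul_le_mul_left 2 t1
      refine this.trans (le_of_eq ?_)
      ring
    have t4 : Fintype.card V * Y.card ^ 2 ≤ Fintype.card V * (Y.card * 2 ^ (m + 1)) := by
      have e1 : Y.card * (2 ^ (m + 1) * Fintype.card V) =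
        Fintype.card V * (Y.card * 2 ^ (m + 1)) := by ring
      have e2 : Y.card ^ 2 * Fintype.card V = Fintype.card V * Y.card ^ 2 := by ring
      rw [e1, e2] at t3
      omega
    have t5 : Y.card ^ 2 ≤ Y.card * 2 ^ (m + 1) := Nat.le_of_mul_le_mul_left t4 hV
    rcases Nat.eq_zero_or_pos Y.card with h0 | h0
    · rw [h0]
      exact Nat.zero_le _
    · rw [sq] at t5
      exact Nat.le_of_mul_le_mul_left t5 h0
  -- pigeonhole
  obtain ⟨x₀⟩ := (inferInstance : Nonempty X)
  obtain ⟨y₀, hy₀, -⟩ := hcov x₀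
  obtain ⟨y, hy, hbest⟩ := exists_max_image Y
    (fun y => (univ.filter (fun x => rk x y ≤ m)).card) ⟨y₀, hy₀⟩
  refine ⟨y, univ.filter (fun x => rk x y ≤ m), ?_, ?_⟩
  · have h1 : (univ : Finset X) ⊆ Y.biUnion (fun y => univ.filter (fun x => rk x y ≤ m)) := by
      intro x _
      obtain ⟨z, hz, hxz⟩ := hcov x
      exact mem_biUnion.2 ⟨z, hz, mem_filter.2 ⟨mem_univ _, hxz⟩⟩
    calc Fintype.card X = (univ : Finset X).card := (card_univ).symm
      _ ≤ (Y.biUnion (fun y => univ.filter (fun x => rk x y ≤ m))).card := card_le_card h1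
      _ ≤ ∑ z ∈ Y, (univ.filter (fun x => rk x z ≤ m)).card := card_biUnion_le
      _ ≤ ∑ _z ∈ Y, (univ.filter (fun x => rk x y ≤ m)).card := sum_le_sum fun z hz => hbest z hz
      _ = Y.card * (univ.filter (fun x => rk x y ≤ m)).card := by rw [sum_const, smul_eq_mul]
      _ ≤ 2 ^ (m + 1) * (univ.filter (fun x => rk x y ≤ m)).card :=
          Nat.mul_le_mul_right _ hYcard
  · intro x hx
    have h1 := (mem_filter.1 hx).2
    rw [hrk] at h1
    exact h1

end Pool.Agent.H.MP_dd1c2e_lc
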