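import Mathlib
import Pool.Agent.H.MP_dd1c2e_lc.Defs

/-!
# Families of linear maps with few values at every point: common image
-/

namespace Pool.Agent.H.MP_dd1c2e_lc

open Finset Module

/-- One step. Let `C ≤ U` and let `s` be a set of indices `x` such that none of the ranges of `T x` is contained in `C`. If
the family takes at most `2^m` values at every point, then there are `c ∉ C` and `s' ⊆ s` with `|s| ≤ 2^(m+1) |s'|` such that
`c` lies in the range of `T x` for all `x ∈ s'`.

Proof. For `x ∈ s` the set `{v : T x v ∈ C}` is a proper subspace of `V`, so it has at most `|V| / 2` elements. By double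
counting some `v` has `T x v ∉ C` for at least half of the `x ∈ s`; these `x` have at most `2^m` values `T x v`;
pigeonhole. (If `s` is empty take `s' = ∅`; then a `c ∉ C` exists only if `C ≠ ⊤`, so assume `s` nonempty.) -/
theorem popular {p : ℕ} [Fact p.Prime] {X V U : Type} [AddCommGroup V] [Module (ZMod p) V]
    [Fintype V] [AddCommGroup U] [Module (ZMod p) U] [DecidableEq U] (T : X → V →ₗ[ZMod p] U) (m : ℕ) (s : Finset X)
    (hs : s.Nonempty) (hM : ∀ v, (s.image (fun x => T x v)).card ≤ 2 ^ m) (C : Submodule (ZMod p) U)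
    (hC : ∀ x ∈ s, ¬ LinearMap.range (T x) ≤ C) :
    ∃ c, c ∉ C ∧ ∃ s' ⊆ s, s.card ≤ 2 ^ (m + 1) * s'.card ∧ ∀ x ∈ s', c ∈ LinearMap.range (T x) := by
  classical
  -- for every `x ∈ s` at least half of the points are mapped outside `C`
  have hhalf : ∀ x ∈ s, Fintype.card V ≤ 2 * (univ.filter fun v => T x v ∉ C).card := by
    intro x hx
    obtain ⟨u, ⟨v0, rfl⟩, hv0⟩ := Set.not_subset.1 (hC x hx)
    have h1 : (univ.filter fun v => T x v ∈ C).card ≤ (univ.filter fun v => T x v ∉ C).card := by
      refine Finset.card_le_card_of_injOn (fun v => v0 + v) ?_ ?_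
      · intro v hv
        have hv' : T x v ∈ C := (mem_filter.1 hv).2
        refine mem_filter.2 ⟨mem_univ _, fun h2 => hv0 ?_⟩
        have h3 := C.sub_mem h2 hv'
        rwa [map_add, add_sub_cancel_right] at h3
      · intro v _ w _ hvw
        exact add_left_cancel hvw
    have h2 : (univ.filter fun v => T x v ∈ C).card + (univ.filter fun v => T x v ∉ C).card =
        Fintype.card V := Finset.card_filter_add_card_filter_not _
    omega
  -- double counting
  obtain ⟨v, hv⟩ : ∃ v, s.card ≤ 2 * (s.filter fun x => T x v ∉ C).card := by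
    by_contra hcon
    push Not at hcon
    have h1 : ∑ v : V, 2 * (s.filter fun x => T x v ∉ C).card < ∑ _v : V, s.card :=
      Finset.sum_lt_sum_of_nonempty ⟨0, mem_univ _⟩ fun v _ => hcon v
    have h2 : ∑ v : V, 2 * (s.filter fun x => T x v ∉ C).card =
        ∑ x ∈ s, 2 * (univ.filter fun v => T x v ∉ C).card := by
      rw [← Finset.mul_sum, ← Finset.mul_sum]
      congr 1
      simp only [Finset.card_filter]
      exact Finset.sum_comm
    have h3 : ∑ x ∈ s, Fintype.card V ≤ ∑ x ∈ s, 2 * (univ.filter fun v => T x v ∉ C).card :=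
      Finset.sum_le_sum hhalf
    rw [h2] at h1
    rw [Finset.sum_const, smul_eq_mul] at h1 h3
    rw [Finset.card_univ] at h1
    have h4 := lt_of_le_of_lt h3 h1
    rw [mul_comm] at h4
    exact lt_irrefl _ h4
  -- pigeonhole
  have hne : (s.filter fun x => T x v ∉ C).Nonempty := by
    rw [← Finset.card_pos]
    have := Finset.card_pos.2 hs
    omega
  obtain ⟨c, hc, hmax⟩ := Finset.exists_max_image ((s.filter fun x => T x v ∉ C).image fun x => T x v)
    (fun c => ((s.filter fun x => T x v ∉ C).filter fun x => T x v = c).card) (hne.image _)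
  have hcC : c ∉ C := by
    obtain ⟨x, hx, rfl⟩ := Finset.mem_image.1 hc
    exact (mem_filter.1 hx).2
  refine ⟨c, hcC, (s.filter fun x => T x v ∉ C).filter fun x => T x v = c, ?_, ?_, ?_⟩
  · exact (Finset.filter_subset _ _).trans (Finset.filter_subset _ _)
  · have h1 : (s.filter fun x => T x v ∉ C).card ≤
        ((s.filter fun x => T x v ∉ C).image fun x => T x v).card *
          ((s.filter fun x => T x v ∉ C).filter fun x => T x v = c).card := by
      rw [Finset.card_eq_sum_card_image (fun x => T x v) (s.filter fun x => T x v ∉ C),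
        ← smul_eq_mul]
      exact Finset.sum_le_card_nsmul _ _ _ hmax
    have h2 : ((s.filter fun x => T x v ∉ C).image fun x => T x v).card ≤ 2 ^ m :=
      (Finset.card_le_card (Finset.image_subset_image (Finset.filter_subset _ _))).trans (hM v)
    calc s.card ≤ 2 * (s.filter fun x => T x v ∉ C).card := hv
      _ ≤ 2 * (2 ^ m * ((s.filter fun x => T x v ∉ C).filter fun x => T x v = c).card) :=
          Nat.mul_le_mul_left _ (h1.trans (Nat.mul_le_mul_right _ h2))
      _ = 2 ^ (m + 1) * ((s.filter fun x => T x v ∉ C).filter fun x => T x v = c).card := by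
          rw [pow_succ]; ring
  · intro x hx
    exact ⟨v, (mem_filter.1 hx).2⟩

/-- Common image. Let all `T x`, `x ∈ s`, satisfy `dim (range (T x) ⊔ C) ≤ dim C + r`, with at most `2^m` values at every
point. Then there are `s' ⊆ s` with `|s| ≤ 2 * 2^((m+2) r) |s'|` and `C' ≤ U` of dimension at most `dim C + r` such that
`range (T x) ≤ C'` for all `x ∈ s'`.

Proof by induction on `r`. If `r = 0` then `range (T x) ≤ C` for all `x ∈ s`. For `r + 1`: let `s0` be the set of `x ∈ s` with
`range (T x) ≤ C`. If `|s| ≤ 2 |s0|`, take `s' = s0`, `C' = C`. Otherwise `s1 = s \ s0` has `|s| ≤ 2 |s1|` and is nonempty (or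
`s` is empty, trivial), and `popular` gives `c` and `s2 ⊆ s1`, `|s1| ≤ 2^(m+1) |s2|`. With `C1 = C ⊔ span {c}` we have
`dim C1 = dim C + 1` and `range (T x) ⊔ C1 = range (T x) ⊔ C` for `x ∈ s2`, so `dim (range (T x) ⊔ C1) ≤ dim C1 + r`. Apply the
induction hypothesis to `s2`, `C1`: `|s| ≤ 2 · 2^(m+1) |s2| = 2^(m+2) |s2|`. -/
theorem common_image {p : ℕ} [Fact p.Prime] {X V U : Type} [AddCommGroup V] [Module (ZMod p) V]
    [Fintype V] [AddCommGroup U] [Module (ZMod p) U] [FiniteDimensional (ZMod p) U] [DecidableEq U]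
    (T : X → V →ₗ[ZMod p] U) (m r : ℕ) : ∀ (s : Finset X) (C : Submodule (ZMod p) U),
    (∀ v, (s.image (fun x => T x v)).card ≤ 2 ^ m) →
    (∀ x ∈ s, finrank (ZMod p) ↥(LinearMap.range (T x) ⊔ C) ≤ finrank (ZMod p) C + r) →
    ∃ s' ⊆ s, s.card ≤ 2 * 2 ^ ((m + 2) * r) * s'.card ∧ ∃ C' : Submodule (ZMod p) U,
      finrank (ZMod p) C' ≤ finrank (ZMod p) C + r ∧ ∀ x ∈ s', LinearMap.range (T x) ≤ C' := by
  classical
  induction r with
  | zero =>
    intro s C _ hr
    refine ⟨s, Finset.Subset.refl _, ?_, C, le_rfl, fun x hx => ?_⟩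
    · rw [Nat.mul_zero, pow_zero]
      omega
    · have h1 : C = LinearMap.range (T x) ⊔ C :=
        Submodule.eq_of_le_of_finrank_le le_sup_right (hr x hx)
      rw [h1]
      exact le_sup_left
  | succ r ih =>
    intro s C hM hr
    by_cases h0 : s.card ≤ 2 * (s.filter fun x => LinearMap.range (T x) ≤ C).card
    · refine ⟨s.filter fun x => LinearMap.range (T x) ≤ C, Finset.filter_subset _ _, ?_, C,
        Nat.le_add_right _ _, fun x hx => (mem_filter.1 hx).2⟩
      refine h0.trans (Nat.mul_le_mul_right _ ?_)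
      have h1 : 1 ≤ 2 ^ ((m + 2) * (r + 1)) := Nat.one_le_two_pow
      omega
    · have hsum : (s.filter fun x => LinearMap.range (T x) ≤ C).card +
          (s.filter fun x => ¬ LinearMap.range (T x) ≤ C).card = s.card :=
        Finset.card_filter_add_card_filter_not _
      have h1 : s.card ≤ 2 * (s.filter fun x => ¬ LinearMap.range (T x) ≤ C).card := by omega
      have hne : (s.filter fun x => ¬ LinearMap.range (T x) ≤ C).Nonempty := by
        rw [← Finset.card_pos]
        omega
      have hM1 : ∀ v, ((s.filter fun x => ¬ LinearMap.range (T x) ≤ C).image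
          (fun x => T x v)).card ≤ 2 ^ m := fun v =>
        (Finset.card_le_card (Finset.image_subset_image (Finset.filter_subset _ _))).trans (hM v)
      obtain ⟨c, hcC, s2, hs2, hcard, hc⟩ := popular T m _ hne hM1 C
        (fun x hx => (mem_filter.1 hx).2)
      have hlt : C < C ⊔ Submodule.span (ZMod p) {c} := by
        refine lt_of_le_of_ne le_sup_left fun he => hcC ?_
        rw [he]
        exact (le_sup_right : Submodule.span (ZMod p) {c} ≤ _) (Submodule.mem_span_singleton_self c)
      have hf1 : finrank (ZMod p) C + 1 ≤ finrank (ZMod p) ↥(C ⊔ Submodule.span (ZMod p) {c}) :=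
        Submodule.finrank_lt_finrank_of_lt hlt
      have hf2 : finrank (ZMod p) ↥(C ⊔ Submodule.span (ZMod p) {c}) ≤ finrank (ZMod p) C + 1 := by
        have h2 := Submodule.finrank_add_le_finrank_add_finrank C (Submodule.span (ZMod p) {c})
        have h3 : finrank (ZMod p) ↥(Submodule.span (ZMod p) {c}) ≤ 1 := by
          have h4 := finrank_span_finset_le_card (R := ZMod p) ({c} : Finset U)
          rw [Finset.card_singleton, Finset.coe_singleton] at h4
          exact h4
        omega
      have hr2 : ∀ x ∈ s2, finrank (ZMod p)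
          ↥(LinearMap.range (T x) ⊔ (C ⊔ Submodule.span (ZMod p) {c})) ≤
          finrank (ZMod p) ↥(C ⊔ Submodule.span (ZMod p) {c}) + r := by
        intro x hx
        have h2 : LinearMap.range (T x) ⊔ (C ⊔ Submodule.span (ZMod p) {c}) =
            LinearMap.range (T x) ⊔ C := by
          rw [sup_comm C, ← sup_assoc]
          congr 1
          rw [sup_eq_left, Submodule.span_singleton_le_iff_mem]
          exact hc x hx
        rw [h2]
        have h3 := hr x ((Finset.filter_subset _ _) (hs2 hx))
        omega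
      have hM2 : ∀ v, (s2.image (fun x => T x v)).card ≤ 2 ^ m := fun v =>
        (Finset.card_le_card (Finset.image_subset_image hs2)).trans (hM1 v)
      obtain ⟨s', hs', hcard', C', hC', hle⟩ := ih s2 _ hM2 hr2
      refine ⟨s', (hs'.trans hs2).trans (Finset.filter_subset _ _), ?_, C', by omega, hle⟩
      calc s.card ≤ 2 * (s.filter fun x => ¬ LinearMap.range (T x) ≤ C).card := h1
        _ ≤ 2 * (2 ^ (m + 1) * s2.card) := Nat.mul_le_mul_left _ hcard
        _ ≤ 2 * (2 ^ (m + 1) * (2 * 2 ^ ((m + 2) * r) * s'.card)) :=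
            Nat.mul_le_mul_left _ (Nat.mul_le_mul_left _ hcard')
        _ = 2 * 2 ^ ((m + 2) * (r + 1)) * s'.card := by
            have h2 : (m + 2) * (r + 1) = (m + 1) + 1 + (m + 2) * r := by ring
            rw [h2, pow_add, pow_add]
            ring

end Pool.Agent.H.MP_dd1c2e_lc
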