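import Mathlib
import Pool.Agent.H.MP_dd1c2e_lc.FamA
import Pool.Agent.H.MP_dd1c2e_lc.FamB

/-!
# Families of bilinear matrices with few rows and few columns are small
-/

namespace Pool.Agent.H.MP_dd1c2e_lc

open Finset Module

/-- A space of functions on `Z` of dimension at most `r` is determined by its values at `r` points: there is a set `Q` of at
most `r` points such that a function of the space that vanishes on `Q` is zero. (Induction on the dimension: choose a nonzero
`f`, `f z ≠ 0`, and pass to the subspace of the functions that vanish at `z`; or: evaluations span the dual space.) -/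
theorem exists_eval {K Z : Type} [Field K] [Finite Z] (r : ℕ) (C : Submodule K (Z → K)) (h : finrank K C ≤ r) :
    ∃ Q : Finset Z, Q.card ≤ r ∧ ∀ f ∈ C, (∀ z ∈ Q, f z = 0) → f = 0 := by
  classical
  induction r generalizing C with
  | zero =>
    have h1 : C = ⊥ := Submodule.finrank_eq_zero.1 (Nat.le_zero.1 h)
    refine ⟨∅, by simp, fun f hf _ => ?_⟩
    rw [h1] at hf
    exact (Submodule.mem_bot K).1 hf
  | succ r ih =>
    by_cases hC : C = ⊥
    · refine ⟨∅, by simp, fun f hf _ => ?_⟩
      rw [hC] at hf
      exact (Submodule.mem_bot K).1 hf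
    · obtain ⟨f, hf, hf0⟩ := Submodule.exists_mem_ne_zero_of_ne_bot hC
      obtain ⟨z, hz⟩ : ∃ z, f z ≠ 0 := by
        by_contra hcon
        push Not at hcon
        exact hf0 (funext hcon)
      have hlt : C ⊓ LinearMap.ker (LinearMap.proj z : (Z → K) →ₗ[K] K) < C := by
        refine lt_of_le_of_ne inf_le_left fun h1 => ?_
        have h2 : f ∈ C ⊓ LinearMap.ker (LinearMap.proj z : (Z → K) →ₗ[K] K) := by
          rw [h1]
          exact hf
        exact hz (LinearMap.mem_ker.1 h2.2)
      have h2 := Submodule.finrank_lt_finrank_of_lt hlt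
      obtain ⟨Q, hQ1, hQ2⟩ := ih (C ⊓ LinearMap.ker (LinearMap.proj z : (Z → K) →ₗ[K] K)) (by omega)
      refine ⟨insert z Q, (Finset.card_insert_le _ _).trans (by omega), fun g hg hg0 => ?_⟩
      refine hQ2 g ⟨hg, ?_⟩ fun z' hz' => hg0 z' (Finset.mem_insert_of_mem hz')
      exact LinearMap.mem_ker.2 (hg0 z (Finset.mem_insert_self _ _))

/-- Let `T x : V → (Z → ZMod p)` be pairwise distinct and additive, with range in `C` up to a common translation `T x0`,
`dim C ≤ r`, and suppose that for every `z` the functions `v ↦ T x v z` take at most `2^a` values (as functions). Then there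
are at most `2^(a r)` of them. (With `Q` from `exists_eval`, `x ↦ (z ∈ Q ↦ (v ↦ T x v z))` is injective on `s`: if `T x` and
`T x'` agree at all `z ∈ Q` then `T x v - T x' v = (T x v - T x0 v) - (T x' v - T x0 v) ∈ C` vanishes on `Q`.) -/
theorem count_from_points {p : ℕ} [Fact p.Prime] {X V Z : Type} [Finite Z] [Finite V] (T : X → V → Z → ZMod p)
    (s : Finset X) (hinj : Set.InjOn T s) (x0 : X) (C : Submodule (ZMod p) (Z → ZMod p)) (r a : ℕ)
    (hC : finrank (ZMod p) C ≤ r) (hr : ∀ x ∈ s, ∀ v, T x v - T x0 v ∈ C)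
    (hN : ∀ z, ((fun x v => T x v z) '' (s : Set X)).ncard ≤ 2 ^ a) : s.card ≤ 2 ^ (a * r) := by
  classical
  obtain ⟨Q, hQ, hQ2⟩ := exists_eval r C hC
  have hNc : ∀ z, (s.image (fun x v => T x v z)).card ≤ 2 ^ a := by
    intro z
    have h1 := hN z
    rw [← Finset.coe_image, Set.ncard_coe_finset] at h1
    exact h1
  have h1 : s.card ≤ (Fintype.piFinset (fun z : Q => s.image (fun x v => T x v z))).card := by
    apply Finset.card_le_card_of_injOn (fun x => fun z : Q => fun v => T x v z)
    · intro x hx
      rw [Finset.mem_coe, Fintype.mem_piFinset]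
      intro z
      exact Finset.mem_image_of_mem _ hx
    · intro x hx x' hx' h
      apply hinj hx hx'
      funext v
      have h2 : T x v - T x' v ∈ C := by
        have h3 : T x v - T x' v = (T x v - T x0 v) - (T x' v - T x0 v) := by abel
        rw [h3]
        exact C.sub_mem (hr x hx v) (hr x' hx' v)
      refine sub_eq_zero.1 (hQ2 _ h2 fun z hz => ?_)
      have h4 := congrFun (congrFun h ⟨z, hz⟩) v
      simp only at h4
      rw [Pi.sub_apply, h4, sub_self]
  refine h1.trans ?_
  rw [Fintype.card_piFinset]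
  refine (Finset.prod_le_prod' (fun (z : Q) _ => hNc z)).trans ?_
  rw [Finset.prod_const, Finset.card_univ, Fintype.card_coe, ← pow_mul]
  exact Nat.pow_le_pow_right (by norm_num) (Nat.mul_le_mul_left a hQ)

/-- The counting lemma. Let `T x : V → Z → ZMod p` be additive in `v`. If for every `v` the functions `T x v` take at most
`2^m` values, and for every `z` the functions `v ↦ T x v z` take at most `2^a` values, then the `T x` take at most
`2^((m+1)(m+a+2))` values.

Proof. Replace `X` by `Set.range T`, so that `T` is injective, `X` nonempty. `cluster` gives `x0` and `X1` with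
`|X| ≤ 2^(m+1) |X1|` and `rank (T x - T x0) ≤ m`; `common_image` for the maps `T x - T x0`, `C = ⊥`, `r = m` (translation by
`T x0` does not change the number of values) gives `X' ⊆ X1` with `|X1| ≤ 2 · 2^((m+2) m) |X'|` and `C'` of dimension `≤ m`;
`count_from_points` gives `|X'| ≤ 2^(a m)`. Total: `2^(m+1+1+(m+2)m+am) ≤ 2^((m+1)(m+a+2))`. Additive maps between
`ZMod p`-modules are linear (`AddMonoidHom.toZModLinearMap` or `map_zmod_smul`). -/
theorem family_count {p : ℕ} [Fact p.Prime] {X V Z : Type} [Finite X] [AddCommGroup V] [Module (ZMod p) V] [Fintype V]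
    [Finite Z] (T : X → V → Z → ZMod p) (hadd : ∀ x v v' z, T x (v + v') z = T x v z + T x v' z) (m a : ℕ)
    (hM : ∀ v, (Set.range (fun x => T x v)).ncard ≤ 2 ^ m)
    (hN : ∀ z, (Set.range (fun x v => T x v z)).ncard ≤ 2 ^ a) :
    (Set.range T).ncard ≤ 2 ^ ((m + 1) * (m + a + 2)) := by
  classical
  rcases isEmpty_or_nonempty X with hX | ⟨⟨x00⟩⟩
  · rw [Set.range_eq_empty, Set.ncard_empty]
    exact Nat.zero_le _
  haveI : Fintype (Set.range T) := Fintype.ofFinite _
  haveI : Nonempty (Set.range T) := ⟨⟨T x00, x00, rfl⟩⟩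
  have hadd' : ∀ (x : Set.range T) (v v' : V), x.1 (v + v') = x.1 v + x.1 v' := by
    rintro ⟨_, x, rfl⟩ v v'
    funext z
    exact hadd x v v' z
  let L : Set.range T → (V →ₗ[ZMod p] (Z → ZMod p)) := fun x =>
    (AddMonoidHom.mk' x.1 (hadd' x)).toZModLinearMap p
  have hL : ∀ x v, L x v = x.1 v := fun x v => rfl
  have hM' : ∀ v, (univ.image (fun x => L x v)).card ≤ 2 ^ m := by
    intro v
    refine le_trans (le_of_eq ?_) (hM v)
    rw [← Set.ncard_coe_finset, Finset.coe_image, Finset.coe_univ, Set.image_univ]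
    congr 1
    ext f
    constructor
    · rintro ⟨⟨_, x, rfl⟩, rfl⟩
      exact ⟨x, rfl⟩
    · rintro ⟨x, rfl⟩
      exact ⟨⟨T x, x, rfl⟩, rfl⟩
  obtain ⟨x0, X1, hX1, hrk⟩ := cluster L m hM'
  have hM2 : ∀ v, (X1.image (fun x => (L x - L x0) v)).card ≤ 2 ^ m := by
    intro v
    refine le_trans ?_ (hM' v)
    have h1 : X1.image (fun x => (L x - L x0) v) =
        (X1.image (fun x => L x v)).image (fun u => u - L x0 v) := by
      rw [Finset.image_image]
      rfl
    rw [h1]
    exact Finset.card_image_le.trans (Finset.card_le_card (Finset.image_subset_image (Finset.subset_univ _)))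
  obtain ⟨s', hs', hcard, C', hC', hran⟩ := common_image (fun x => L x - L x0) m m X1 ⊥ hM2 (by
    intro x hx
    rw [sup_bot_eq, finrank_bot, zero_add]
    exact hrk x hx)
  rw [finrank_bot, zero_add] at hC'
  have h3 := count_from_points (fun x : Set.range T => x.1) s'
    (fun x _ x' _ h => Subtype.ext h) x0 C' m a hC' (by
      intro x hx v
      exact hran x hx ⟨v, rfl⟩) (by
      intro z
      refine le_trans (Set.ncard_le_ncard ?_ (Set.toFinite _)) (hN z)
      rintro _ ⟨⟨_, x, rfl⟩, -, rfl⟩
      exact ⟨x, rfl⟩)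
  have h4 : (Set.range T).ncard = Fintype.card (Set.range T) := by
    rw [← Nat.card_coe_set_eq, Nat.card_eq_fintype_card]
  rw [h4]
  calc Fintype.card (Set.range T) ≤ 2 ^ (m + 1) * X1.card := hX1
    _ ≤ 2 ^ (m + 1) * (2 * 2 ^ ((m + 2) * m) * s'.card) := Nat.mul_le_mul_left _ hcard
    _ ≤ 2 ^ (m + 1) * (2 * 2 ^ ((m + 2) * m) * 2 ^ (a * m)) :=
        Nat.mul_le_mul_left _ (Nat.mul_le_mul_left _ h3)
    _ = 2 ^ (m + 1 + (1 + (m + 2) * m + a * m)) := by
        rw [pow_add 2 (m + 1), pow_add 2 (1 + (m + 2) * m), pow_add 2 1, pow_one]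
    _ ≤ 2 ^ ((m + 1) * (m + a + 2)) := by
        refine Nat.pow_le_pow_right (by norm_num) ?_
        nlinarith

/-- `mm a 0 = mm a 1 = a`, `mm a (e+1) = (mm a e + 1)(mm a e + a + 2)` for `e ≥ 1`. -/
def mm (a : ℕ) : ℕ → ℕ
  | 0 => a
  | 1 => a
  | (e + 2) => (mm a (e + 1) + 1) * (mm a (e + 1) + a + 2)

/-- Multiadditive functions. If `T x : V^e → ZMod p` is additive in each argument, and for every choice of all arguments but
one the additive functions `v ↦ T x (…, v, …)` take at most `2^a` values, then the `T x` take at most `2^(mm a e)` values.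

Induction on `e ≥ 1`. `e = 1`: `T x z = T x (update z 0 (z 0))`. For `e + 1`, `e ≥ 1`, apply `family_count` to
`T' x v z = T x (Fin.cons v z)`, `Z = Fin e → V`: for fixed `v` the functions `z ↦ T x (cons v z)` satisfy the hypotheses for
`e` (`Fin.cons_update`), and `v ↦ T x (cons v z)` is `v ↦ T x (update (cons 0 z) 0 v)` (`Fin.update_cons_zero`). Finally
`T ↦ T'` is injective (`Fin.cons_self_tail`). -/
theorem multi_count {p : ℕ} [Fact p.Prime] {V : Type} [AddCommGroup V] [Module (ZMod p) V] [Fintype V] (a e : ℕ)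
    (he : 1 ≤ e) : ∀ {X : Type} [Finite X] (T : X → (Fin e → V) → ZMod p),
    (∀ x k z v v', T x (Function.update z k (v + v')) = T x (Function.update z k v) + T x (Function.update z k v')) →
    (∀ k z, (Set.range (fun x v => T x (Function.update z k v))).ncard ≤ 2 ^ a) →
    (Set.range T).ncard ≤ 2 ^ (mm a e) := by
  induction e, he using Nat.le_induction with
  | base =>
    intro X _ T _ h2
    have h3 := h2 0 0
    refine le_trans ?_ h3
    have h4 : Set.range T = (fun (F : V → ZMod p) (z : Fin 1 → V) => F (z 0)) ''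
        Set.range (fun x v => T x (Function.update 0 0 v)) := by
      rw [← Set.range_comp]
      congr 1
      funext x z
      show T x z = T x (Function.update 0 0 (z 0))
      congr 1
      funext i
      rw [Subsingleton.elim i 0, Function.update_self]
    rw [h4]
    exact Set.ncard_image_le (Set.finite_range _)
  | succ e he ih =>
    intro X _ T h1 h2
    have h3 := family_count (fun x v z => T x (Fin.cons v z : Fin (e + 1) → V)) (by
      intro x v v' z
      have h4 := h1 x 0 (Fin.cons 0 z : Fin (e + 1) → V) v v'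
      rw [Fin.update_cons_zero, Fin.update_cons_zero, Fin.update_cons_zero] at h4
      exact h4) (mm a e) a (by
      intro v
      refine ih (fun x z => T x (Fin.cons v z : Fin (e + 1) → V)) ?_ ?_
      · intro x k z v1 v2
        have h4 := h1 x k.succ (Fin.cons v z : Fin (e + 1) → V) v1 v2
        rw [← Fin.cons_update, ← Fin.cons_update, ← Fin.cons_update] at h4
        exact h4
      · intro k z
        have h4 := h2 k.succ (Fin.cons v z : Fin (e + 1) → V)
        simp only [← Fin.cons_update] at h4
        exact h4) (by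
      intro z
      have h4 := h2 0 (Fin.cons 0 z : Fin (e + 1) → V)
      simp only [Fin.update_cons_zero] at h4
      exact h4)
    have h5 : mm a (e + 1) = (mm a e + 1) * (mm a e + a + 2) := by
      obtain ⟨e', rfl⟩ : ∃ e', e = e' + 1 := ⟨e - 1, by omega⟩
      rfl
    rw [h5]
    refine le_trans ?_ h3
    have h6 : Set.range T = (fun (F : V → (Fin e → V) → ZMod p) (z : Fin (e + 1) → V) =>
        F (z 0) (Fin.tail z)) '' Set.range (fun x v z => T x (Fin.cons v z : Fin (e + 1) → V)) := by
      rw [← Set.range_comp]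
      congr 1
      funext x z
      show T x z = T x (Fin.cons (z 0) (Fin.tail z))
      rw [Fin.cons_self_tail]
    rw [h6]
    exact Set.ncard_image_le (Set.finite_range _)

end Pool.Agent.H.MP_dd1c2e_lc
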