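import Mathlib
import Pool.Agent.H.MP_dd1c2e_lc.Cut

/-!
# Shearer's inequality for numbers of restrictions
-/

namespace Pool.Agent.H.MP_dd1c2e_lc

open Finset

/-- The restriction of `f` to the set `s` (zero outside `s`). -/
def res {J K : Type} [Zero K] [DecidableEq J] (s : Finset J) (f : J → K) : J → K := fun j => if j ∈ s then f j else 0

/-- Generalised Hölder inequality for `k ≥ 1` families: `∑ a, ∏ i < k, (x i a)^(1/k) ≤ ∏ i < k, (∑ a, x i a)^(1/k)` for
nonnegative reals. (If all sums `X i = ∑ a, x i a` are positive, divide by the right side and use the inequality of the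
geometric and the arithmetic mean for each `a`; if some `X i = 0`, both sides vanish.) -/
theorem holder {A I : Type} [Fintype I] [Nonempty I] (s : Finset A) (x : I → A → ℝ) (h : ∀ i a, 0 ≤ x i a) :
    ∑ a ∈ s, ∏ i, (x i a) ^ ((1 : ℝ) / Fintype.card I) ≤ ∏ i, (∑ a ∈ s, x i a) ^ ((1 : ℝ) / Fintype.card I) := by
  have hk : (0 : ℝ) < Fintype.card I := by exact_mod_cast Fintype.card_pos
  have hr : (0 : ℝ) < 1 / Fintype.card I := by positivity
  have hX : ∀ i, 0 ≤ ∑ a ∈ s, x i a := fun i => Finset.sum_nonneg fun a _ => h i a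
  by_cases h0 : ∃ i, ∑ a ∈ s, x i a = 0
  · obtain ⟨i, hi⟩ := h0
    have h1 : ∀ a ∈ s, x i a = 0 := (Finset.sum_eq_zero_iff_of_nonneg fun a _ => h i a).1 hi
    have h2 : ∑ a ∈ s, ∏ i, (x i a) ^ ((1 : ℝ) / Fintype.card I) = 0 := by
      apply Finset.sum_eq_zero
      intro a ha
      apply Finset.prod_eq_zero (Finset.mem_univ i)
      rw [h1 a ha]
      exact Real.zero_rpow hr.ne'
    rw [h2]
    exact Finset.prod_nonneg fun i _ => Real.rpow_nonneg (hX i) _
  · push Not at h0
    have hX' : ∀ i, 0 < ∑ a ∈ s, x i a := fun i => lt_of_le_of_ne (hX i) (h0 i).symm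
    have hP : 0 < ∏ i, (∑ a ∈ s, x i a) ^ ((1 : ℝ) / Fintype.card I) :=
      Finset.prod_pos fun i _ => Real.rpow_pos_of_pos (hX' i) _
    have h3 : ∀ a ∈ s, (∏ i, (x i a) ^ ((1 : ℝ) / Fintype.card I)) /
        ∏ i, (∑ a ∈ s, x i a) ^ ((1 : ℝ) / Fintype.card I) ≤
        ∑ i, (1 / Fintype.card I : ℝ) * (x i a / ∑ a ∈ s, x i a) := by
      intro a _
      rw [← Finset.prod_div_distrib]
      have h4 := Real.geom_mean_le_arith_mean_weighted Finset.univ
        (fun _ : I => (1 / Fintype.card I : ℝ)) (fun i => x i a / ∑ a ∈ s, x i a)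
        (fun _ _ => hr.le) (by
          rw [Finset.sum_const, Finset.card_univ, nsmul_eq_mul]
          field_simp) (fun i _ => div_nonneg (h i a) (hX i))
      refine le_trans (le_of_eq ?_) h4
      apply Finset.prod_congr rfl
      intro i _
      rw [Real.div_rpow (h i a) (hX i)]
    have h5 : (∑ a ∈ s, ∏ i, (x i a) ^ ((1 : ℝ) / Fintype.card I)) /
        ∏ i, (∑ a ∈ s, x i a) ^ ((1 : ℝ) / Fintype.card I) ≤ 1 := by
      rw [Finset.sum_div]
      refine (Finset.sum_le_sum h3).trans ?_
      rw [Finset.sum_comm]
      have h6 : ∀ i, ∑ a ∈ s, (1 / Fintype.card I : ℝ) * (x i a / ∑ a ∈ s, x i a) =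
          1 / Fintype.card I := by
        intro i
        rw [← Finset.mul_sum, ← Finset.sum_div, div_self (hX' i).ne', mul_one]
      rw [Finset.sum_congr rfl fun i _ => h6 i, Finset.sum_const, Finset.card_univ, nsmul_eq_mul]
      apply le_of_eq
      field_simp
    rw [div_le_one hP] at h5
    exact h5

theorem Shearer_res_upd {J K : Type} [Zero K] [DecidableEq J] (S : Finset J) (j : J) (f : J → K) :
    res S (Function.update f j 0) = Function.update (res S f) j 0 := by
  funext i
  unfold res
  by_cases hij : i = j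
  · subst hij
    simp
  · simp [Function.update_of_ne hij]

open Classical in
theorem Shearer_fin {J K C : Type} [Zero K] [DecidableEq J] [Fintype C] (s : Finset J)
    (S : C → Finset J) (k : ℕ) (hk : 1 ≤ k) :
    (∀ j ∈ s, k ≤ (univ.filter (fun c => j ∈ S c)).card) →
    ∀ F : Finset (J → K), (∀ f ∈ F, ∀ j, j ∉ s → f j = 0) →
      F.card ^ k ≤ ∏ c, (F.image (res (S c))).card := by
  induction s using Finset.induction_on with
  | empty =>
    intro _ F hF
    rcases F.eq_empty_or_nonempty with rfl | hne
    · rw [Finset.card_empty, zero_pow (by omega)]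
      exact Nat.zero_le _
    · have h1 : F.card ≤ 1 := by
        apply Finset.card_le_one.2
        intro f hf g hg
        funext j
        rw [hF f hf j (by simp), hF g hg j (by simp)]
      calc F.card ^ k ≤ 1 ^ k := Nat.pow_le_pow_left h1 k
        _ = ∏ c : C, 1 := by simp
        _ ≤ _ := Finset.prod_le_prod' fun c _ => Finset.card_pos.2 (hne.image _)
  | insert j s hj ih =>
    intro hcov F hF
    have ih' := ih fun i hi => hcov i (Finset.mem_insert_of_mem hi)
    obtain ⟨C', hC', hC'k⟩ := Finset.exists_subset_card_eq (hcov j (Finset.mem_insert_self j s))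
    have hC'j : ∀ c ∈ C', j ∈ S c := fun c hc => (Finset.mem_filter.1 (hC' hc)).2
    set A : Finset K := F.image (fun f => f j) with hA
    set Fa : K → Finset (J → K) := fun a =>
      (F.filter fun f => f j = a).image (fun f => Function.update f j 0) with hFa
    have hcardA : F.card = ∑ a ∈ A, (Fa a).card := by
      rw [Finset.card_eq_sum_card_image (fun f => f j) F]
      apply Finset.sum_congr rfl
      intro a _
      rw [hFa, Finset.card_image_of_injOn]
      intro f hf g hg hfg
      have hf' := (Finset.mem_filter.1 (Finset.mem_coe.1 hf)).2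
      have hg' := (Finset.mem_filter.1 (Finset.mem_coe.1 hg)).2
      funext i
      by_cases hij : i = j
      · rw [hij, hf', hg']
      · have h1 := congrFun hfg i
        simp only [Function.update_of_ne hij] at h1
        exact h1
    have hIH : ∀ a, (Fa a).card ^ k ≤ ∏ c, ((Fa a).image (res (S c))).card := by
      intro a
      apply ih'
      intro g hg i hi
      rw [hFa, Finset.mem_image] at hg
      obtain ⟨f, hf, rfl⟩ := hg
      by_cases hij : i = j
      · rw [hij, Function.update_self]
      · rw [Function.update_of_ne hij]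
        apply hF f (Finset.mem_filter.1 hf).1
        rw [Finset.mem_insert]
        push Not
        exact ⟨hij, hi⟩
    have hout : ∀ a c, ((Fa a).image (res (S c))).card ≤ (F.image (res (S c))).card := by
      intro a c
      have h1 : (Fa a).image (res (S c)) ⊆
          (F.image (res (S c))).image (fun g => Function.update g j 0) := by
        intro g hg
        rw [Finset.mem_image] at hg
        obtain ⟨g', hg', rfl⟩ := hg
        rw [hFa, Finset.mem_image] at hg'
        obtain ⟨f, hf, rfl⟩ := hg'
        rw [Shearer_res_upd]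
        exact Finset.mem_image_of_mem _ (Finset.mem_image_of_mem _ (Finset.mem_filter.1 hf).1)
      exact (Finset.card_le_card h1).trans Finset.card_image_le
    have hin : ∀ c ∈ C', ∑ a ∈ A, ((Fa a).image (res (S c))).card ≤
        (F.image (res (S c))).card := by
      intro c hc
      have hjc := hC'j c hc
      have hres : ∀ f : J → K, res (S c) f j = f j := fun f => if_pos hjc
      have h0 : ∀ g ∈ F.image (res (S c)), g j ∈ A := by
        intro g hg
        rw [Finset.mem_image] at hg
        obtain ⟨f, hf, rfl⟩ := hg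
        rw [hres]
        exact Finset.mem_image_of_mem _ hf
      rw [Finset.card_eq_sum_card_fiberwise (f := fun g => g j) (t := A) (fun g hg => h0 g hg)]
      apply Finset.sum_le_sum
      intro a _
      have h1 : (Fa a).image (res (S c)) ⊆
          ((F.image (res (S c))).filter fun g => g j = a).image
            (fun g => Function.update g j 0) := by
        intro g hg
        rw [Finset.mem_image] at hg
        obtain ⟨g', hg', rfl⟩ := hg
        rw [hFa, Finset.mem_image] at hg'
        obtain ⟨f, hf, rfl⟩ := hg'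
        rw [Shearer_res_upd]
        apply Finset.mem_image_of_mem
        rw [Finset.mem_filter, hres]
        exact ⟨Finset.mem_image_of_mem _ (Finset.mem_filter.1 hf).1, (Finset.mem_filter.1 hf).2⟩
      exact (Finset.card_le_card h1).trans Finset.card_image_le
    -- real numbers
    have hk0 : (k : ℝ) ≠ 0 := by
      have : (0 : ℝ) < k := by exact_mod_cast hk
      exact this.ne'
    have hkinv : (0 : ℝ) ≤ 1 / (k : ℝ) := by positivity
    have hroot : ∀ a, ((Fa a).card : ℝ) ≤
        ∏ c, (((Fa a).image (res (S c))).card : ℝ) ^ (1 / (k : ℝ)) := by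
      intro a
      have h1 : ((Fa a).card : ℝ) ^ k ≤ ∏ c, (((Fa a).image (res (S c))).card : ℝ) := by
        exact_mod_cast hIH a
      rw [Real.finset_prod_rpow _ _ (fun c _ => Nat.cast_nonneg _)]
      calc ((Fa a).card : ℝ) = (((Fa a).card : ℝ) ^ k) ^ (1 / (k : ℝ)) := by
            rw [← Real.rpow_natCast, ← Real.rpow_mul (Nat.cast_nonneg _), mul_one_div_cancel hk0,
              Real.rpow_one]
        _ ≤ _ := Real.rpow_le_rpow (by positivity) h1 hkinv
    have hsplit : ∀ g : C → ℝ, ∏ c, g c = (∏ c ∈ C'ᶜ, g c) * ∏ c ∈ C', g c := by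
      intro g
      rw [mul_comm]
      exact (Finset.prod_mul_prod_compl C' g).symm
    have hCne : Nonempty C' := by
      have : 0 < C'.card := by omega
      obtain ⟨c, hc⟩ := Finset.card_pos.1 this
      exact ⟨⟨c, hc⟩⟩
    have hkC : Fintype.card C' = k := by rw [Fintype.card_coe, hC'k]
    have hmain : (F.card : ℝ) ≤ ∏ c, ((F.image (res (S c))).card : ℝ) ^ (1 / (k : ℝ)) := by
      calc (F.card : ℝ) = ∑ a ∈ A, ((Fa a).card : ℝ) := by
            rw [hcardA]
            push_cast
            rfl
        _ ≤ ∑ a ∈ A, ∏ c, (((Fa a).image (res (S c))).card : ℝ) ^ (1 / (k : ℝ)) :=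
            Finset.sum_le_sum fun a _ => hroot a
        _ ≤ ∑ a ∈ A, (∏ c ∈ C'ᶜ, ((F.image (res (S c))).card : ℝ) ^ (1 / (k : ℝ))) *
              ∏ c ∈ C', (((Fa a).image (res (S c))).card : ℝ) ^ (1 / (k : ℝ)) := by
            apply Finset.sum_le_sum
            intro a _
            rw [hsplit]
            apply mul_le_mul_of_nonneg_right
            · apply Finset.prod_le_prod
              · intro c _
                exact Real.rpow_nonneg (Nat.cast_nonneg _) _
              · intro c _
                exact Real.rpow_le_rpow (Nat.cast_nonneg _) (by exact_mod_cast hout a c) hkinv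
            · exact Finset.prod_nonneg fun c _ => Real.rpow_nonneg (Nat.cast_nonneg _) _
        _ = (∏ c ∈ C'ᶜ, ((F.image (res (S c))).card : ℝ) ^ (1 / (k : ℝ))) *
              ∑ a ∈ A, ∏ c : C', (((Fa a).image (res (S c))).card : ℝ) ^
                ((1 : ℝ) / Fintype.card C') := by
            rw [Finset.mul_sum]
            apply Finset.sum_congr rfl
            intro a _
            rw [hkC, Finset.prod_coe_sort C'
              (fun c => (((Fa a).image (res (S c))).card : ℝ) ^ (1 / (k : ℝ)))]
        _ ≤ (∏ c ∈ C'ᶜ, ((F.image (res (S c))).card : ℝ) ^ (1 / (k : ℝ))) *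
              ∏ c : C', (∑ a ∈ A, (((Fa a).image (res (S c))).card : ℝ)) ^
                ((1 : ℝ) / Fintype.card C') := by
            apply mul_le_mul_of_nonneg_left
            · exact holder A (fun (c : C') a => (((Fa a).image (res (S c))).card : ℝ))
                (fun _ _ => Nat.cast_nonneg _)
            · exact Finset.prod_nonneg fun c _ => Real.rpow_nonneg (Nat.cast_nonneg _) _
        _ ≤ (∏ c ∈ C'ᶜ, ((F.image (res (S c))).card : ℝ) ^ (1 / (k : ℝ))) *
              ∏ c ∈ C', ((F.image (res (S c))).card : ℝ) ^ (1 / (k : ℝ)) := by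
            apply mul_le_mul_of_nonneg_left
            · rw [hkC, ← Finset.prod_coe_sort C'
                (fun c => ((F.image (res (S c))).card : ℝ) ^ (1 / (k : ℝ)))]
              apply Finset.prod_le_prod
              · intro c _
                exact Real.rpow_nonneg (Finset.sum_nonneg fun _ _ => Nat.cast_nonneg _) _
              · intro c _
                apply Real.rpow_le_rpow (Finset.sum_nonneg fun _ _ => Nat.cast_nonneg _) _ hkinv
                exact_mod_cast hin c c.2
            · exact Finset.prod_nonneg fun c _ => Real.rpow_nonneg (Nat.cast_nonneg _) _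
        _ = _ := (hsplit _).symm
    have hfin : (F.card : ℝ) ^ k ≤ ∏ c, ((F.image (res (S c))).card : ℝ) := by
      calc (F.card : ℝ) ^ k ≤ (∏ c, ((F.image (res (S c))).card : ℝ) ^ (1 / (k : ℝ))) ^ k :=
            pow_le_pow_left₀ (Nat.cast_nonneg _) hmain k
        _ = ∏ c, ((F.image (res (S c))).card : ℝ) := by
            rw [← Finset.prod_pow]
            apply Finset.prod_congr rfl
            intro c _
            rw [← Real.rpow_natCast, ← Real.rpow_mul (Nat.cast_nonneg _), one_div_mul_cancel hk0,
              Real.rpow_one]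
    exact_mod_cast hfin

/-- Shearer's inequality. Let `𝓕` be a finite set of functions `J → K` that vanish outside the finite set `s`, and let
`S c`, `c ∈ C`, be sets such that every `j ∈ s` lies in at least `k ≥ 1` of them. Then
`|𝓕|^k ≤ ∏ c, |{res (S c) f : f ∈ 𝓕}|`.

Proof by induction on `s`. If `s = ∅` then `|𝓕| ≤ 1` (and if `𝓕` is empty the left side is `0`). For `insert j s`: for
`a ∈ K` let `𝓕 a` be the set of the functions `f ∈ 𝓕` with `f j = a`, changed to `0` at `j`; `|𝓕| = ∑ a |𝓕 a|`. Let `C'` be a
set of exactly `k` indices `c` with `j ∈ S c`. By induction `|𝓕 a|^k ≤ ∏ c |res (S c) 𝓕 a|`; for `c ∉ C'` use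
`|res (S c) (𝓕 a)| ≤ |res (S c) 𝓕|`, and for `c ∈ C'` we have `∑ a |res (S c) (𝓕 a)| = |res (S c) 𝓕|`. Hence
`|𝓕| = ∑ a |𝓕 a| ≤ ∏_{c ∉ C'} |res (S c) 𝓕|^(1/k) ∑ a ∏_{c ∈ C'} |res (S c) (𝓕 a)|^(1/k) ≤ ∏ c |res (S c) 𝓕|^(1/k)` by
`holder`. -/
theorem shearer {J K C : Type} [Zero K] [DecidableEq J] [Finite J] [DecidableEq K] [Fintype C] (s : Finset J)
    (S : C → Finset J) (k : ℕ) (hk : 1 ≤ k) (hcov : ∀ j ∈ s, k ≤ (univ.filter (fun c => j ∈ S c)).card) :
    ∀ F : Set (J → K), F.Finite → (∀ f ∈ F, ∀ j, j ∉ s → f j = 0) →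
      F.ncard ^ k ≤ ∏ c, (res (S c) '' F).ncard := by
  classical
  intro F hFfin hF
  have h1 := Shearer_fin s S k hk hcov hFfin.toFinset (by
    intro f hf
    exact hF f (hFfin.mem_toFinset.1 hf))
  rw [Set.ncard_eq_toFinset_card F hFfin]
  refine h1.trans (le_of_eq ?_)
  apply Finset.prod_congr rfl
  intro c _
  rw [← Set.ncard_coe_finset, Finset.coe_image, Set.Finite.coe_toFinset]

/-- The form that is used: if `f x : J → K`, `x ∈ X`, are functions, every coordinate `j` at which some `f x` is nonzero lies
in at least `card C / D` of the sets `S c`, and for every `c` the restrictions take at most `2^m` values, then the functions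
`f x` take at most `2^(D m)` values. (Let `s` be the set of these coordinates, `k` the minimum of the covering numbers over
`s` (if `s = ∅` all functions are zero), so `card C ≤ D k`, `k ≥ 1`; `|F|^k ≤ 2^(m card C) ≤ (2^(m D))^k`.) -/
theorem shearer_count {J K X C : Type} [Zero K] [DecidableEq J] [Fintype J] [Finite X] [Fintype C] [Nonempty C]
    (f : X → J → K) (S : C → Finset J) (D m : ℕ)
    (hcov : ∀ j, (∃ x, f x j ≠ 0) → Fintype.card C ≤ D * (univ.filter (fun c => j ∈ S c)).card)
    (hm : ∀ c, (Set.range (fun x => res (S c) (f x))).ncard ≤ 2 ^ m) : (Set.range f).ncard ≤ 2 ^ (D * m) := by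
  classical
  set s : Finset J := univ.filter fun j => ∃ x, f x j ≠ 0 with hs
  have hvan : ∀ g ∈ Set.range f, ∀ j, j ∉ s → g j = 0 := by
    rintro g ⟨x, rfl⟩ j hj
    by_contra h
    exact hj (Finset.mem_filter.2 ⟨Finset.mem_univ _, x, h⟩)
  rcases s.eq_empty_or_nonempty with he | hne
  · have h1 : Set.range f ⊆ {0} := by
      intro g hg
      rw [Set.mem_singleton_iff]
      funext j
      exact hvan g hg j (by rw [he]; simp)
    calc (Set.range f).ncard ≤ ({0} : Set (J → K)).ncard :=
          Set.ncard_le_ncard h1 (Set.finite_singleton 0)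
      _ = 1 := Set.ncard_singleton 0
      _ ≤ _ := Nat.one_le_two_pow
  · obtain ⟨j0, hj0, hmin⟩ := Finset.exists_min_image s
      (fun j => (univ.filter (fun c => j ∈ S c)).card) hne
    set k := (univ.filter (fun c => j0 ∈ S c)).card with hkdef
    have hCk : Fintype.card C ≤ D * k := hcov j0 (Finset.mem_filter.1 hj0).2
    have hC0 : 0 < Fintype.card C := Fintype.card_pos
    have hk : 1 ≤ k := by
      rcases Nat.eq_zero_or_pos k with h | h
      · rw [h, Nat.mul_zero] at hCk
        omega
      · exact h
    have h1 := shearer s S k hk hmin (Set.range f) (Set.finite_range f) hvan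
    have h2 : (Set.range f).ncard ^ k ≤ (2 ^ (D * m)) ^ k := by
      refine h1.trans ?_
      calc ∏ c, (res (S c) '' Set.range f).ncard ≤ ∏ c : C, 2 ^ m := by
            apply Finset.prod_le_prod'
            intro c _
            rw [← Set.range_comp]
            exact hm c
        _ = 2 ^ (m * Fintype.card C) := by
            rw [Finset.prod_const, Finset.card_univ, pow_mul]
        _ ≤ 2 ^ (D * m * k) := by
            apply Nat.pow_le_pow_right (by norm_num)
            calc m * Fintype.card C ≤ m * (D * k) := Nat.mul_le_mul_left m hCk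
              _ = D * m * k := by ring
        _ = _ := by rw [pow_mul]
    exact (Nat.pow_le_pow_iff_left (by omega)).1 h2

/-- A set with `a ≥ 1` elements is rainbow for at least the fraction `a^(-a)` of all colourings. Fix a bijection
`I → Fin a`; every colouring extending it is rainbow, and there are `a^(n - a)` of them (`Fintype.card_piFinset`); and
`a^n = a^a * a^(n-a)`. -/
theorem rainbow_count {n a : ℕ} (ha : 1 ≤ a) (I : Finset (Fin n)) (hI : I.card = a) :
    Fintype.card (Fin n → Fin a) ≤ a ^ a * (univ.filter (fun χ : Fin n → Fin a => Rainbow χ I)).card := by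
  classical
  set e := Finset.equivFinOfCardEq hI with he
  set mod : (Fin n → Fin a) → (Fin n → Fin a) := fun χ i =>
    if h : i ∈ I then e ⟨i, h⟩ else χ i with hmod
  have hrb : ∀ χ, Rainbow (mod χ) I := by
    intro χ
    refine ⟨hI, ?_⟩
    rw [Finset.eq_univ_iff_forall]
    intro b
    rw [Finset.mem_image]
    refine ⟨(e.symm b).1, (e.symm b).2, ?_⟩
    simp only [hmod]
    rw [dif_pos (e.symm b).2]
    simp
  have hinj : Function.Injective (fun χ : Fin n → Fin a =>
      ((fun i : I => χ i, ⟨mod χ, Finset.mem_filter.2 ⟨Finset.mem_univ _, hrb χ⟩⟩) :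
        (I → Fin a) × (univ.filter (fun χ : Fin n → Fin a => Rainbow χ I)))) := by
    intro χ χ' h
    simp only [Prod.mk.injEq, Subtype.mk.injEq] at h
    obtain ⟨h1, h2⟩ := h
    funext i
    by_cases hi : i ∈ I
    · exact congrFun h1 ⟨i, hi⟩
    · have h3 := congrFun h2 i
      simp only [hmod, dif_neg hi] at h3
      exact h3
  have h1 := Fintype.card_le_of_injective _ hinj
  have h2 : Fintype.card (I → Fin a) = a ^ a := by
    rw [Fintype.card_fun, Fintype.card_fin, Fintype.card_coe, hI]
  rw [Fintype.card_prod, Fintype.card_coe, h2] at h1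
  exact h1

end Pool.Agent.H.MP_dd1c2e_lc
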