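import Mathlib
import Pool.Agent.H.MP_dd1c2e_lc.Base
import Pool.Agent.H.MP_dd1c2e_lc.FamC
import Pool.Agent.H.MP_dd1c2e_lc.Shearer

/-!
# The coefficients of top degree take few values
-/

namespace Pool.Agent.H.MP_dd1c2e_lc

open Finset

theorem top_mono {X Y : Type} {Φ : X → Y → ℂ} {ε ε' g g' : ℝ} (h : Apx Φ ε g) (h1 : ε ≤ ε')
    (h2 : g ≤ g') : Apx Φ ε' g' := by
  obtain ⟨A, hA, hB⟩ := h
  exact ⟨A, hA.mono h2, fun x y => (hB x y).trans h1⟩

/-- The phase of `TX` is a product of at most `(2 p)^a` pulled back phases of the polynomial or their conjugates (`TX_eq`,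
`ep_sum`, `ep_neg`, `Apx.prod`, `Apx.pull`, `Apx.conj`); the index set `(Fin a → Fin (p-1)) × Finset (Fin a)` has
`(p-1)^a 2^a ≤ (2 p)^a` elements. Then weaken the error and the norm by monotonicity (`ε ≥ 0`, `1 ≤ 2^L`). -/
theorem TX_apx {p n a : ℕ} [Fact p.Prime] {X : Type} (co : X → Finset (Fin n) → ZMod p)
    (h : ∀ x J, a < J.card → co x J = 0) (χ : Fin n → Fin a)
    (ε : ℝ) (hε : 0 ≤ ε) (hε2 : (1 + ε) ^ ((2 * p) ^ a) - 1 ≤ 1 / 2) (L : ℕ)
    (hA : Apx (fun x y => ep p (P1 (co x) y)) ε ((2 : ℝ) ^ L)) :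
    Apx (fun x y => ep p (TX (co x) χ y)) (1 / 2) ((2 : ℝ) ^ (L * (2 * p) ^ a)) := by
  obtain ⟨N, hN⟩ : ∃ N : ℕ, N = (univ : Finset ((Fin a → Fin (p - 1)) × Finset (Fin a))).card :=
    ⟨_, rfl⟩
  have hN2 : N ≤ (2 * p) ^ a := by
    rw [hN, Finset.card_univ, Fintype.card_prod, Fintype.card_fun, Fintype.card_finset,
      Fintype.card_fin, Fintype.card_fin, ← mul_pow]
    exact Nat.pow_le_pow_left (by rw [mul_comm]; exact Nat.mul_le_mul_left 2 (Nat.sub_le p 1)) a
  have h1 := Apx.prod (univ : Finset ((Fin a → Fin (p - 1)) × Finset (Fin a)))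
    (fun c (x : X) (y : Fin a → Fin n → ZMod p) =>
      ep p ((-1) ^ (c.2ᶜ).card * P1 (co x) (cutv χ c.1 c.2 y))) (ε := ε) (g := (2 : ℝ) ^ L) hε (by
      rintro ⟨t, S⟩ -
      rcases neg_one_pow_eq_or (ZMod p) (Sᶜ).card with hs | hs
      · simp only [hs, one_mul]
        exact hA.pull id (cutv χ t S)
      · simp only [hs, neg_one_mul, ep_neg]
        exact hA.conj.pull id (cutv χ t S)) (fun c _ x y => ep_norm p _)
  rw [← hN] at h1
  have h2 : (fun (x : X) (y : Fin a → Fin n → ZMod p) => ep p (TX (co x) χ y)) =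
      fun x y => ∏ c ∈ (univ : Finset ((Fin a → Fin (p - 1)) × Finset (Fin a))),
        ep p ((-1) ^ (c.2ᶜ).card * P1 (co x) (cutv χ c.1 c.2 y)) := by
    funext x y
    rw [TX_eq (co x) (h x) χ y, ← ep_sum]
    congr 1
    rw [Fintype.sum_prod_type]
  rw [h2]
  refine top_mono h1 ?_ ?_
  · refine le_trans ?_ hε2
    have := pow_le_pow_right₀ (show (1 : ℝ) ≤ 1 + ε by linarith) hN2
    linarith
  · rw [← pow_mul]
    exact pow_le_pow_right₀ (by norm_num) (Nat.mul_le_mul_left L hN2)

/-- Hence the forms `TX (co x) χ` take few values: the slices `v ↦ TX (co x) χ (update y k v)` are additive and approximable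
(`Apx.pull`), so they take at most `2^(2 L (2p)^a + 2)` values (`count_of_apx`); `multi_count`. -/
theorem TX_count {p n a : ℕ} [Fact p.Prime] (ha : 1 ≤ a) {X : Type} [Finite X] (co : X → Finset (Fin n) → ZMod p)
    (h : ∀ x J, a < J.card → co x J = 0) (χ : Fin n → Fin a)
    (ε : ℝ) (hε : 0 ≤ ε) (hε2 : (1 + ε) ^ ((2 * p) ^ a) - 1 ≤ 1 / 2) (L : ℕ)
    (hA : Apx (fun x y => ep p (P1 (co x) y)) ε ((2 : ℝ) ^ L)) :
    (Set.range (fun x => TX (co x) χ)).ncard ≤ 2 ^ (mm (2 * (L * (2 * p) ^ a) + 2) a) := by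
  refine multi_count (p := p) (V := Fin n → ZMod p) _ a ha (fun x => TX (co x) χ) ?_ ?_
  · intro x k z v v'
    exact TX_add (co x) χ k z v v'
  · intro k z
    exact count_of_apx p (fun x v => TX (co x) χ (Function.update z k v))
      (fun x v v' => TX_add (co x) χ k z v v') (L * (2 * p) ^ a)
      ((TX_apx co h χ ε hε hε2 L hA).pull id (fun v => Function.update z k v))

/-- The top degree coefficients take at most `2^(a^a mm(…))` values: for every colouring `χ` the rainbow part of `co x` is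
determined by `TX (co x) χ` (`TX_vec`), so it takes at most `2^(mm …)` values; `shearer_count` with `C = (Fin n → Fin a)`,
`S χ` the rainbow sets, `D = a^a` (`rainbow_count`). -/
theorem top_count {p n a : ℕ} [Fact p.Prime] (ha : 1 ≤ a) {X : Type} [Finite X] (co : X → Finset (Fin n) → ZMod p)
    (h : ∀ x J, a < J.card → co x J = 0)
    (ε : ℝ) (hε : 0 ≤ ε) (hε2 : (1 + ε) ^ ((2 * p) ^ a) - 1 ≤ 1 / 2) (L : ℕ)
    (hA : Apx (fun x y => ep p (P1 (co x) y)) ε ((2 : ℝ) ^ L)) :
    (Set.range (fun x J => if J.card = a then co x J else 0)).ncard ≤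
      2 ^ (a ^ a * mm (2 * (L * (2 * p) ^ a) + 2) a) := by
  classical
  have : Nonempty (Fin n → Fin a) := ⟨fun _ => ⟨0, by omega⟩⟩
  refine shearer_count (fun x J => if J.card = a then co x J else 0)
    (fun χ : Fin n → Fin a => univ.filter (fun J => Rainbow χ J)) (a ^ a)
    (mm (2 * (L * (2 * p) ^ a) + 2) a) ?_ ?_
  · rintro J ⟨x, hx⟩
    have hJ : J.card = a := by
      by_contra hc
      exact hx (if_neg hc)
    refine (rainbow_count ha J hJ).trans (le_of_eq ?_)
    congr 2
    ext χ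
    simp
  · intro χ
    refine le_trans ?_ (TX_count ha co h χ ε hε hε2 L hA)
    have h1 : Set.range (fun x => res (univ.filter (fun J => Rainbow χ J))
        (fun J => if J.card = a then co x J else 0)) =
        (fun (F : (Fin a → Fin n → ZMod p) → ZMod p) (J : Finset (Fin n)) =>
          if Rainbow χ J then F (fun _ j => if j ∈ J then 1 else 0) else 0) ''
          Set.range (fun x => TX (co x) χ) := by
      rw [← Set.range_comp]
      congr 1
      funext x J
      unfold res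
      simp only [Finset.mem_filter, Finset.mem_univ, true_and, Function.comp_apply]
      split_ifs with h2 h3
      · exact (TX_vec (co x) χ J h2).symm
      · exact absurd h2.1 h3
      · rfl
    rw [h1]
    exact Set.ncard_image_le (Set.finite_range _)

end Pool.Agent.H.MP_dd1c2e_lc
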