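import Mathlib
import Pool.Agent.H.MP_dd1c2e_lc.Top

/-!
# The main induction
-/

namespace Pool.Agent.H.MP_dd1c2e_lc

open Finset

/-- `f` is bounded by a polynomial. -/
def PolyB (f : ℕ → ℕ) : Prop := ∃ C c : ℕ, ∀ L, f L ≤ C * (L + 1) ^ c

theorem PolyB.const (k : ℕ) : PolyB (fun _ => k) := by
  exact ⟨k, 0, fun L => by simp⟩

theorem PolyB.id : PolyB (fun L => L) := by
  exact ⟨1, 1, fun L => by simp⟩

theorem PolyB.add {f g : ℕ → ℕ} (hf : PolyB f) (hg : PolyB g) : PolyB (fun L => f L + g L) := by
  obtain ⟨C, c, h⟩ := hf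
  obtain ⟨C', c', h'⟩ := hg
  refine ⟨C + C', c + c', fun L => ?_⟩
  have h1 : C * (L + 1) ^ c ≤ C * (L + 1) ^ (c + c') :=
    Nat.mul_le_mul_left _ (Nat.pow_le_pow_right (Nat.succ_pos L) (Nat.le_add_right _ _))
  have h2 : C' * (L + 1) ^ c' ≤ C' * (L + 1) ^ (c + c') :=
    Nat.mul_le_mul_left _ (Nat.pow_le_pow_right (Nat.succ_pos L) (Nat.le_add_left _ _))
  rw [Nat.add_mul]
  exact Nat.add_le_add ((h L).trans h1) ((h' L).trans h2)

theorem PolyB.mul {f g : ℕ → ℕ} (hf : PolyB f) (hg : PolyB g) : PolyB (fun L => f L * g L) := by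
  obtain ⟨C, c, h⟩ := hf
  obtain ⟨C', c', h'⟩ := hg
  refine ⟨C * C', c + c', fun L => ?_⟩
  refine (Nat.mul_le_mul (h L) (h' L)).trans (le_of_eq ?_)
  rw [pow_add]
  ring

theorem PolyB.mm (e : ℕ) {f : ℕ → ℕ} (hf : PolyB f) : PolyB (fun L => mm (f L) e) := by
  induction e with
  | zero => exact hf
  | succ e ih =>
    rcases e with _ | e
    · exact hf
    · exact (ih.add (PolyB.const 1)).mul ((ih.add hf).add (PolyB.const 2))

/-- Counting by fibres: if `g` takes at most `M` values and on each fibre of `g` the function `f` takes at most `B` values,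
then `f` takes at most `M B` values. -/
theorem ncard_fibres {X A B : Type} [Finite X] (f : X → A) (g : X → B) (M N : ℕ) (hg : (Set.range g).ncard ≤ M)
    (hf : ∀ b, (Set.range (fun x : {x : X // g x = b} => f x.1)).ncard ≤ N) : (Set.range f).ncard ≤ M * N := by
  classical
  have : Fintype X := Fintype.ofFinite X
  have h1 : (Finset.univ.image f).card ≤ (Finset.univ.image g).card * N := by
    have h2 : Finset.univ.image f = (Finset.univ.image g).biUnion
        fun b => (Finset.univ.filter fun x => g x = b).image f := by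
      ext a
      simp only [Finset.mem_image, Finset.mem_univ, true_and, Finset.mem_biUnion,
        Finset.mem_filter]
      constructor
      · rintro ⟨x, rfl⟩
        exact ⟨g x, ⟨x, rfl⟩, x, rfl, rfl⟩
      · rintro ⟨b, _, x, _, rfl⟩
        exact ⟨x, rfl⟩
    rw [h2]
    refine Finset.card_biUnion_le_card_mul _ _ _ fun b _ => ?_
    have h3 : (Set.range (fun x : {x : X // g x = b} => f x.1)) =
        (((Finset.univ.filter fun x => g x = b).image f : Finset A) : Set A) := by
      ext a
      simp only [Set.mem_range, Finset.coe_image, Finset.coe_filter, Finset.mem_univ, true_and,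
        Set.mem_image, Set.mem_ofPred_eq]
      constructor
      · rintro ⟨⟨x, hx⟩, rfl⟩
        exact ⟨x, hx, rfl⟩
      · rintro ⟨x, hx, rfl⟩
        exact ⟨⟨x, hx⟩, rfl⟩
    have h4 := hf b
    rw [h3, Set.ncard_coe_finset] at h4
    exact h4
  have e1 : Set.range f = ((Finset.univ.image f : Finset A) : Set A) := by
    rw [Finset.coe_image, Finset.coe_univ, Set.image_univ]
  have e2 : Set.range g = ((Finset.univ.image g : Finset B) : Set B) := by
    rw [Finset.coe_image, Finset.coe_univ, Set.image_univ]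
  rw [e2, Set.ncard_coe_finset] at hg
  rw [e1, Set.ncard_coe_finset]
  exact h1.trans (Nat.mul_le_mul_right _ hg)

/-- The main induction: `Φ_0 = p` (the polynomial of degree `0` is the constant `co x ∅`, at most `p ≤ 2^p` values), and
`Φ_{e+1}(L) = (e+1)^(e+1) mm(2 L (2p)^(e+1) + 2, e+1) + Φ_e(L)`.

Step: by `top_count` the top coefficients `g` take at most `2^((e+1)^(e+1) mm …)` values. For fixed `g` and `x` with
`top (co x) = g` put `co' x = co x - g`, of degree at most `e`; `P1 (co x) y = P1 (co' x) y + P1 g y`, and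
`ep (P1 (co' x) y) = ep (P1 (co x) y) * ep (- P1 g y)` where the second factor depends on `y` only: `G2 _ 1` with index type
`Unit`, so `Apx` holds with the same `ε`, `L` (`Apx.pull`, `Apx.mul_exact`). The induction hypothesis bounds the number of
values of `P1 (co' x)`, hence of `P1 (co x)` on the fibre; `ncard_fibres`. The condition on `ε` passes from `e + 1` to `e`. -/
theorem main_ind (p : ℕ) [Fact p.Prime] (e : ℕ) : ∃ Φ : ℕ → ℕ, PolyB Φ ∧
    ∀ (X : Type) [Finite X] (n : ℕ) (co : X → Finset (Fin n) → ZMod p), (∀ x J, e < J.card → co x J = 0) →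
      ∀ ε : ℝ, 0 ≤ ε → (1 + ε) ^ ((2 * p) ^ e) - 1 ≤ 1 / 2 →
      ∀ L : ℕ, Apx (fun x y => ep p (P1 (co x) y)) ε ((2 : ℝ) ^ L) →
      (Set.range (fun x => P1 (co x))).ncard ≤ 2 ^ (Φ L) := by
  classical
  induction e with
  | zero =>
    refine ⟨fun _ => p, PolyB.const p, ?_⟩
    intro X _ n co hdeg ε _ _ L _
    have hNZ : NeZero p := ⟨(Fact.out : p.Prime).ne_zero⟩
    let F : ZMod p → ((Fin n → Bool) → ZMod p) := fun c => P1 (fun J => if J = ∅ then c else 0)
    have h1 : Set.range (fun x => P1 (co x)) ⊆ F '' Set.univ := by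
      rintro _ ⟨x, rfl⟩
      refine ⟨co x ∅, Set.mem_univ _, ?_⟩
      show P1 (fun J => if J = ∅ then co x ∅ else 0) = P1 (co x)
      congr 1
      funext J
      by_cases hJ : J = ∅
      · rw [if_pos hJ, hJ]
      · rw [if_neg hJ]
        exact (hdeg x J (Finset.card_pos.2 (Finset.nonempty_iff_ne_empty.2 hJ))).symm
    have h2 : (F '' Set.univ).ncard ≤ p := by
      refine (Set.ncard_image_le Set.finite_univ).trans ?_
      rw [Set.ncard_univ, Nat.card_eq_fintype_card, ZMod.card]
    refine (Set.ncard_le_ncard h1 (Set.toFinite _)).trans (h2.trans ?_)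
    exact Nat.lt_two_pow_self.le
  | succ e ih =>
    obtain ⟨Φ, hΦ, hb⟩ := ih
    refine ⟨fun L => (e + 1) ^ (e + 1) * mm (2 * (L * (2 * p) ^ (e + 1)) + 2) (e + 1) + Φ L, ?_, ?_⟩
    · refine PolyB.add (PolyB.mul (PolyB.const _) (PolyB.mm (e + 1) ?_)) hΦ
      exact ((PolyB.const 2).mul (PolyB.id.mul (PolyB.const _))).add (PolyB.const 2)
    · intro X _ n co hdeg ε hε hε2 L hA
      have hp1 : 1 ≤ 2 * p := by
        have := (Fact.out : p.Prime).pos
        omega
      have htop := top_count (Nat.succ_le_succ (Nat.zero_le e)) co hdeg ε hε hε2 L hA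
      rw [pow_add]
      refine ncard_fibres (fun x => P1 (co x))
        (fun x => (fun J : Finset (Fin n) => if J.card = e + 1 then co x J else 0)) _ _ htop ?_
      intro b
      let Xb := {x : X // (fun J : Finset (Fin n) => if J.card = e + 1 then co x J else 0) = b}
      let co' : Xb → Finset (Fin n) → ZMod p := fun x J => co x.1 J - b J
      have hP : ∀ (x : Xb) (y : Fin n → Bool), P1 (co' x) y = P1 (co x.1) y - P1 b y := by
        intro x y
        simp only [P1, co', sub_mul, Finset.sum_sub_distrib]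
      have hdeg' : ∀ (x : Xb) J, e < J.card → co' x J = 0 := by
        intro x J hJ
        have hx := congrFun x.2 J
        show co x.1 J - b J = 0
        rw [← hx]
        by_cases hc : J.card = e + 1
        · rw [if_pos hc, sub_self]
        · rw [if_neg hc, sub_zero]
          exact hdeg x.1 J (by omega)
      have hε2' : (1 + ε) ^ ((2 * p) ^ e) - 1 ≤ 1 / 2 := by
        have h1 : (1 + ε) ^ ((2 * p) ^ e) ≤ (1 + ε) ^ ((2 * p) ^ (e + 1)) :=
          pow_le_pow_right₀ (by linarith) (Nat.pow_le_pow_right hp1 (Nat.le_succ e))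
        linarith
      have hG : G2 (fun (_ : Xb) (y : Fin n → Bool) => ep p (-(P1 b y))) 1 := by
        refine ⟨Unit, inferInstance, fun _ _ => 1, fun y _ => ep p (-(P1 b y)), ?_, ?_, ?_⟩
        · intro x y; simp
        · intro x; simp
        · intro y; simp [ep_norm]
      have hA' : Apx (fun (x : Xb) y => ep p (P1 (co' x) y)) ε ((2 : ℝ) ^ L) := by
        have h1 := (hA.pull (fun x : Xb => x.1) (fun y : Fin n → Bool => y)).mul_exact hG
          (fun _ _ => ep_norm p _)
        rw [mul_one] at h1
        have h2 : (fun (x : Xb) y => ep p (P1 (co' x) y)) =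
            fun (x : Xb) (y : Fin n → Bool) => ep p (P1 (co x.1) y) * ep p (-(P1 b y)) := by
          funext x y
          rw [hP, sub_eq_add_neg, ep_add]
        rw [h2]
        exact h1
      have h3 := hb Xb n co' hdeg' ε hε hε2' L hA'
      have h4 : Set.range (fun x : Xb => P1 (co x.1)) =
          (fun f : (Fin n → Bool) → ZMod p => fun y => f y + P1 b y) ''
            Set.range (fun x : Xb => P1 (co' x)) := by
        rw [← Set.range_comp]
        congr 1
        funext x y
        show P1 (co x.1) y = P1 (co' x) y + P1 b y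
        rw [hP, sub_add_cancel]
      show (Set.range (fun x : Xb => P1 (co x.1))).ncard ≤ 2 ^ (Φ L)
      rw [h4]
      exact (Set.ncard_image_le (Set.finite_range _)).trans h3

end Pool.Agent.H.MP_dd1c2e_lc
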