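import Mathlib
import Pool.Agent.H.MP_dd1c2e_lc.Contr

/-!
# The states reached by a quantum protocol are sums of `2^q` product contractions of the start state
-/

namespace Pool.Agent.H.MP_dd1c2e_lc

open Finset

/-- An isometry with values in `ℂ^A' ⊗ ℂ^2` preserves the length of the joint state.
`∑ a', ∑ m ‖aliceSend V ψ x y a' m‖² = ∑ b, ∑ (a', c) ‖∑ a V x (a', c) a ψ x y a b‖² = ∑ b ∑ a ‖ψ x y a b‖²`. -/
theorem aliceSend_norm {X Y A B A' : Type} [Fintype A] [Fintype B] [Fintype A'] (V : X → A' × Bool → A → ℂ)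
    (hV : ∀ x, IsIsometry (V x)) (ψ : X → Y → A → B → ℂ) (x : X) (y : Y) :
    ∑ a', ∑ m, ‖aliceSend V ψ x y a' m‖ ^ 2 = ∑ a, ∑ b, ‖ψ x y a b‖ ^ 2 := by
  have e : ∀ b, ∑ a', ∑ c, ‖∑ a, V x (a', c) a * ψ x y a b‖ ^ 2 = ∑ a, ‖ψ x y a b‖ ^ 2 := by
    intro b
    have h1 := hV x (fun a => ψ x y a b)
    rw [Fintype.sum_prod_type] at h1
    exact h1
  calc ∑ a', ∑ m, ‖aliceSend V ψ x y a' m‖ ^ 2
      = ∑ a', ∑ b, ∑ c, ‖∑ a, V x (a', c) a * ψ x y a b‖ ^ 2 := by
        refine Finset.sum_congr rfl fun a' _ => ?_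
        rw [Fintype.sum_prod_type, Finset.sum_comm]
        rfl
    _ = ∑ b, ∑ a', ∑ c, ‖∑ a, V x (a', c) a * ψ x y a b‖ ^ 2 := Finset.sum_comm
    _ = ∑ b, ∑ a, ‖ψ x y a b‖ ^ 2 := Finset.sum_congr rfl fun b _ => e b
    _ = ∑ a, ∑ b, ‖ψ x y a b‖ ^ 2 := Finset.sum_comm

/-- The same for Bob. -/
theorem bobSend_norm {X Y A B B' : Type} [Fintype A] [Fintype B] [Fintype B'] (W : Y → B' × Bool → B → ℂ)
    (hW : ∀ y, IsIsometry (W y)) (ψ : X → Y → A → B → ℂ) (x : X) (y : Y) :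
    ∑ m, ∑ b', ‖bobSend W ψ x y m b'‖ ^ 2 = ∑ a, ∑ b, ‖ψ x y a b‖ ^ 2 := by
  have e : ∀ a, ∑ b', ∑ c, ‖∑ b, W y (b', c) b * ψ x y a b‖ ^ 2 = ∑ b, ‖ψ x y a b‖ ^ 2 := by
    intro a
    have h1 := hW y (fun b => ψ x y a b)
    rw [Fintype.sum_prod_type] at h1
    exact h1
  calc ∑ m, ∑ b', ‖bobSend W ψ x y m b'‖ ^ 2
      = ∑ b', ∑ m, ‖bobSend W ψ x y m b'‖ ^ 2 := Finset.sum_comm
    _ = ∑ b', ∑ a, ∑ c, ‖∑ b, W y (b', c) b * ψ x y a b‖ ^ 2 := by
        refine Finset.sum_congr rfl fun b' _ => ?_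
        rw [Fintype.sum_prod_type, Finset.sum_comm]
        rfl
    _ = ∑ a, ∑ b', ∑ c, ‖∑ b, W y (b', c) b * ψ x y a b‖ ^ 2 := Finset.sum_comm
    _ = ∑ a, ∑ b, ‖ψ x y a b‖ ^ 2 := Finset.sum_congr rfl fun a _ => e a

/-- All reachable joint states have length one. Induction over the protocol. -/
theorem Reach.norm {X Y : Type} {q : ℕ} {A : Type} [Fintype A] {B : Type} [Fintype B] {ψ : X → Y → A → B → ℂ}
    (h : Reach X Y q A B ψ) (x : X) (y : Y) : ∑ a, ∑ b, ‖ψ x y a b‖ ^ 2 = 1 := by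
  induction h with
  | start A B ψ h => exact h
  | alice A' V hV _ ih => exact (aliceSend_norm V hV _ x y).trans ih
  | bob B' W hW _ ih => exact (bobSend_norm W hW _ x y).trans ih

/-- The joint state is the sum of at most `N` terms `(U i x ⊗ W i y) ψ₀` with contractions `U i x`, `W i y` and one fixed
vector `ψ₀` of length at most one. -/
def Dec {X Y A B : Type} [Fintype A] [Fintype B] (ψ : X → Y → A → B → ℂ) (N : ℕ) : Prop :=
  ∃ (A0 : Type) (_ : Fintype A0) (B0 : Type) (_ : Fintype B0) (ψ0 : A0 → B0 → ℂ) (ι : Type) (_ : Fintype ι)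
    (U : ι → X → A → A0 → ℂ) (W : ι → Y → B → B0 → ℂ), ∑ a, ∑ b, ‖ψ0 a b‖ ^ 2 ≤ 1 ∧ Fintype.card ι ≤ N ∧
    (∀ i x, Contr (U i x)) ∧ (∀ i y, Contr (W i y)) ∧
    ∀ x y a b, ψ x y a b = ∑ i, ∑ a0, ∑ b0, U i x a a0 * W i y b b0 * ψ0 a0 b0

/-- Exchange the roles of the two parties. -/
theorem Dec.swap {X Y A B : Type} [Fintype A] [Fintype B] {ψ : X → Y → A → B → ℂ} {N : ℕ} (h : Dec ψ N) :
    Dec (fun y x b a => ψ x y a b) N := by
  obtain ⟨A0, hA0, B0, hB0, ψ0, ι, hι, U, W, h1, h2, h3, h4, h5⟩ := h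
  refine ⟨B0, hB0, A0, hA0, fun b a => ψ0 a b, ι, hι, W, U, ?_, h2, h4, h3, ?_⟩
  · rw [Finset.sum_comm]
    exact h1
  · intro y x b a
    beta_reduce
    rw [h5]
    refine Finset.sum_congr rfl fun i _ => ?_
    rw [Finset.sum_comm]
    refine Finset.sum_congr rfl fun b0 _ => Finset.sum_congr rfl fun a0 _ => ?_
    ring

/-- One step of Alice doubles the number of terms: index set `ι × Bool`,
`U' (i, c) x a' a0 = ∑ a, V x (a', c) a * U i x a a0` (block of an isometry composed with a contraction) and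
`W' (i, c) y (c', b) b0 = if c' = c then W i y b b0 else 0` (`Contr.pad`). -/
theorem Dec.alice {X Y A B A' : Type} [Fintype A] [Fintype B] [Fintype A'] {ψ : X → Y → A → B → ℂ} {N : ℕ}
    (V : X → A' × Bool → A → ℂ) (hV : ∀ x, IsIsometry (V x)) (h : Dec ψ N) : Dec (aliceSend V ψ) (2 * N) := by
  obtain ⟨A0, hA0, B0, hB0, ψ0, ι, hι, U, W, h1, h2, h3, h4, h5⟩ := h
  refine ⟨A0, hA0, B0, hB0, ψ0, ι × Bool, inferInstance, fun j x a' a0 => ∑ a, V x (a', j.2) a * U j.1 x a a0,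
    fun j y m b0 => if m.1 = j.2 then W j.1 y m.2 b0 else 0, h1, ?_, ?_, ?_, ?_⟩
  · rw [Fintype.card_prod, Fintype.card_bool]
    omega
  · intro j x
    exact Contr.comp ((hV x).block j.2) (h3 j.1 x)
  · intro j y
    exact Contr.pad (h4 j.1 y) j.2
  · rintro x y a' ⟨c, b⟩
    show ∑ a, V x (a', c) a * ψ x y a b = _
    rw [Fintype.sum_prod_type]
    have e : ∀ i : ι, ∑ d : Bool, ∑ a0, ∑ b0, (∑ a, V x (a', d) a * U i x a a0) *
        (if c = d then W i y b b0 else 0) * ψ0 a0 b0 =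
        ∑ a0, ∑ b0, (∑ a, V x (a', c) a * U i x a a0) * W i y b b0 * ψ0 a0 b0 := by
      intro i
      rw [Finset.sum_eq_single c]
      · refine Finset.sum_congr rfl fun a0 _ => Finset.sum_congr rfl fun b0 _ => ?_
        rw [if_pos rfl]
      · intro d _ hd
        refine Finset.sum_eq_zero fun a0 _ => Finset.sum_eq_zero fun b0 _ => ?_
        rw [if_neg (fun h => hd h.symm), mul_zero, zero_mul]
      · intro hc
        exact absurd (Finset.mem_univ c) hc
    calc ∑ a, V x (a', c) a * ψ x y a b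
        = ∑ a, ∑ i, V x (a', c) a * ∑ a0, ∑ b0, U i x a a0 * W i y b b0 * ψ0 a0 b0 := by
          refine Finset.sum_congr rfl fun a _ => ?_
          rw [h5, Finset.mul_sum]
      _ = ∑ i, ∑ a, V x (a', c) a * ∑ a0, ∑ b0, U i x a a0 * W i y b b0 * ψ0 a0 b0 := Finset.sum_comm
      _ = ∑ i, ∑ a0, ∑ b0, (∑ a, V x (a', c) a * U i x a a0) * W i y b b0 * ψ0 a0 b0 := by
          refine Finset.sum_congr rfl fun i _ => ?_
          have e1 : ∀ a, V x (a', c) a * ∑ a0, ∑ b0, U i x a a0 * W i y b b0 * ψ0 a0 b0 =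
              ∑ a0, ∑ b0, V x (a', c) a * U i x a a0 * W i y b b0 * ψ0 a0 b0 := by
            intro a
            rw [Finset.mul_sum]
            refine Finset.sum_congr rfl fun a0 _ => ?_
            rw [Finset.mul_sum]
            refine Finset.sum_congr rfl fun b0 _ => ?_
            ring
          rw [Finset.sum_congr rfl fun a _ => e1 a, Finset.sum_comm]
          refine Finset.sum_congr rfl fun a0 _ => ?_
          rw [Finset.sum_comm]
          refine Finset.sum_congr rfl fun b0 _ => ?_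
          rw [Finset.sum_mul, Finset.sum_mul]
      _ = ∑ i, ∑ d : Bool, ∑ a0, ∑ b0, (∑ a, V x (a', d) a * U i x a a0) *
        (if c = d then W i y b b0 else 0) * ψ0 a0 b0 := Finset.sum_congr rfl fun i _ => (e i).symm

/-- One step of Bob: by symmetry (`Dec.swap`, `Dec.alice`, `Dec.swap`; `bobSend W ψ x y m b'` is
`aliceSend W (fun y x b a => ψ x y a b) y x b' m` by definition). -/
theorem Dec.bob {X Y A B B' : Type} [Fintype A] [Fintype B] [Fintype B'] {ψ : X → Y → A → B → ℂ} {N : ℕ}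
    (W : Y → B' × Bool → B → ℂ) (hW : ∀ y, IsIsometry (W y)) (h : Dec ψ N) : Dec (bobSend W ψ) (2 * N) := by
  have h1 := h.swap
  have h2 := Dec.alice W hW h1
  exact h2.swap

/-- The states reached with `q` qubits are sums of `2^q` terms. Induction over the protocol; at the start `ψ0 = ψ`,
`ι = Unit`, `U`, `W` are identities (`Contr.one`, classical decidable equality). -/
theorem Reach.dec {X Y : Type} {q : ℕ} {A : Type} [Fintype A] {B : Type} [Fintype B] {ψ : X → Y → A → B → ℂ}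
    (h : Reach X Y q A B ψ) : Dec ψ (2 ^ q) := by
  induction h with
  | start A B ψ h =>
    classical
    refine ⟨A, inferInstance, B, inferInstance, ψ, Unit, inferInstance,
      fun _ _ a a0 => if a = a0 then (1 : ℂ) else 0, fun _ _ b b0 => if b = b0 then (1 : ℂ) else 0, h.le, ?_, ?_, ?_, ?_⟩
    · simp
    · intro _ _
      exact Contr.one
    · intro _ _
      exact Contr.one
    · intro x y a b
      rw [Fintype.sum_unique, Finset.sum_eq_single a, Finset.sum_eq_single b]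
      · beta_reduce
        rw [if_pos rfl, if_pos rfl, one_mul, one_mul]
      · intro b0 _ hb
        beta_reduce
        rw [if_neg (show ¬ b = b0 from fun h => hb h.symm), mul_zero, zero_mul]
      · intro hb
        exact absurd (Finset.mem_univ b) hb
      · intro a0 _ ha
        refine Finset.sum_eq_zero fun b0 _ => ?_
        beta_reduce
        rw [if_neg (show ¬ a = a0 from fun h => ha h.symm), zero_mul, zero_mul]
      · intro ha
        exact absurd (Finset.mem_univ a) ha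
  | alice A' V hV _ ih =>
    rw [pow_succ']
    exact Dec.alice V hV ih
  | bob B' W hW _ ih =>
    rw [pow_succ']
    exact Dec.bob W hW ih

end Pool.Agent.H.MP_dd1c2e_lc
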