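import Mathlib
import Pool.Agent.H.MP_dd1c2e_lc.QDec
import Pool.Agent.H.MP_dd1c2e_lc.G2

/-!
# The acceptance probability of a quantum protocol has small `γ₂` norm
-/

namespace Pool.Agent.H.MP_dd1c2e_lc

open Finset

/-- Hilbert space identity behind `acc_G2`. For matrices `U`, `U' : A → A0`, `W`, `W' : B → B0` and a vector `f` on
`A0 × B0`:
`∑ a b, conj (∑ a0 b0, U' a a0 * W' b b0 * f a0 b0) * (∑ a1 b1, U a a1 * W b b1 * f a1 b1)`
` = ∑ a0 b1, (∑ a1, (∑ a, conj (U' a a0) * U a a1) * f a1 b1) * (∑ b0, (∑ b, conj (W' b b0) * W b b1) * conj (f a0 b0))`.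
Multiply out and exchange the order of the sums. -/
theorem inner_expand {A B A0 B0 : Type} [Fintype A] [Fintype B] [Fintype A0] [Fintype B0]
    (U U' : A → A0 → ℂ) (W W' : B → B0 → ℂ) (f : A0 → B0 → ℂ) :
    ∑ a, ∑ b, starRingEnd ℂ (∑ a0, ∑ b0, U' a a0 * W' b b0 * f a0 b0) * (∑ a1, ∑ b1, U a a1 * W b b1 * f a1 b1) =
      ∑ a0, ∑ b1, (∑ a1, (∑ a, starRingEnd ℂ (U' a a0) * U a a1) * f a1 b1) *
        (∑ b0, (∑ b, starRingEnd ℂ (W' b b0) * W b b1) * starRingEnd ℂ (f a0 b0)) := by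
  have L : ∑ a, ∑ b, starRingEnd ℂ (∑ a0, ∑ b0, U' a a0 * W' b b0 * f a0 b0) *
        (∑ a1, ∑ b1, U a a1 * W b b1 * f a1 b1) =
      ∑ p : A × B × A0 × B0 × A0 × B0, (starRingEnd ℂ (U' p.1 p.2.2.1) * starRingEnd ℂ (W' p.2.1 p.2.2.2.1) *
        starRingEnd ℂ (f p.2.2.1 p.2.2.2.1)) * (U p.1 p.2.2.2.2.1 * W p.2.1 p.2.2.2.2.2 *
          f p.2.2.2.2.1 p.2.2.2.2.2) := by
    simp only [Fintype.sum_prod_type]
    refine Finset.sum_congr rfl fun a _ => Finset.sum_congr rfl fun b _ => ?_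
    rw [map_sum, Finset.sum_mul]
    refine Finset.sum_congr rfl fun a0 _ => ?_
    rw [map_sum, Finset.sum_mul]
    refine Finset.sum_congr rfl fun b0 _ => ?_
    rw [Finset.mul_sum]
    refine Finset.sum_congr rfl fun a1 _ => ?_
    rw [Finset.mul_sum]
    refine Finset.sum_congr rfl fun b1 _ => ?_
    rw [map_mul, map_mul]
  have R : ∑ a0, ∑ b1, (∑ a1, (∑ a, starRingEnd ℂ (U' a a0) * U a a1) * f a1 b1) *
        (∑ b0, (∑ b, starRingEnd ℂ (W' b b0) * W b b1) * starRingEnd ℂ (f a0 b0)) =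
      ∑ p : A0 × B0 × A0 × A × B0 × B, (starRingEnd ℂ (U' p.2.2.2.1 p.1) * U p.2.2.2.1 p.2.2.1 * f p.2.2.1 p.2.1) *
        (starRingEnd ℂ (W' p.2.2.2.2.2 p.2.2.2.2.1) * W p.2.2.2.2.2 p.2.1 *
          starRingEnd ℂ (f p.1 p.2.2.2.2.1)) := by
    simp only [Fintype.sum_prod_type]
    refine Finset.sum_congr rfl fun a0 _ => Finset.sum_congr rfl fun b1 _ => ?_
    rw [Finset.sum_mul]
    refine Finset.sum_congr rfl fun a1 _ => ?_
    rw [Finset.sum_mul, Finset.sum_mul]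
    refine Finset.sum_congr rfl fun a _ => ?_
    rw [Finset.mul_sum]
    refine Finset.sum_congr rfl fun b0 _ => ?_
    rw [Finset.sum_mul, Finset.mul_sum]
  rw [L, R]
  let e : (A × B × A0 × B0 × A0 × B0) ≃ (A0 × B0 × A0 × A × B0 × B) :=
    { toFun := fun p => (p.2.2.1, p.2.2.2.2.2, p.2.2.2.2.1, p.1, p.2.2.2.1, p.2.1)
      invFun := fun p => (p.2.2.2.1, p.2.2.2.2.2, p.1, p.2.2.2.2.1, p.2.2.1, p.2.1)
      left_inv := fun p => rfl
      right_inv := fun p => rfl }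
  refine Fintype.sum_equiv e _ _ fun p => ?_
  show (starRingEnd ℂ (U' p.1 p.2.2.1) * starRingEnd ℂ (W' p.2.1 p.2.2.2.1) *
        starRingEnd ℂ (f p.2.2.1 p.2.2.2.1)) * (U p.1 p.2.2.2.2.1 * W p.2.1 p.2.2.2.2.2 *
          f p.2.2.2.2.1 p.2.2.2.2.2) =
    (starRingEnd ℂ (U' p.1 p.2.2.1) * U p.1 p.2.2.2.2.1 * f p.2.2.2.2.1 p.2.2.2.2.2) *
        (starRingEnd ℂ (W' p.2.1 p.2.2.2.1) * W p.2.1 p.2.2.2.2.2 *
          starRingEnd ℂ (f p.2.2.1 p.2.2.2.1))
  ring

/-- The squared length of a decomposable state has `γ₂` norm at most `N²`: if `ψ x y = ∑ i, (U i x ⊗ W i y) ψ0`, then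
`∑ a b ‖ψ x y a b‖² = ∑ i j, ∑ a b, conj ((U j x ⊗ W j y) ψ0 (a,b)) * (U i x ⊗ W i y) ψ0 (a,b)` and by `inner_expand`
each term is `∑ (a0, b1) u x (a0, b1) * w y (a0, b1)` with
`u x (a0, b1) = ∑ a1, (∑ a, conj (U j x a a0) * U i x a a1) * ψ0 a1 b1` and
`w y (a0, b1) = ∑ b0, (∑ b, conj (W j y b b0) * W i y b b1) * conj (ψ0 a0 b0)`.
The matrix `a0 a1 ↦ ∑ a, conj (U j x a a0) * U i x a a1` is a contraction (transpose of the conjugate of `U j x`, composed
with `U i x`: `Contr.conj`, `Contr.transpose`, `Contr.comp`), so `∑ (a0,b1) ‖u x (a0,b1)‖² ≤ ∑ ‖ψ0‖² ≤ 1` (`Contr.left`).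
For `w`: the matrix `b1 b0 ↦ ∑ b, conj (W j y b b0) * W i y b b1 = ∑ b, W i y b b1 * conj (W j y b b0)` is a contraction
(transpose of `W i y` composed with the conjugate of `W j y`), `Contr.right`. Index set `ι × ι × A0 × B0` for the
factorisation, the sum over `ι × ι` gives `≤ (card ι)² ≤ N²`. -/
theorem Dec.norm_G2 {X Y A B : Type} [Fintype A] [Fintype B] {ψ : X → Y → A → B → ℂ} {N : ℕ} (h : Dec ψ N) :
    G2 (fun x y => ((∑ a, ∑ b, ‖ψ x y a b‖ ^ 2 : ℝ) : ℂ)) ((N : ℝ) ^ 2) := by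
  obtain ⟨A0, hA0, B0, hB0, f, ι, hι, U, W, h1, h2, h3, h4, h5⟩ := h
  have hcard : ∑ _i : ι, ∑ _j : ι, (1 : ℝ) ≤ (N : ℝ) ^ 2 := by
    simp only [Finset.sum_const, Finset.card_univ, nsmul_eq_mul, mul_one]
    have h6 : (Fintype.card ι : ℝ) ≤ N := by exact_mod_cast h2
    have h7 : (0 : ℝ) ≤ (Fintype.card ι : ℝ) := Nat.cast_nonneg _
    rw [pow_two]
    exact mul_le_mul h6 h6 h7 (h7.trans h6)
  refine ⟨ι × ι × A0 × B0, inferInstance,
    fun x k => ∑ a1, (∑ a, starRingEnd ℂ (U k.2.1 x a k.2.2.1) * U k.1 x a a1) * f a1 k.2.2.2,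
    fun y k => ∑ b0, (∑ b, starRingEnd ℂ (W k.2.1 y b b0) * W k.1 y b k.2.2.2) * starRingEnd ℂ (f k.2.2.1 b0),
    ?_, ?_, ?_⟩
  · intro x y
    beta_reduce
    have e1 : ((∑ a, ∑ b, ‖ψ x y a b‖ ^ 2 : ℝ) : ℂ) = ∑ a, ∑ b, starRingEnd ℂ (ψ x y a b) * ψ x y a b := by
      rw [Complex.ofReal_sum]
      refine Finset.sum_congr rfl fun a _ => ?_
      rw [Complex.ofReal_sum]
      refine Finset.sum_congr rfl fun b _ => ?_
      rw [Complex.conj_mul', Complex.ofReal_pow]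
    have e2 : ∀ a b, starRingEnd ℂ (ψ x y a b) * ψ x y a b = ∑ i, ∑ j,
        starRingEnd ℂ (∑ a0, ∑ b0, U j x a a0 * W j y b b0 * f a0 b0) *
          (∑ a1, ∑ b1, U i x a a1 * W i y b b1 * f a1 b1) := by
      intro a b
      rw [h5 x y a b, map_sum, Finset.mul_sum]
      refine Finset.sum_congr rfl fun i _ => ?_
      rw [Finset.sum_mul]
    rw [e1]
    simp only [Fintype.sum_prod_type]
    calc ∑ a, ∑ b, starRingEnd ℂ (ψ x y a b) * ψ x y a b
        = ∑ a, ∑ b, ∑ i, ∑ j, starRingEnd ℂ (∑ a0, ∑ b0, U j x a a0 * W j y b b0 * f a0 b0) *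
          (∑ a1, ∑ b1, U i x a a1 * W i y b b1 * f a1 b1) :=
          Finset.sum_congr rfl fun a _ => Finset.sum_congr rfl fun b _ => e2 a b
      _ = ∑ a, ∑ i, ∑ b, ∑ j, starRingEnd ℂ (∑ a0, ∑ b0, U j x a a0 * W j y b b0 * f a0 b0) *
          (∑ a1, ∑ b1, U i x a a1 * W i y b b1 * f a1 b1) :=
          Finset.sum_congr rfl fun a _ => Finset.sum_comm
      _ = ∑ a, ∑ i, ∑ j, ∑ b, starRingEnd ℂ (∑ a0, ∑ b0, U j x a a0 * W j y b b0 * f a0 b0) *
          (∑ a1, ∑ b1, U i x a a1 * W i y b b1 * f a1 b1) :=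
          Finset.sum_congr rfl fun a _ => Finset.sum_congr rfl fun i _ => Finset.sum_comm
      _ = ∑ i, ∑ a, ∑ j, ∑ b, starRingEnd ℂ (∑ a0, ∑ b0, U j x a a0 * W j y b b0 * f a0 b0) *
          (∑ a1, ∑ b1, U i x a a1 * W i y b b1 * f a1 b1) := Finset.sum_comm
      _ = ∑ i, ∑ j, ∑ a, ∑ b, starRingEnd ℂ (∑ a0, ∑ b0, U j x a a0 * W j y b b0 * f a0 b0) *
          (∑ a1, ∑ b1, U i x a a1 * W i y b b1 * f a1 b1) :=
          Finset.sum_congr rfl fun i _ => Finset.sum_comm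
      _ = _ := Finset.sum_congr rfl fun i _ => Finset.sum_congr rfl fun j _ =>
          inner_expand (U i x) (U j x) (W i y) (W j y) f
  · intro x
    simp only [Fintype.sum_prod_type]
    refine le_trans (Finset.sum_le_sum fun i _ => Finset.sum_le_sum fun j _ => ?_) hcard
    have hM : Contr (fun a0 a1 => ∑ a, starRingEnd ℂ (U j x a a0) * U i x a a1) :=
      Contr.comp (Contr.transpose (Contr.conj (h3 j x))) (h3 i x)
    exact (Contr.left hM f).trans h1
  · intro y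
    simp only [Fintype.sum_prod_type]
    refine le_trans (Finset.sum_le_sum fun i _ => Finset.sum_le_sum fun j _ => ?_) hcard
    have hM : Contr (fun b1 b0 => ∑ b, W i y b b1 * starRingEnd ℂ (W j y b b0)) :=
      Contr.comp (Contr.transpose (h4 i y)) (Contr.conj (h4 j y))
    have h6 := Contr.right hM (fun a0 b0 => starRingEnd ℂ (f a0 b0))
    have h7 : ∑ a0, ∑ b0, ‖starRingEnd ℂ (f a0 b0)‖ ^ 2 ≤ 1 := by
      simp only [RCLike.norm_conj]
      exact h1
    refine le_trans (le_of_eq ?_) (h6.trans h7)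
    refine Finset.sum_congr rfl fun a0 _ => Finset.sum_congr rfl fun b1 _ => ?_
    congr 2
    refine Finset.sum_congr rfl fun b0 _ => ?_
    congr 1
    refine Finset.sum_congr rfl fun b _ => ?_
    ring

/-- One block `a' ↦ V x (a', c)` of an isometry of Alice applied to a decomposable state: still decomposable with the same
number of terms. -/
theorem Dec.block {X Y A B A' : Type} [Fintype A] [Fintype B] [Fintype A'] {ψ : X → Y → A → B → ℂ} {N : ℕ}
    (V : X → A' × Bool → A → ℂ) (hV : ∀ x, IsIsometry (V x)) (c : Bool) (h : Dec ψ N) :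
    Dec (fun x y a' b => aliceSend V ψ x y a' (c, b)) N := by
  obtain ⟨A0, hA0, B0, hB0, f, ι, hι, U, W, h1, h2, h3, h4, h5⟩ := h
  refine ⟨A0, hA0, B0, hB0, f, ι, hι, fun i x a' a0 => ∑ a, V x (a', c) a * U i x a a0, W, h1, h2, ?_, h4, ?_⟩
  · intro i x
    exact Contr.comp ((hV x).block c) (h3 i x)
  · intro x y a' b
    show ∑ a, V x (a', c) a * ψ x y a b = _
    calc ∑ a, V x (a', c) a * ψ x y a b
        = ∑ a, ∑ i, V x (a', c) a * ∑ a0, ∑ b0, U i x a a0 * W i y b b0 * f a0 b0 := by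
          refine Finset.sum_congr rfl fun a _ => ?_
          rw [h5, Finset.mul_sum]
      _ = ∑ i, ∑ a, V x (a', c) a * ∑ a0, ∑ b0, U i x a a0 * W i y b b0 * f a0 b0 := Finset.sum_comm
      _ = ∑ i, ∑ a0, ∑ b0, (∑ a, V x (a', c) a * U i x a a0) * W i y b b0 * f a0 b0 := by
          refine Finset.sum_congr rfl fun i _ => ?_
          have e1 : ∀ a, V x (a', c) a * ∑ a0, ∑ b0, U i x a a0 * W i y b b0 * f a0 b0 =
              ∑ a0, ∑ b0, V x (a', c) a * U i x a a0 * W i y b b0 * f a0 b0 := by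
            intro a
            rw [Finset.mul_sum]
            refine Finset.sum_congr rfl fun a0 _ => ?_
            rw [Finset.mul_sum]
            refine Finset.sum_congr rfl fun b0 _ => ?_
            ring
          rw [Finset.sum_congr rfl fun a _ => e1 a, Finset.sum_comm]
          refine Finset.sum_congr rfl fun a0 _ => ?_
          rw [Finset.sum_comm]
          refine Finset.sum_congr rfl fun b0 _ => ?_
          rw [Finset.sum_mul, Finset.sum_mul]

/-- The acceptance probability of a protocol with `q` qubits: there is a matrix `P` with real entries in `[0, 1]` with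
`γ₂(P) ≤ 4^q`, `P x y ≥ 2/3` if `F x y = true` and `P x y ≤ 1/3` otherwise.

Proof. Case Alice measures: `P x y = ∑ a' b ‖aliceSend V ψ x y a' (true, b)‖²`. `Reach.dec`, `Dec.block` and
`Dec.norm_G2` with `N = 2^q` give `γ₂ ≤ (2^q)² = 4^q`. By `aliceSend_norm` and `Reach.norm` the numbers
`∑ a' b ‖aliceSend V ψ x y a' (true, b)‖²` and `∑ a' b ‖aliceSend V ψ x y a' (false, b)‖²` are `≥ 0` with sum `1`.
Case Bob measures: use `Dec.swap` and `G2.swap`; `bobSend W ψ x y (c, a) b'` is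
`aliceSend W (fun y x b a => ψ x y a b) y x b' (c, a)` by definition. -/
theorem quantum_G2 {X Y : Type} {F : X → Y → Bool} {q : ℕ} (h : QuantumComputes F q) :
    ∃ P : X → Y → ℝ, G2 (fun x y => (P x y : ℂ)) ((4 : ℝ) ^ q) ∧ (∀ x y, 0 ≤ P x y ∧ P x y ≤ 1) ∧
      (∀ x y, F x y = true → 2 / 3 ≤ P x y) ∧ (∀ x y, F x y = false → P x y ≤ 1 / 3) := by
  have h4 : ((4 : ℝ)) ^ q = (((2 ^ q : ℕ) : ℝ)) ^ 2 := by
    rw [Nat.cast_pow, ← pow_mul, mul_comm q 2, pow_mul]
    norm_num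
  rw [h4]
  obtain ⟨A, hA, B, hB, ψ, hR, hM⟩ := h
  rcases hM with ⟨A', hA', V, hV, hF⟩ | ⟨B', hB', W, hW, hF⟩
  · have hs : ∀ x y, ∑ a', ∑ b, ‖aliceSend V ψ x y a' (true, b)‖ ^ 2 +
        ∑ a', ∑ b, ‖aliceSend V ψ x y a' (false, b)‖ ^ 2 = 1 := by
      intro x y
      have h1 := (aliceSend_norm V hV ψ x y).trans (hR.norm x y)
      simp only [Fintype.sum_prod_type, Fintype.sum_bool] at h1
      rw [Finset.sum_add_distrib] at h1
      exact h1
    have hn : ∀ c x y, 0 ≤ ∑ a', ∑ b, ‖aliceSend V ψ x y a' (c, b)‖ ^ 2 := fun c x y =>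
      Finset.sum_nonneg fun _ _ => Finset.sum_nonneg fun _ _ => sq_nonneg _
    refine ⟨fun x y => ∑ a', ∑ b, ‖aliceSend V ψ x y a' (true, b)‖ ^ 2, ?_, ?_, ?_, ?_⟩
    · exact (Dec.block V hV true hR.dec).norm_G2
    · intro x y
      refine ⟨hn true x y, ?_⟩
      have h1 := hs x y
      have h2 := hn false x y
      beta_reduce
      linarith
    · intro x y hxy
      have h1 := hF x y
      rw [hxy] at h1
      exact h1
    · intro x y hxy
      have h1 := hF x y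
      rw [hxy] at h1
      have h2 := hs x y
      beta_reduce
      linarith
  · have hs : ∀ x y, ∑ b', ∑ a, ‖bobSend W ψ x y (true, a) b'‖ ^ 2 +
        ∑ b', ∑ a, ‖bobSend W ψ x y (false, a) b'‖ ^ 2 = 1 := by
      intro x y
      have h1 := (bobSend_norm W hW ψ x y).trans (hR.norm x y)
      rw [Finset.sum_comm] at h1
      simp only [Fintype.sum_prod_type, Fintype.sum_bool] at h1
      rw [Finset.sum_add_distrib] at h1
      exact h1
    have hn : ∀ c x y, 0 ≤ ∑ b', ∑ a, ‖bobSend W ψ x y (c, a) b'‖ ^ 2 := fun c x y =>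
      Finset.sum_nonneg fun _ _ => Finset.sum_nonneg fun _ _ => sq_nonneg _
    refine ⟨fun x y => ∑ b', ∑ a, ‖bobSend W ψ x y (true, a) b'‖ ^ 2, ?_, ?_, ?_, ?_⟩
    · have h1 := (Dec.block W hW true hR.dec.swap).norm_G2
      exact h1.swap
    · intro x y
      refine ⟨hn true x y, ?_⟩
      have h1 := hs x y
      have h2 := hn false x y
      beta_reduce
      linarith
    · intro x y hxy
      have h1 := hF x y
      rw [hxy] at h1
      exact h1
    · intro x y hxy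
      have h1 := hF x y
      rw [hxy] at h1
      have h2 := hs x y
      beta_reduce
      linarith

end Pool.Agent.H.MP_dd1c2e_lc
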