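import Mathlib
import Pool.Agent.H.MP_dd1c2e_lc.Ind
import Pool.Agent.H.MP_dd1c2e_lc.QAcc
import Pool.Agent.H.MP_dd1c2e_lc.Amp
import Pool.Agent.H.MP_dd1c2e_lc.Coef
import Pool.Agent.H.MP_dd1c2e_lc.Det

/-!
# The main theorem
-/

namespace Pool.Agent.H.MP_dd1c2e_lc

open Finset

/-- For every `N` there is `ε > 0` with `(1 + ε)^N - 1 ≤ 1/2` (for instance `ε = 1/(4 (N+1))`). -/
theorem exists_eps (N : ℕ) : ∃ ε : ℝ, 0 < ε ∧ (1 + ε) ^ N - 1 ≤ 1 / 2 := by
  have h1 : Filter.Tendsto (fun ε : ℝ => (1 + ε) ^ N - 1) (nhdsWithin 0 (Set.Ioi 0)) (nhds 0) := by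
    have h2 : Continuous fun ε : ℝ => (1 + ε) ^ N - 1 := by fun_prop
    have h3 := (h2.tendsto 0).mono_left (nhdsWithin_le_nhds (s := Set.Ioi (0 : ℝ)))
    simpa using h3
  have h4 := (h1.eventually (gt_mem_nhds (show (0 : ℝ) < 1 / 2 by norm_num))).and
    self_mem_nhdsWithin
  obtain ⟨ε, h5, h6⟩ := h4.exists
  exact ⟨ε, h6, h5.le⟩

theorem Final_polyB {Φ : ℕ → ℕ} (h : PolyB Φ) (m : ℕ) : PolyB (fun q => Φ (m * (q + 1))) := by
  obtain ⟨C, c, hC⟩ := h
  refine ⟨C * (m + 1) ^ c, c, fun q => (hC _).trans ?_⟩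
  rw [mul_assoc, ← mul_pow]
  refine Nat.mul_le_mul_left _ (Nat.pow_le_pow_left ?_ _)
  nlinarith

/-- The number of distinct rows. Let `ε` be as in `exists_eps` for `N = (2p)^d`, let `m` be as in `exists_apx` for `ε`, and
`Φ` as in `main_ind` for `e = d`. Let `F` be computed with `q` qubits; `quantum_G2` gives `P`, `exists_apx` with `z = ep 1`
gives `Apx (if F then ep 1 else 1) ε (2^(m (q+1)))`. Pull back to the finite type `X' = Set.range F` (finite because
`(Fin n → Bool) → Bool` is) with a section `X' → X`. By `exists_coeff` (choice) `P1 (co f) y = if f y then 1 else 0` for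
`f ∈ X'`, so `ep (P1 (co f) y) = if f y then ep 1 else 1`. `main_ind` bounds the number of the functions `P1 (co f)`, which
determine `f`. So `|Set.range F| ≤ 2^(Φ (m (q+1)))`. -/
theorem rows_le (p : ℕ) [Fact p.Prime] (d : ℕ) : ∃ Ψ : ℕ → ℕ, PolyB Ψ ∧
    ∀ (X : Type) (n : ℕ) (F : X → (Fin n → Bool) → Bool), (∀ x, DegLE p d (F x)) →
      ∀ q : ℕ, QuantumComputes F q → (Set.range F).ncard ≤ 2 ^ (Ψ q) := by
  classical
  obtain ⟨ε, hε, hε2⟩ := exists_eps ((2 * p) ^ d)
  obtain ⟨m, hm⟩ := exists_apx ε hε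
  obtain ⟨Φ, hΦ, hmain⟩ := main_ind p d
  refine ⟨fun q => Φ (m * (q + 1)), Final_polyB hΦ m, ?_⟩
  intro X n F hdeg q hq
  obtain ⟨P, hP, h01, h1, h0⟩ := quantum_G2 hq
  have hA := hm X (Fin n → Bool) F q P hP h01 h1 h0 (ep p 1) (ep_norm p 1)
  have hα : ∀ f : Set.range F, ∃ x, F x = f.1 := fun f => f.2
  choose α hα using hα
  have hco : ∀ f : Set.range F, ∃ c : Finset (Fin n) → ZMod p, (∀ J, d < J.card → c J = 0) ∧
      ∀ y, P1 c y = if f.1 y then 1 else 0 := by
    intro f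
    have h2 := exists_coeff (hdeg (α f))
    rw [hα f] at h2
    exact h2
  choose co hco1 hco2 using hco
  have hB := hA.pull α (id : (Fin n → Bool) → (Fin n → Bool))
  have e1 : (fun (f : Set.range F) (y : Fin n → Bool) => if F (α f) (id y) then ep p 1 else 1) =
      fun f y => ep p (P1 (co f) y) := by
    funext f y
    rw [hco2, hα]
    show (if f.1 y = true then ep p 1 else 1) = ep p (if f.1 y = true then 1 else 0)
    split_ifs
    · rfl
    · exact (ep_zero p).symm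
  rw [e1] at hB
  have h2 := hmain (Set.range F) n co hco1 ε hε.le hε2 (m * (q + 1)) hB
  refine le_trans ?_ h2
  have hfin : (Set.range (fun f : Set.range F => P1 (co f))).Finite := Set.finite_range _
  have hsub : Set.range F ⊆ (fun (g : (Fin n → Bool) → ZMod p) (y : Fin n → Bool) => decide (g y = 1)) ''
      Set.range (fun f : Set.range F => P1 (co f)) := by
    intro f hf
    refine ⟨_, ⟨⟨f, hf⟩, rfl⟩, ?_⟩
    funext y
    show decide (P1 (co ⟨f, hf⟩) y = 1) = f y
    rw [hco2]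
    show decide ((if f y = true then (1 : ZMod p) else 0) = 1) = f y
    cases h3 : f y with
    | false => simp
    | true => simp
  exact (Set.ncard_le_ncard hsub (hfin.image _)).trans (Set.ncard_image_le hfin)

/-- For every prime `p` and every `d` there are constants `C`, `c` such that for every total function `F` on `X × {0,1}^n`
all of whose rows have `𝔽_p`-degree at most `d`, the one-way and the two-way deterministic communication complexity are at
most `C Q*(F)^c + C`.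

Proof. `rows_le`, `oneWay_of_rows`, `det_of_oneWay` and monotonicity: `Ψ q + 1 ≤ C₀ (q+1)^c + 1`; for `q ≥ 1` use
`q + 1 ≤ 2 q`, for `q = 0` the bound is a constant. -/
theorem logEquiv (p : ℕ) [Fact p.Prime] (d : ℕ) : ∃ C c : ℕ,
    ∀ (X : Type) (n : ℕ) (F : X → (Fin n → Bool) → Bool), (∀ x, DegLE p d (F x)) →
      ∀ q : ℕ, QuantumComputes F q → OneWay F (C * q ^ c + C) ∧ DetComputes F (C * q ^ c + C) := by
  obtain ⟨Ψ, ⟨C, c, hC⟩, h⟩ := rows_le p d
  refine ⟨C * 2 ^ c + 1, c, ?_⟩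
  intro X n F hdeg q hq
  have h1 := oneWay_of_rows (Set.toFinite (Set.range F)) (h X n F hdeg q hq)
  have h2 : (q + 1) ^ c ≤ 2 ^ c * q ^ c + 2 ^ c := by
    rcases Nat.eq_zero_or_pos q with h3 | h3
    · subst h3
      rw [zero_add, one_pow]
      have := Nat.one_le_two_pow (n := c)
      omega
    · calc (q + 1) ^ c ≤ (2 * q) ^ c := Nat.pow_le_pow_left (by omega) _
        _ = 2 ^ c * q ^ c := mul_pow _ _ _
        _ ≤ 2 ^ c * q ^ c + 2 ^ c := Nat.le_add_right _ _
  have h3 : Ψ q + 1 ≤ (C * 2 ^ c + 1) * q ^ c + (C * 2 ^ c + 1) := by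
    have h4 := hC q
    have h5 : C * (q + 1) ^ c ≤ C * (2 ^ c * q ^ c + 2 ^ c) := Nat.mul_le_mul_left _ h2
    nlinarith [Nat.zero_le (q ^ c)]
  exact ⟨h1.mono (by omega), (det_of_oneWay h1).mono h3⟩

end Pool.Agent.H.MP_dd1c2e_lc
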