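import Mathlib
import Pool.Agent.H.MP_dd1c2e_lc.Coef

/-!
# Boolean functions of small degree modulo a large prime have small degree over the integers
-/

namespace Pool.Agent.H.MP_dd1c2e_lc

open Finset

/-- The Boolean vector with support `T`. -/
def ind {n : ℕ} (T : Finset (Fin n)) : Fin n → Bool := fun i => decide (i ∈ T)

/-- The integer coefficient of `∏ i ∈ S, y i` in the multilinear polynomial of `f` (Möbius inversion). -/
def mob {n : ℕ} (f : (Fin n → Bool) → Bool) (S : Finset (Fin n)) : ℤ :=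
  ∑ T ∈ S.powerset, (-1) ^ (S \ T).card * (if f (ind T) then 1 else 0)

theorem mob_alt1 {n : ℕ} {T U : Finset (Fin n)} (h : T ⊆ U) :
    ∑ S ∈ U.powerset with T ⊆ S, (-1 : ℤ) ^ (S \ T).card = if T = U then 1 else 0 := by
  have h1 : ∑ S ∈ U.powerset with T ⊆ S, (-1 : ℤ) ^ (S \ T).card =
      ∑ W ∈ (U \ T).powerset, (-1 : ℤ) ^ W.card := by
    refine Finset.sum_bij' (fun S _ => S \ T) (fun W _ => W ∪ T) ?_ ?_ ?_ ?_ ?_
    · intro S hS
      obtain ⟨hS1, hS2⟩ := Finset.mem_filter.1 hS
      exact Finset.mem_powerset.2 (Finset.sdiff_subset_sdiff (Finset.mem_powerset.1 hS1) subset_rfl)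
    · intro W hW
      refine Finset.mem_filter.2 ⟨Finset.mem_powerset.2 (Finset.union_subset ?_ h),
        Finset.subset_union_right⟩
      exact (Finset.mem_powerset.1 hW).trans Finset.sdiff_subset
    · intro S hS
      obtain ⟨hS1, hS2⟩ := Finset.mem_filter.1 hS
      exact Finset.sdiff_union_of_subset hS2
    · intro W hW
      have hd : Disjoint W T := Finset.disjoint_of_subset_left (Finset.mem_powerset.1 hW)
        Finset.sdiff_disjoint
      show (W ∪ T) \ T = W
      rw [Finset.union_sdiff_right]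
      exact Finset.sdiff_eq_self_of_disjoint hd
    · intro S hS
      rfl
  rw [h1, Finset.sum_powerset_neg_one_pow_card]
  refine if_congr ?_ rfl rfl
  rw [Finset.sdiff_eq_empty_iff_subset]
  exact ⟨fun h2 => Finset.Subset.antisymm h h2, fun h2 => h2 ▸ subset_rfl⟩

theorem mob_alt2 {n : ℕ} {J S : Finset (Fin n)} (h : J ⊆ S) :
    ∑ T ∈ S.powerset with J ⊆ T, (-1 : ℤ) ^ (S \ T).card = if J = S then 1 else 0 := by
  have h1 : ∑ T ∈ S.powerset with J ⊆ T, (-1 : ℤ) ^ (S \ T).card =
      ∑ W ∈ (S \ J).powerset, (-1 : ℤ) ^ W.card := by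
    refine Finset.sum_bij' (fun T _ => S \ T) (fun W _ => S \ W) ?_ ?_ ?_ ?_ ?_
    · intro T hT
      obtain ⟨hT1, hT2⟩ := Finset.mem_filter.1 hT
      exact Finset.mem_powerset.2 (Finset.sdiff_subset_sdiff subset_rfl hT2)
    · intro W hW
      refine Finset.mem_filter.2 ⟨Finset.mem_powerset.2 Finset.sdiff_subset, ?_⟩
      intro x hx
      refine Finset.mem_sdiff.2 ⟨h hx, fun hxW => ?_⟩
      exact (Finset.mem_sdiff.1 (Finset.mem_powerset.1 hW hxW)).2 hx
    · intro T hT
      obtain ⟨hT1, hT2⟩ := Finset.mem_filter.1 hT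
      exact Finset.sdiff_sdiff_eq_self (Finset.mem_powerset.1 hT1)
    · intro W hW
      exact Finset.sdiff_sdiff_eq_self ((Finset.mem_powerset.1 hW).trans Finset.sdiff_subset)
    · intro T hT
      rfl
  rw [h1, Finset.sum_powerset_neg_one_pow_card]
  refine if_congr ?_ rfl rfl
  rw [Finset.sdiff_eq_empty_iff_subset]
  exact ⟨fun h2 => Finset.Subset.antisymm h h2, fun h2 => h2 ▸ subset_rfl⟩

theorem mob_sum {n : ℕ} (f : (Fin n → Bool) → Bool) (U : Finset (Fin n)) :
    ∑ S ∈ U.powerset, mob f S = if f (ind U) then 1 else 0 := by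
  unfold mob
  rw [Finset.sum_comm' (s' := fun T => U.powerset.filter (fun S => T ⊆ S)) (t' := U.powerset)]
  · have h1 : ∀ T ∈ U.powerset, ∑ S ∈ U.powerset with T ⊆ S,
        (-1 : ℤ) ^ (S \ T).card * (if f (ind T) then 1 else 0) =
        if T = U then (if f (ind T) then 1 else 0) else 0 := by
      intro T hT
      rw [← Finset.sum_mul, mob_alt1 (Finset.mem_powerset.1 hT)]
      split_ifs <;> simp
    rw [Finset.sum_congr rfl h1, Finset.sum_ite_eq', if_pos (Finset.mem_powerset.2 subset_rfl)]
  · intro S T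
    simp only [Finset.mem_powerset, Finset.mem_filter]
    constructor
    · rintro ⟨h1, h2⟩
      exact ⟨⟨h1, h2⟩, h2.trans h1⟩
    · rintro ⟨⟨h1, h2⟩, -⟩
      exact ⟨h1, h2⟩

/-- Möbius inversion: `f y = ∑_{S ⊆ supp y} mob f S`. Exchange the sums: the coefficient of `f (ind T)` is
`∑_{T ⊆ S ⊆ supp y} (-1)^|S \ T|`, which is `1` if `T = supp y` and `0` otherwise. -/
theorem mob_eval {n : ℕ} (f : (Fin n → Bool) → Bool) (y : Fin n → Bool) :
    ∑ S : Finset (Fin n), mob f S * (if ∀ i ∈ S, y i = true then 1 else 0) = if f y then 1 else 0 := by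
  have h1 : ind (univ.filter (fun i => y i = true)) = y := by
    funext i
    unfold ind
    cases hy : y i <;> simp [hy]
  have h2 := mob_sum f (univ.filter (fun i => y i = true))
  rw [h1] at h2
  rw [← h2]
  have h3 : ∀ S : Finset (Fin n), mob f S * (if ∀ i ∈ S, y i = true then (1 : ℤ) else 0) =
      if S ∈ (univ.filter (fun i => y i = true)).powerset then mob f S else 0 := by
    intro S
    have h4 : (∀ i ∈ S, y i = true) ↔ S ∈ (univ.filter (fun i => y i = true)).powerset := by
      rw [Finset.mem_powerset]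
      constructor
      · intro h i hi
        exact Finset.mem_filter.2 ⟨Finset.mem_univ _, h i hi⟩
      · intro h i hi
        exact (Finset.mem_filter.1 (h hi)).2
    by_cases h5 : ∀ i ∈ S, y i = true
    · rw [if_pos h5, if_pos (h4.1 h5), mul_one]
    · rw [if_neg h5, if_neg (fun h6 => h5 (h4.2 h6)), mul_zero]
  rw [Finset.sum_congr rfl (fun S _ => h3 S), Finset.sum_ite_mem, Finset.univ_inter]

/-- If `f` has `𝔽_p`-degree at most `d`, then `p` divides the coefficients of degree larger than `d`: with `c` from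
`exists_coeff`, `(mob f S : ZMod p) = ∑_{T ⊆ S} (-1)^|S \ T| P1 c (ind T) = c S` (`P1 c (ind T) = ∑_{J ⊆ T} c J`, exchange the
sums). -/
theorem mob_mod {p d n : ℕ} [Fact p.Prime] {f : (Fin n → Bool) → Bool} (h : DegLE p d f) (S : Finset (Fin n))
    (hS : d < S.card) : ((mob f S : ℤ) : ZMod p) = 0 := by
  obtain ⟨c, hc1, hc2⟩ := exists_coeff h
  rw [← hc1 S hS]
  have hP : ∀ T : Finset (Fin n), P1 c (ind T) = ∑ J ∈ T.powerset, c J := by
    intro T
    unfold P1 mon
    have h3 : ∀ J : Finset (Fin n), c J * (if ∀ i ∈ J, ind T i = true then (1 : ZMod p) else 0) =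
        if J ∈ T.powerset then c J else 0 := by
      intro J
      have h4 : (∀ i ∈ J, ind T i = true) ↔ J ∈ T.powerset := by
        rw [Finset.mem_powerset]
        unfold ind
        simp only [decide_eq_true_eq]
        exact Iff.rfl
      by_cases h5 : ∀ i ∈ J, ind T i = true
      · rw [if_pos h5, if_pos (h4.1 h5), mul_one]
      · rw [if_neg h5, if_neg (fun h6 => h5 (h4.2 h6)), mul_zero]
    rw [Finset.sum_congr rfl (fun S _ => h3 S), Finset.sum_ite_mem, Finset.univ_inter]
  unfold mob
  rw [Int.cast_sum]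
  have h5 : ∀ T ∈ S.powerset, (((-1 : ℤ) ^ (S \ T).card * (if f (ind T) then 1 else 0) : ℤ) : ZMod p) =
      ∑ J ∈ T.powerset, ((((-1 : ℤ) ^ (S \ T).card : ℤ)) : ZMod p) * c J := by
    intro T _
    rw [← Finset.mul_sum, ← hP, hc2, Int.cast_mul]
    congr 1
    split_ifs <;> simp
  rw [Finset.sum_congr rfl h5]
  rw [Finset.sum_comm' (s' := fun J => S.powerset.filter (fun T => J ⊆ T)) (t' := S.powerset)]
  · have h6 : ∀ J ∈ S.powerset, ∑ T ∈ S.powerset with J ⊆ T,
        ((((-1 : ℤ) ^ (S \ T).card : ℤ)) : ZMod p) * c J = if J = S then c J else 0 := by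
      intro J hJ
      rw [← Finset.sum_mul, ← Int.cast_sum, mob_alt2 (Finset.mem_powerset.1 hJ)]
      split_ifs <;> simp
    rw [Finset.sum_congr rfl h6, Finset.sum_ite_eq', if_pos (Finset.mem_powerset.2 subset_rfl)]
  · intro T J
    simp only [Finset.mem_powerset, Finset.mem_filter]
    constructor
    · rintro ⟨h1, h2⟩
      exact ⟨⟨h1, h2⟩, h2.trans h1⟩
    · rintro ⟨⟨h1, h2⟩, -⟩
      exact ⟨h1, h2⟩

/-- If `p > 2^d` divides all coefficients of degree larger than `d`, they vanish.

Proof by strong induction on `S.card`. Let `d < S.card` and suppose `mob f T = 0` for all `T ⊂ S` with `d < T.card`. Choose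
`D ⊆ S` with `D.card = d + 1`. Consider `q U = ∑_{T ⊆ U, T.card ≤ d} mob f T` for `U ⊆ S`. For `U ≠ S` it equals
`f (ind U) ∈ {0, 1}` (by `mob_eval` and the hypothesis), and `f (ind S) = q S + mob f S`. Since `q` is a sum of monomials of
degree at most `d`, `∑_{U ⊆ D} (-1)^|U| q (S \ U) = 0` (each monomial misses an element of `D`; toggle it). So
`q S = - ∑_{∅ ≠ U ⊆ D} (-1)^|U| q (S \ U)` lies in `[-(2^d - 1), 2^d]`, and `mob f S = f (ind S) - q S` has absolute value at
most `2^d < p`; as `p` divides it, it is `0`. -/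
theorem mob_zero {d n p : ℕ} (f : (Fin n → Bool) → Bool) (hp : 2 ^ d < p)
    (h : ∀ S : Finset (Fin n), d < S.card → (p : ℤ) ∣ mob f S) : ∀ S : Finset (Fin n), d < S.card → mob f S = 0 := by
  intro S
  induction S using Finset.strongInduction with
  | H S ih =>
    intro hS
    obtain ⟨D, hDS, hDc⟩ := Finset.exists_subset_card_eq (show d + 1 ≤ S.card from hS)
    obtain ⟨q, hq⟩ : ∃ q : Finset (Fin n) → ℤ, ∀ U, q U = ∑ T ∈ U.powerset with T.card ≤ d, mob f T :=
      ⟨_, fun _ => rfl⟩
    -- values of q at proper subsets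
    have hq1 : ∀ U, U ⊂ S → q U = if f (ind U) then 1 else 0 := by
      intro U hU
      rw [hq, ← mob_sum f U, Finset.sum_filter]
      refine Finset.sum_congr rfl fun T hT => ?_
      split_ifs with h1
      · rfl
      · exact (ih T ((Finset.mem_powerset.1 hT).trans_ssubset hU) (not_le.1 h1)).symm
    have hq2 : (if f (ind S) then (1 : ℤ) else 0) = q S + mob f S := by
      have h1 : ∀ T ∈ S.powerset, mob f T = (if T.card ≤ d then mob f T else 0) +
          (if T = S then mob f T else 0) := by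
        intro T hT
        by_cases h2 : T = S
        · subst h2
          rw [if_neg (not_le.2 hS), if_pos rfl, zero_add]
        · by_cases h3 : T.card ≤ d
          · rw [if_pos h3, if_neg h2, add_zero]
          · rw [if_neg h3, if_neg h2, add_zero]
            exact ih T (Finset.ssubset_iff_subset_ne.2 ⟨Finset.mem_powerset.1 hT, h2⟩) (not_le.1 h3)
      rw [← mob_sum f S, Finset.sum_congr rfl h1, Finset.sum_add_distrib, Finset.sum_ite_eq',
        if_pos (Finset.mem_powerset.2 subset_rfl), hq, Finset.sum_filter]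
    -- the alternating sum over the subsets of D
    have hq3 : ∑ U ∈ D.powerset, (-1 : ℤ) ^ U.card * q (S \ U) = 0 := by
      have h1 : ∀ U ∈ D.powerset, (-1 : ℤ) ^ U.card * q (S \ U) =
          ∑ T ∈ S.powerset with (T.card ≤ d), (if U ⊆ D \ T then (-1 : ℤ) ^ U.card else 0) * mob f T := by
        intro U hU
        have hUD := Finset.mem_powerset.1 hU
        rw [hq, Finset.mul_sum, Finset.sum_filter, Finset.sum_filter]
        have hsub : (S \ U).powerset ⊆ S.powerset :=
          Finset.powerset_mono.2 Finset.sdiff_subset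
        rw [← Finset.sum_subset hsub (f := fun T => if T.card ≤ d then
          (if U ⊆ D \ T then (-1 : ℤ) ^ U.card else 0) * mob f T else 0)]
        · refine Finset.sum_congr rfl fun T hT => ?_
          have hT' := Finset.mem_powerset.1 hT
          have h2 : U ⊆ D \ T := by
            intro x hx
            exact Finset.mem_sdiff.2 ⟨hUD hx, fun hxT => (Finset.mem_sdiff.1 (hT' hxT)).2 hx⟩
          rw [if_pos h2]
        · intro T hT hT2
          have h2 : ¬ U ⊆ D \ T := by
            intro h3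
            apply hT2
            rw [Finset.mem_powerset]
            intro x hx
            exact Finset.mem_sdiff.2 ⟨Finset.mem_powerset.1 hT hx,
              fun hxU => (Finset.mem_sdiff.1 (h3 hxU)).2 hx⟩
          rw [if_neg h2, zero_mul]
          simp
      rw [Finset.sum_congr rfl h1, Finset.sum_comm]
      refine Finset.sum_eq_zero fun T hT => ?_
      rw [← Finset.sum_mul]
      have h2 : ∑ U ∈ D.powerset, (if U ⊆ D \ T then (-1 : ℤ) ^ U.card else 0) =
          ∑ U ∈ (D \ T).powerset, (-1 : ℤ) ^ U.card := by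
        rw [← Finset.sum_filter]
        refine Finset.sum_congr ?_ fun _ _ => rfl
        ext U
        simp only [Finset.mem_filter, Finset.mem_powerset]
        exact ⟨fun h => h.2, fun h => ⟨h.trans Finset.sdiff_subset, h⟩⟩
      have h3 : D \ T ≠ ∅ := by
        intro h4
        have h5 := Finset.card_le_card (Finset.sdiff_eq_empty_iff_subset.1 h4)
        have h6 := (Finset.mem_filter.1 hT).2
        omega
      rw [h2, Finset.sum_powerset_neg_one_pow_card, if_neg h3, zero_mul]
    have hD0 : D ≠ ∅ := by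
      intro h4
      rw [h4] at hDc
      simp at hDc
    have he0 : (∅ : Finset (Fin n)) ∈ D.powerset := Finset.mem_powerset.2 (Finset.empty_subset _)
    have hq4 : q S + ∑ U ∈ D.powerset.erase ∅, (-1 : ℤ) ^ U.card * q (S \ U) = 0 := by
      rw [← hq3, ← Finset.add_sum_erase _ _ he0]
      simp
    have hA : (1 : ℤ) + ∑ U ∈ D.powerset.erase ∅, (-1 : ℤ) ^ U.card = 0 := by
      have h1 := Finset.add_sum_erase D.powerset (fun U => (-1 : ℤ) ^ U.card) he0
      rw [Finset.sum_powerset_neg_one_pow_card, if_neg hD0] at h1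
      simpa using h1
    have hB : (1 : ℤ) + ∑ U ∈ D.powerset.erase ∅, (1 : ℤ) = 2 ^ (d + 1) := by
      have h1 := Finset.add_sum_erase D.powerset (fun _ => (1 : ℤ)) he0
      rw [h1]
      simp [hDc]
    have hval : ∀ U ∈ D.powerset.erase ∅, (q (S \ U) = 0 ∨ q (S \ U) = 1) := by
      intro U hU
      obtain ⟨hU0, hUD⟩ := Finset.mem_erase.1 hU
      have hss : S \ U ⊂ S := by
        refine Finset.ssubset_iff_subset_ne.2 ⟨Finset.sdiff_subset, fun h1 => ?_⟩
        obtain ⟨x, hx⟩ := Finset.nonempty_iff_ne_empty.2 hU0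
        have hxS : x ∈ S := hDS (Finset.mem_powerset.1 hUD hx)
        rw [← h1] at hxS
        exact (Finset.mem_sdiff.1 hxS).2 hx
      rw [hq1 _ hss]
      split_ifs
      · exact Or.inr rfl
      · exact Or.inl rfl
    have hsgn : ∀ U : Finset (Fin n), (-1 : ℤ) ^ U.card = 1 ∨ (-1 : ℤ) ^ U.card = -1 := fun U =>
      neg_one_pow_eq_or ℤ U.card
    have hup : 2 * q S ≤ 2 ^ (d + 1) := by
      have h1 : ∑ U ∈ D.powerset.erase ∅, (-2 * ((-1 : ℤ) ^ U.card * q (S \ U))) ≤
          ∑ U ∈ D.powerset.erase ∅, (1 - (-1 : ℤ) ^ U.card) := by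
        refine Finset.sum_le_sum fun U hU => ?_
        rcases hval U hU with h2 | h2 <;> rcases hsgn U with h3 | h3 <;> rw [h2, h3] <;> norm_num
      rw [← Finset.mul_sum, Finset.sum_sub_distrib] at h1
      linarith
    have hlow : -(2 ^ (d + 1)) + 2 ≤ 2 * q S := by
      have h1 : ∑ U ∈ D.powerset.erase ∅, (2 * ((-1 : ℤ) ^ U.card * q (S \ U))) ≤
          ∑ U ∈ D.powerset.erase ∅, (1 + (-1 : ℤ) ^ U.card) := by
        refine Finset.sum_le_sum fun U hU => ?_
        rcases hval U hU with h2 | h2 <;> rcases hsgn U with h3 | h3 <;> rw [h2, h3] <;> norm_num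
      rw [← Finset.mul_sum, Finset.sum_add_distrib] at h1
      linarith
    have hpow : (2 : ℤ) ^ (d + 1) = 2 * 2 ^ d := by ring
    have hpz : (2 : ℤ) ^ d < p := by exact_mod_cast hp
    have hf : (0 : ℤ) ≤ (if f (ind S) then (1 : ℤ) else 0) ∧
        (if f (ind S) then (1 : ℤ) else 0) ≤ 1 := by
      split_ifs <;> norm_num
    refine Int.eq_zero_of_abs_lt_dvd (h S hS) ?_
    rw [abs_lt]
    constructor <;> linarith [hf.1, hf.2]

/-- Integer degree at most `d` gives `𝔽_2`-degree at most `d`: the polynomial `∑ S, C (mob f S) * ∏ i ∈ S, X i` over `ZMod 2`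
(only the `S` with `S.card ≤ d` contribute). -/
theorem degLE_two {d n : ℕ} (f : (Fin n → Bool) → Bool) (h : ∀ S : Finset (Fin n), d < S.card → mob f S = 0) :
    DegLE 2 d f := by
  classical
  refine ⟨∑ S : Finset (Fin n), MvPolynomial.C ((mob f S : ℤ) : ZMod 2) * ∏ i ∈ S, MvPolynomial.X i, ?_, ?_⟩
  · refine (MvPolynomial.totalDegree_finsetSum _ _).trans (Finset.sup_le fun S _ => ?_)
    by_cases hS : d < S.card
    · rw [h S hS]
      simp
    · refine (MvPolynomial.totalDegree_mul _ _).trans ?_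
      rw [MvPolynomial.totalDegree_C, zero_add]
      refine (MvPolynomial.totalDegree_finsetProd _ _).trans ?_
      simp only [MvPolynomial.totalDegree_X, Finset.sum_const, smul_eq_mul, mul_one]
      exact not_lt.1 hS
  · intro y
    have h1 := congrArg (fun z : ℤ => (z : ZMod 2)) (mob_eval f y)
    simp only [Int.cast_sum, Int.cast_mul] at h1
    rw [map_sum]
    have h2 : ∀ S : Finset (Fin n), MvPolynomial.eval (fun i => if y i then (1 : ZMod 2) else 0)
        (MvPolynomial.C ((mob f S : ℤ) : ZMod 2) * ∏ i ∈ S, MvPolynomial.X i) =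
        ((mob f S : ℤ) : ZMod 2) * (((if ∀ i ∈ S, y i = true then 1 else 0 : ℤ)) : ZMod 2) := by
      intro S
      rw [map_mul, MvPolynomial.eval_C, map_prod]
      congr 1
      simp only [MvPolynomial.eval_X]
      rw [Finset.prod_ite_zero]
      split_ifs <;> simp
    rw [Finset.sum_congr rfl (fun S _ => h2 S), h1]
    split_ifs <;> simp

/-- Summary. -/
theorem degLE_two_of_large {p d n : ℕ} [Fact p.Prime] (hp : 2 ^ d < p) {f : (Fin n → Bool) → Bool} (h : DegLE p d f) :
    DegLE 2 d f :=
  degLE_two f (mob_zero f hp fun S hS => (ZMod.intCast_zmod_eq_zero_iff_dvd _ _).1 (mob_mod h S hS))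

end Pool.Agent.H.MP_dd1c2e_lc
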