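import Mathlib
import Pool.Agent.H.MP_dd1c2e_lc.Final
import Pool.Agent.H.MP_dd1c2e_lc.Mob

/-!
# The main theorem with constants that do not depend on the prime
-/

namespace Pool.Agent.H.MP_dd1c2e_lc

open Finset

/-- Relabelling Alice's inputs. Induction over the protocol. -/
theorem Reach.pull {X X' Y : Type} (α : X' → X) {q : ℕ} {A : Type} [Fintype A] {B : Type} [Fintype B]
    {ψ : X → Y → A → B → ℂ} (h : Reach X Y q A B ψ) : Reach X' Y q A B (fun x y => ψ (α x) y) := by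
  induction h with
  | start A B ψ h => exact Reach.start A B ψ h
  | alice A' V hV _ ih => exact Reach.alice A' (fun x => V (α x)) (fun x => hV (α x)) ih
  | bob B' W hW _ ih => exact Reach.bob B' W hW ih

/-- Relabelling Alice's inputs. -/
theorem QuantumComputes.pull {X X' Y : Type} (α : X' → X) {F : X → Y → Bool} {q : ℕ} (h : QuantumComputes F q) :
    QuantumComputes (fun x y => F (α x) y) q := by
  obtain ⟨A, hA, B, hB, ψ, hψ, h⟩ := h
  refine ⟨A, hA, B, hB, fun x y => ψ (α x) y, hψ.pull α, ?_⟩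
  rcases h with ⟨A', hA', V, hV, h⟩ | ⟨B', hB', W, hW, h⟩
  · exact Or.inl ⟨A', hA', fun x => V (α x), fun x => hV (α x), fun x y => h (α x) y⟩
  · exact Or.inr ⟨B', hB', W, hW, fun x y => h (α x) y⟩

theorem PolyB.sum {C : Type} (s : Finset C) {f : C → ℕ → ℕ} (hf : ∀ c ∈ s, PolyB (f c)) :
    PolyB (fun L => ∑ c ∈ s, f c L) := by
  classical
  induction s using Finset.induction_on with
  | empty =>
    simp only [Finset.sum_empty]
    exact PolyB.const 0
  | insert a s ha ih =>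
    simp only [Finset.sum_insert ha]
    exact (hf a (Finset.mem_insert_self a s)).add (ih fun c hc => hf c (Finset.mem_insert_of_mem hc))

/-- The number of distinct rows, uniformly in the primes. Every row `F x` has `𝔽_p`-degree at most `d` for a prime
`p = p x ≤ 2^(d+1)`: if the given prime is larger than `2^d`, then `p = 2` works (`degLE_two_of_large`). For every prime
`p ≤ 2^(d+1)` let `X_p` be the set of `x` with `p x = p`; `QuantumComputes.pull` along `X_p → X` and `rows_le p d` give at most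
`2^(Ψ_p q)` distinct rows. The union over `p` has at most `∑_p 2^(Ψ_p q) ≤ 2^(∑_p (Ψ_p q + 1))` rows. (Choose `Ψ` as a
function of all natural numbers, `0` if `p` is not prime.) -/
theorem rows_uniform (d : ℕ) : ∃ Ψ : ℕ → ℕ, PolyB Ψ ∧
    ∀ (X : Type) (n : ℕ) (F : X → (Fin n → Bool) → Bool), (∀ x, ∃ p : ℕ, p.Prime ∧ DegLE p d (F x)) →
      ∀ q : ℕ, QuantumComputes F q → (Set.range F).ncard ≤ 2 ^ (Ψ q) := by
  classical
  have hex : ∀ p : ℕ, ∃ Ψ : ℕ → ℕ, PolyB Ψ ∧ (p.Prime → 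
      ∀ (X : Type) (n : ℕ) (F : X → (Fin n → Bool) → Bool), (∀ x, DegLE p d (F x)) →
        ∀ q : ℕ, QuantumComputes F q → (Set.range F).ncard ≤ 2 ^ (Ψ q)) := by
    intro p
    by_cases hp : p.Prime
    · haveI : Fact p.Prime := ⟨hp⟩
      obtain ⟨Ψ, h1, h2⟩ := rows_le p d
      exact ⟨Ψ, h1, fun _ => h2⟩
    · exact ⟨fun _ => 0, PolyB.const 0, fun h => absurd h hp⟩
  choose Ψ hΨ1 hΨ2 using hex
  refine ⟨fun q => ∑ p ∈ Finset.range (2 ^ (d + 1) + 1), (Ψ p q + 1),
    PolyB.sum _ fun p _ => (hΨ1 p).add (PolyB.const 1), ?_⟩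
  intro X n F hdeg q hq
  have hdeg' : ∀ x, ∃ p ∈ Finset.range (2 ^ (d + 1) + 1), p.Prime ∧ DegLE p d (F x) := by
    intro x
    obtain ⟨p, hp, hd⟩ := hdeg x
    have h2 : 2 ^ (d + 1) = 2 * 2 ^ d := by rw [pow_succ]; ring
    have h1 := Nat.one_le_two_pow (n := d)
    by_cases hle : p ≤ 2 ^ d
    · exact ⟨p, Finset.mem_range.2 (by omega), hp, hd⟩
    · haveI : Fact p.Prime := ⟨hp⟩
      exact ⟨2, Finset.mem_range.2 (by omega), Nat.prime_two,
        degLE_two_of_large (not_le.1 hle) hd⟩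
  have hcov : Set.range F ⊆ ⋃ p ∈ Finset.range (2 ^ (d + 1) + 1),
      Set.range (fun x : {x : X // p.Prime ∧ DegLE p d (F x)} => F x.1) := by
    rintro f ⟨x, rfl⟩
    obtain ⟨p, hp, hpp, hd⟩ := hdeg' x
    exact Set.mem_biUnion hp ⟨⟨x, hpp, hd⟩, rfl⟩
  have hone : ∀ p : ℕ, (Set.range (fun x : {x : X // p.Prime ∧ DegLE p d (F x)} => F x.1)).ncard ≤
      2 ^ (Ψ p q) := by
    intro p
    by_cases hp : p.Prime
    · exact hΨ2 p hp {x : X // p.Prime ∧ DegLE p d (F x)} n (fun x => F x.1) (fun x => x.2.2) q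
        (hq.pull Subtype.val)
    · have h1 : Set.range (fun x : {x : X // p.Prime ∧ DegLE p d (F x)} => F x.1) = ∅ := by
        rw [Set.range_eq_empty_iff]
        exact ⟨fun x => hp x.2.1⟩
      rw [h1, Set.ncard_empty]
      exact Nat.zero_le _
  have hsum : ∀ s : Finset ℕ, ∑ p ∈ s, 2 ^ (Ψ p q) ≤ 2 ^ (∑ p ∈ s, (Ψ p q + 1)) := by
    intro s
    induction s using Finset.induction_on with
    | empty => simp
    | insert a s ha ih =>
      rw [Finset.sum_insert ha, Finset.sum_insert ha, pow_add, pow_succ]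
      have h1 := Nat.one_le_two_pow (n := Ψ a q)
      have h2 := Nat.one_le_two_pow (n := ∑ p ∈ s, (Ψ p q + 1))
      nlinarith
  calc (Set.range F).ncard
      ≤ (⋃ p ∈ Finset.range (2 ^ (d + 1) + 1),
          Set.range (fun x : {x : X // p.Prime ∧ DegLE p d (F x)} => F x.1)).ncard :=
        Set.ncard_le_ncard hcov (Set.toFinite _)
    _ ≤ ∑ p ∈ Finset.range (2 ^ (d + 1) + 1),
          (Set.range (fun x : {x : X // p.Prime ∧ DegLE p d (F x)} => F x.1)).ncard :=
        Finset.set_ncard_biUnion_le _ _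
    _ ≤ ∑ p ∈ Finset.range (2 ^ (d + 1) + 1), 2 ^ (Ψ p q) := Finset.sum_le_sum fun p _ => hone p
    _ ≤ 2 ^ (∑ p ∈ Finset.range (2 ^ (d + 1) + 1), (Ψ p q + 1)) := hsum _

/-- For every `d` there are constants `C`, `c` such that for every total function `F` on `X × {0,1}^n` such that every row
has `𝔽_p`-degree at most `d` for some prime `p` that may depend on the row, the one-way and the two-way deterministic
communication complexity are at most `C Q*(F)^c + C`. The same computation as in `logEquiv`. -/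
theorem logEquivUniform (d : ℕ) : ∃ C c : ℕ,
    ∀ (X : Type) (n : ℕ) (F : X → (Fin n → Bool) → Bool), (∀ x, ∃ p : ℕ, p.Prime ∧ DegLE p d (F x)) →
      ∀ q : ℕ, QuantumComputes F q → OneWay F (C * q ^ c + C) ∧ DetComputes F (C * q ^ c + C) := by
  obtain ⟨Ψ, ⟨C, c, hC⟩, h⟩ := rows_uniform d
  refine ⟨C * 2 ^ c + 1, c, ?_⟩
  intro X n F hdeg q hq
  have h1 := oneWay_of_rows (Set.toFinite (Set.range F)) (h X n F hdeg q hq)
  have h2 : (q + 1) ^ c ≤ 2 ^ c * q ^ c + 2 ^ c := by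
    rcases Nat.eq_zero_or_pos q with h3 | h3
    · subst h3
      rw [zero_add, one_pow]
      have := Nat.one_le_two_pow (n := c)
      omega
    · calc (q + 1) ^ c ≤ (2 * q) ^ c := Nat.pow_le_pow_left (by omega) _
        _ = 2 ^ c * q ^ c := mul_pow _ _ _
        _ ≤ 2 ^ c * q ^ c + 2 ^ c := Nat.le_add_right _ _
  have h3 : Ψ q + 1 ≤ (C * 2 ^ c + 1) * q ^ c + (C * 2 ^ c + 1) := by
    have h4 := hC q
    have h5 : C * (q + 1) ^ c ≤ C * (2 ^ c * q ^ c + 2 ^ c) := Nat.mul_le_mul_left _ h2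
    nlinarith [Nat.zero_le (q ^ c)]
  exact ⟨h1.mono (by omega), (det_of_oneWay h1).mono h3⟩

end Pool.Agent.H.MP_dd1c2e_lc
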